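import Mathlib

/-!
# Zero sets of polynomial functions on connected compact groups

A polynomial in the matrix coefficients of a continuous representation of a connected compact
group, which does not vanish identically, vanishes on a set of Haar measure zero only.
-/

open MeasureTheory

namespace Pool.Agent.Y136

section Null

variable {G : Type*} [Group G] {J : Type*} [Fintype J] [DecidableEq J] (R : G →* Matrix J J ℂ)

/-- The value of a polynomial at the matrix `R g`. -/
noncomputable def evAt (g : G) : MvPolynomial (J × J) ℂ →+* ℂ :=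
  MvPolynomial.eval fun x => R g x.1 x.2

/-- The translation of polynomials. -/
noncomputable def trans (h : G) : MvPolynomial (J × J) ℂ →ₐ[ℂ] MvPolynomial (J × J) ℂ :=
  MvPolynomial.aeval fun x => ∑ l, MvPolynomial.C (R h x.1 l) * MvPolynomial.X (l, x.2)

lemma evAt_trans (g h : G) (Q : MvPolynomial (J × J) ℂ) :
    evAt R g (trans R h Q) = evAt R (h * g) Q := by
  have h1 : (evAt R g).comp (trans R h : MvPolynomial (J × J) ℂ →+* MvPolynomial (J × J) ℂ) =
      evAt R (h * g) := by
    refine MvPolynomial.ringHom_ext ?_ ?_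
    · intro r
      simp [evAt, trans]
    · intro x
      simp [evAt, trans, Matrix.mul_apply]
  exact congrArg (fun f => f Q) h1

/-- The common zeros of an ideal. -/
def zset (I : Ideal (MvPolynomial (J × J) ℂ)) : Set G := {g | ∀ Q ∈ I, evAt R g Q = 0}

lemma zset_anti {I I' : Ideal (MvPolynomial (J × J) ℂ)} (h : I ≤ I') :
    zset R I' ⊆ zset R I := fun _ hg Q hQ => hg Q (h hQ)

lemma mem_zset_map {I : Ideal (MvPolynomial (J × J) ℂ)} (h g : G) :
    g ∈ zset R (Ideal.map (trans R h) I) ↔ h * g ∈ zset R I := by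
  constructor
  · intro hg Q hQ
    rw [← evAt_trans]
    exact hg _ (Ideal.mem_map_of_mem _ hQ)
  · intro hg
    have h1 : Ideal.map (trans R h) I ≤ RingHom.ker (evAt R g) := by
      rw [Ideal.map_le_iff_le_comap]
      intro Q hQ
      show evAt R g (trans R h Q) = 0
      rw [evAt_trans]
      exact hg Q hQ
    exact fun Q hQ => h1 hQ

lemma mem_zset_sup {I I' : Ideal (MvPolynomial (J × J) ℂ)} (g : G) :
    g ∈ zset R (I ⊔ I') ↔ g ∈ zset R I ∧ g ∈ zset R I' := by
  constructor
  · intro hg
    exact ⟨zset_anti R le_sup_left hg, zset_anti R le_sup_right hg⟩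
  · rintro ⟨h1, h2⟩
    have h3 : I ⊔ I' ≤ RingHom.ker (evAt R g) := sup_le (fun Q hQ => h1 Q hQ) fun Q hQ => h2 Q hQ
    exact fun Q hQ => h3 hQ

variable [TopologicalSpace G]

lemma continuous_evAt (hR : Continuous R) (Q : MvPolynomial (J × J) ℂ) :
    Continuous fun g => evAt R g Q := by
  unfold evAt
  exact (MvPolynomial.continuous_eval Q).comp
    (continuous_pi fun x => (hR.matrix_elem x.1 x.2))

lemma isClosed_zset (hR : Continuous R) (I : Ideal (MvPolynomial (J × J) ℂ)) :
    IsClosed (zset R I) := by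
  have h1 : zset R I = ⋂ Q ∈ I, {g | evAt R g Q = 0} := by
    ext g; simp [zset]
  rw [h1]
  exact isClosed_biInter fun Q _ => isClosed_eq (continuous_evAt R hR Q) continuous_const

variable [IsTopologicalGroup G] [PreconnectedSpace G] [MeasurableSpace G] [BorelSpace G]
  (μ : Measure G) [IsFiniteMeasure μ] [μ.IsMulLeftInvariant]

theorem null_zeros (hR : Continuous R) (Q : MvPolynomial (J × J) ℂ)
    (hQ : ∃ g, evAt R g Q ≠ 0) : μ {g | evAt R g Q = 0} = 0 := by
  classical
  by_contra hpos
  let 𝒮 : Set (Ideal (MvPolynomial (J × J) ℂ)) := {I | Q ∈ I ∧ μ (zset R I) ≠ 0}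
  have hne : 𝒮.Nonempty := by
    refine ⟨Ideal.span {Q}, Ideal.mem_span_singleton_self Q, ?_⟩
    have h1 : zset R (Ideal.span {Q}) = {g | evAt R g Q = 0} := by
      ext g
      constructor
      · intro hg
        exact hg Q (Ideal.mem_span_singleton_self Q)
      · intro hg
        have h2 : Ideal.span {Q} ≤ RingHom.ker (evAt R g) := by
          rw [Ideal.span_le, Set.singleton_subset_iff]
          exact hg
        exact fun Q' hQ' => h2 hQ'
    rw [h1]; exact hpos
  have hex : ∃ I : Ideal (MvPolynomial (J × J) ℂ), I ∈ 𝒮 ∧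
      ∀ I' : Ideal (MvPolynomial (J × J) ℂ), I' ∈ 𝒮 → ¬ I < I' :=
    set_has_maximal_iff_noetherian.mpr
      (inferInstance : IsNoetherian (MvPolynomial (J × J) ℂ) (MvPolynomial (J × J) ℂ)) 𝒮 hne
  obtain ⟨I, ⟨hQI, hI⟩, hmax⟩ := hex
  set Z := zset R I with hZ
  have hZc : IsClosed Z := isClosed_zset R hR I
  -- translates
  have htr : ∀ (h : G) (s : Set G), μ ((fun g => h * g) ⁻¹' s) = μ s :=
    fun h s => measure_preimage_mul μ h s
  have hdich : ∀ h : G, μ (Z ∩ (fun g => h * g) ⁻¹' Z) ≠ 0 → ∀ z ∈ Z, h * z ∈ Z := by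
    intro h hh z hz
    have h1 : Z ∩ (fun g => h * g) ⁻¹' Z = zset R (I ⊔ Ideal.map (trans R h) I) := by
      ext g
      rw [mem_zset_sup, mem_zset_map]
      rfl
    rw [h1] at hh
    have h2 : ¬ I < I ⊔ Ideal.map (trans R h) I :=
      hmax (I ⊔ Ideal.map (trans R h) I) ⟨Ideal.mem_sup_left hQI, hh⟩
    have h3 : I ⊔ Ideal.map (trans R h) I = I := by
      by_contra hcon
      exact h2 (lt_of_le_of_ne le_sup_left (Ne.symm hcon))
    have h4 : Ideal.map (trans R h) I ≤ I := le_sup_right.trans (le_of_eq h3)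
    exact (mem_zset_map R h z).mp (zset_anti R h4 hz)
  have hinv : ∀ h : G, μ (Z ∩ (fun g => h * g) ⁻¹' Z) = μ (Z ∩ (fun g => h⁻¹ * g) ⁻¹' Z) := by
    intro h
    rw [← htr h⁻¹ (Z ∩ (fun g => h * g) ⁻¹' Z)]
    congr 1
    ext g
    simp only [Set.mem_preimage, Set.mem_inter_iff, mul_inv_cancel_left]
    exact and_comm
  let H : Subgroup G :=
    { carrier := {h | ∀ z, h * z ∈ Z ↔ z ∈ Z}
      mul_mem' := by
        intro a b ha hb z
        rw [mul_assoc, ha, hb]
      one_mem' := by intro z; rw [one_mul]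
      inv_mem' := by
        intro a ha z
        rw [← ha, mul_inv_cancel_left] }
  have hH : ∀ h, h ∉ H → μ (Z ∩ (fun g => h * g) ⁻¹' Z) = 0 := by
    intro h hh
    by_contra hcon
    refine hh fun z => ⟨fun hz => ?_, fun hz => hdich h hcon z hz⟩
    have h1 : μ (Z ∩ (fun g => h⁻¹ * g) ⁻¹' Z) ≠ 0 := by rw [← hinv h]; exact hcon
    have := hdich h⁻¹ h1 _ hz
    rwa [inv_mul_cancel_left] at this
  have hHc : IsClosed (H : Set G) := by
    have h1 : (H : Set G) = ⋂ z ∈ Z, ({h | h * z ∈ Z} ∩ {h | h⁻¹ * z ∈ Z}) := by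
      ext h
      simp only [Set.mem_iInter, Set.mem_inter_iff, Set.mem_ofPred_eq]
      constructor
      · intro hh z hz
        refine ⟨(hh z).mpr hz, ?_⟩
        exact (H.inv_mem hh z).mpr hz
      · intro hh z
        refine ⟨fun hz => ?_, fun hz => (hh z hz).1⟩
        have := (hh _ hz).2
        rwa [inv_mul_cancel_left] at this
    rw [h1]
    refine isClosed_biInter fun z _ => IsClosed.inter ?_ ?_
    · exact hZc.preimage (continuous_mul_const z)
    · exact hZc.preimage ((continuous_mul_const z).comp continuous_inv)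
  have hfin : Finite (G ⧸ H) := by
    by_contra hinf
    rw [not_finite_iff_infinite] at hinf
    let s : G ⧸ H → Set G := fun x => (fun g => x.out⁻¹ * g) ⁻¹' Z
    have hs : ∀ x, NullMeasurableSet (s x) μ := fun x =>
      (hZc.preimage (continuous_const_mul _)).measurableSet.nullMeasurableSet
    have hd : Pairwise (Function.onFun (AEDisjoint μ) s) := by
      intro x y hxy
      show μ (s x ∩ s y) = 0
      have h1 : y.out⁻¹ * x.out ∉ H := by
        intro hmem
        apply hxy
        rw [← x.out_eq, ← y.out_eq]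
        exact (QuotientGroup.eq.mpr hmem).symm
      rw [← htr x.out (s x ∩ s y), ← hH _ h1]
      congr 1
      ext g
      simp only [s, Set.mem_preimage, Set.mem_inter_iff, inv_mul_cancel_left, mul_assoc]
    have h2 := tsum_measure_le_measure_univ hs hd
    have h3 : ∀ x, μ (s x) = μ Z := fun x => htr _ Z
    simp only [h3] at h2
    rw [ENNReal.tsum_const_eq_top_of_ne_zero hI] at h2
    exact (measure_ne_top μ Set.univ) (top_le_iff.mp h2)
  have hfi : H.FiniteIndex := Subgroup.finiteIndex_of_finite_quotient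
  have hopen : IsOpen (H : Set G) := H.isOpen_of_isClosed_of_finiteIndex hHc
  have huniv : (H : Set G) = Set.univ := IsClopen.eq_univ ⟨hHc, hopen⟩ ⟨1, H.one_mem⟩
  have hZne : Z.Nonempty := by
    by_contra hcon
    rw [Set.not_nonempty_iff_eq_empty] at hcon
    exact hI (by rw [hcon, measure_empty])
  obtain ⟨z, hz⟩ := hZne
  obtain ⟨g, hg⟩ := hQ
  have h5 : g * z⁻¹ ∈ H := by
    have : g * z⁻¹ ∈ (H : Set G) := by rw [huniv]; trivial
    exact this
  have h6 := (h5 z).mpr hz
  rw [inv_mul_cancel_right] at h6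
  exact hg (h6 Q hQI)

end Null

end Pool.Agent.Y136
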