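import Pool.Agent.Y136.MG.Weil
import Pool.Agent.Y136.MG.Null

/-!
# The exceptional set of a torus in a compact group, as the zero set of a class polynomial
-/

open Polynomial
open scoped Pointwise

namespace Pool.Agent.Y136

/-! ### Test vectors -/

lemma exists_tests (J : Type*) [Fintype J] (n₀ D : ℕ) (deg : J → ℕ) (Λ : (J → ℤ) → Prop) :
    ∃ (A : Finset (J → ℤ)) (N : ℕ), 0 < N ∧ (∀ m ∈ A, ¬ Λ m) ∧ ∀ (q : ℕ) (α : J → ℂ),
      IsWeilSystem n₀ D q deg α →
      (∃ m, ¬ Λ m ∧ ∃ n : ℕ, 0 < n ∧ IsWeilSystem.gam q deg α m ^ n = 1) →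
      ∃ m ∈ A, IsWeilSystem.gam q deg α m ^ N = 1 := by
  classical
  obtain ⟨N, hN, hb⟩ := IsWeilSystem.order_bound J n₀
  let box : Set (J → ℤ) := Set.pi Set.univ fun j => Set.Icc (-(D * deg j : ℤ)) (D * deg j)
  have hbox : box.Finite := Set.Finite.pi fun j => Set.finite_Icc _ _
  let good : Set (Set (J → ℤ)) :=
    {U | U ⊆ box ∧ ∃ m, ¬ Λ m ∧ ∀ c ∈ U, ∑ j, m j * c j = 0}
  have hgood : good.Finite := (hbox.finite_subsets).subset fun U hU => hU.1
  have hch : ∀ U : Set (J → ℤ), ∃ m : J → ℤ, U ∈ good → ¬ Λ m ∧ ∀ c ∈ U, ∑ j, m j * c j = 0 := by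
    intro U
    by_cases hU : U ∈ good
    · obtain ⟨m, hm⟩ := hU.2
      exact ⟨m, fun _ => hm⟩
    · exact ⟨0, fun h => absurd h hU⟩
  choose f hf using hch
  refine ⟨hgood.toFinset.image f, N, hN, ?_, ?_⟩
  · intro m hm
    obtain ⟨U, hU, rfl⟩ := Finset.mem_image.mp hm
    exact (hf U (hgood.mem_toFinset.mp hU)).1
  · rintro q α hα ⟨m, hm, hn⟩
    have hU : IsWeilSystem.slopes D q deg α ∈ good := by
      refine ⟨fun c hc => ?_, m, hm, hα.sum_eq_zero m hn⟩
      rw [Set.mem_univ_pi]
      exact fun j => hα.slopes_bounded hc j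
    refine ⟨f (IsWeilSystem.slopes D q deg α), ?_, ?_⟩
    · exact Finset.mem_image_of_mem _ (hgood.mem_toFinset.mpr hU)
    · exact hb D q deg α hα _ (hα.exists_pow_eq_one _ (hf _ hU).2)

/-! ### Generic elements -/

lemma exists_generic {T : Type*} [Group T] [TopologicalSpace T] [IsTopologicalGroup T]
    [PreconnectedSpace T] {Y : Type*} [Finite Y] (χ : Y → T →* ℂ) (hχ : ∀ y, Continuous (χ y))
    (hne : ∀ y, ∃ t, χ y t ≠ 1) {M : ℕ} (hM : 0 < M) : ∃ t : T, ∀ y, χ y t ^ M ≠ 1 := by
  classical
  have := Fintype.ofFinite Y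
  by_contra hcon
  push Not at hcon
  let K : Y → Subgroup T := fun y => ((powMonoidHom M).comp (χ y)).ker
  have hcov : ⋃ y ∈ (Finset.univ : Finset Y), (1 : T) • (K y : Set T) = Set.univ := by
    refine Set.eq_univ_of_forall fun t => ?_
    obtain ⟨y, hy⟩ := hcon t
    refine Set.mem_iUnion₂.mpr ⟨y, Finset.mem_univ y, ?_⟩
    rw [one_smul]
    exact hy
  obtain ⟨y, -, hy⟩ := Subgroup.exists_finiteIndex_of_leftCoset_cover hcov
  have hclosed : IsClosed (K y : Set T) := by
    have h1 : (K y : Set T) = {t | χ y t ^ M = 1} := rfl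
    rw [h1]
    exact isClosed_eq ((hχ y).pow M) continuous_const
  have hopen := (K y).isOpen_of_isClosed_of_finiteIndex hclosed
  have huniv : (K y : Set T) = Set.univ :=
    IsClopen.eq_univ ⟨hclosed, hopen⟩ ⟨1, (K y).one_mem⟩
  have hall : ∀ t, χ y t ^ M = 1 := by
    intro t
    have : t ∈ (K y : Set T) := by rw [huniv]; trivial
    exact this
  have hfin : Finite {z : ℂ // z ^ M = 1} := by
    have h1 : {z : ℂ | z ^ M = 1}.Finite := by
      refine (Polynomial.nthRootsFinset M (1 : ℂ)).finite_toSet.subset fun z hz => ?_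
      exact (Polynomial.mem_nthRootsFinset hM 1).mpr hz
    exact h1.to_subtype
  let f : T → {z : ℂ // z ^ M = 1} := fun t => ⟨χ y t, hall t⟩
  have hf : Continuous f := (hχ y).subtype_mk _
  obtain ⟨t, ht⟩ := hne y
  have h2 := PreconnectedSpace.constant inferInstance hf (x := t) (y := 1)
  apply ht
  have h3 := congrArg Subtype.val h2
  simpa [f] using h3

/-! ### Tensor powers of matrices -/

section Tpow

variable {S : Type*} [CommRing S] {J : Type*} [Fintype J] [DecidableEq J]

/-- The `N`-th tensor power of a matrix. -/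
def tpow (N : ℕ) (A : Matrix J J S) : Matrix (Fin N → J) (Fin N → J) S :=
  Matrix.of fun x y => ∏ a, A (x a) (y a)

omit [DecidableEq J] in
lemma tpow_mul (N : ℕ) (A B : Matrix J J S) : tpow N (A * B) = tpow N A * tpow N B := by
  ext x y
  simp only [tpow, Matrix.of_apply, Matrix.mul_apply]
  rw [Finset.prod_univ_sum, Fintype.piFinset_univ]
  exact Finset.sum_congr rfl fun z _ => Finset.prod_mul_distrib

omit [Fintype J] in
lemma tpow_diagonal (N : ℕ) (d : J → S) :
    tpow N (Matrix.diagonal d) = Matrix.diagonal fun x : Fin N → J => ∏ a, d (x a) := by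
  ext x y
  simp only [tpow, Matrix.of_apply]
  by_cases h : x = y
  · subst h
    rw [Matrix.diagonal_apply_eq]
    exact Finset.prod_congr rfl fun a _ => Matrix.diagonal_apply_eq _ _
  · rw [Matrix.diagonal_apply_ne _ h]
    obtain ⟨a, ha⟩ := Function.ne_iff.mp h
    exact Finset.prod_eq_zero (Finset.mem_univ a) (Matrix.diagonal_apply_ne _ ha)

omit [Fintype J] in
lemma tpow_one (N : ℕ) : tpow N (1 : Matrix J J S) = 1 := by
  rw [← Matrix.diagonal_one, tpow_diagonal]
  simp

omit [Fintype J] [DecidableEq J] in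
lemma tpow_map {S' : Type*} [CommRing S'] (f : S →+* S') (N : ℕ) (A : Matrix J J S) :
    (tpow N A).map f = tpow N (A.map f) := by
  ext x y
  simp [tpow, map_prod]

lemma charpoly_conj {P P' : Matrix J J S} (h : P' * P = 1) (A : Matrix J J S) :
    (P * A * P').charpoly = A.charpoly := by
  rw [Matrix.charpoly_mul_comm, ← mul_assoc, h, one_mul]

lemma conj_pow {P P' : Matrix J J S} (h : P' * P = 1) (A : Matrix J J S) (M : ℕ) :
    (P * A * P') ^ M = P * A ^ M * P' := by
  have h' : P * P' = 1 := mul_eq_one_comm.mp h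
  induction M with
  | zero => rw [pow_zero, pow_zero, mul_one, h']
  | succ M ih =>
    rw [pow_succ, ih, pow_succ]
    calc P * A ^ M * P' * (P * A * P') = P * A ^ M * (P' * P) * A * P' := by
          simp only [mul_assoc]
      _ = P * (A ^ M * A) * P' := by rw [h, mul_one, mul_assoc P]

/-- A coefficient of a characteristic polynomial. -/
noncomputable def clp (N M m0 : ℕ) (A : Matrix J J S) : S :=
  ((tpow N A) ^ M - 1).charpoly.coeff m0

lemma clp_conj {P P' : Matrix J J S} (h : P' * P = 1) (N M m0 : ℕ) (A : Matrix J J S) :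
    clp N M m0 (P * A * P') = clp N M m0 A := by
  have h1 : tpow N P' * tpow N P = 1 := by rw [← tpow_mul, h, tpow_one]
  have h2 : tpow N P * tpow N P' = 1 := mul_eq_one_comm.mp h1
  unfold clp
  rw [tpow_mul, tpow_mul, conj_pow h1]
  have h3 : tpow N P * tpow N A ^ M * tpow N P' - 1 =
      tpow N P * (tpow N A ^ M - 1) * tpow N P' := by
    rw [mul_sub, sub_mul, mul_one, h2]
  rw [h3, charpoly_conj h1]

lemma clp_map {S' : Type*} [CommRing S'] (f : S →+* S') (N M m0 : ℕ) (A : Matrix J J S) :
    f (clp N M m0 A) = clp N M m0 (A.map f) := by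
  unfold clp
  rw [← Polynomial.coeff_map, ← Matrix.charpoly_map]
  congr 2
  rw [← tpow_map]
  have h1 := map_sub (f.mapMatrix (m := Fin N → J)) (tpow N A ^ M) 1
  rw [map_pow, map_one] at h1
  exact h1

lemma coeff_prod_sub {Y : Type*} [Fintype Y] [DecidableEq Y] (d : Y → S) (Z : Finset Y)
    (hZ : ∀ y ∈ Z, d y = 0) :
    (∏ y, (X - C (d y))).coeff Z.card = ∏ y ∈ Finset.univ \ Z, (-d y) := by
  have h1 : ∏ y, (X - C (d y)) = (∏ y ∈ Finset.univ \ Z, (X - C (d y))) * X ^ Z.card := by
    rw [← Finset.prod_sdiff (Finset.subset_univ Z)]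
    congr 1
    rw [Finset.prod_congr rfl fun y hy => by rw [hZ y hy, C_0, sub_zero], Finset.prod_const]
  rw [h1, Polynomial.coeff_mul_X_pow', if_pos le_rfl, Nat.sub_self,
    Polynomial.coeff_zero_eq_eval_zero, Polynomial.eval_prod]
  exact Finset.prod_congr rfl fun y _ => by simp

lemma clp_diagonal (N M : ℕ) (d : J → S) (Z : Finset (Fin N → J))
    (hZ : ∀ x ∈ Z, (∏ a, d (x a)) ^ M = 1) :
    clp N M Z.card (Matrix.diagonal d) =
      ∏ x ∈ Finset.univ \ Z, (1 - (∏ a, d (x a)) ^ M) := by
  unfold clp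
  rw [tpow_diagonal, Matrix.diagonal_pow, ← Matrix.diagonal_one, Matrix.diagonal_sub,
    Matrix.charpoly_diagonal, coeff_prod_sub _ Z]
  · exact Finset.prod_congr rfl fun x _ => by simp
  · intro x hx
    simp [hZ x hx]

end Tpow

/-! ### A representation, its conjugate and the trivial representation -/

section Plus

variable {J : Type*} [Fintype J] [DecidableEq J]

/-- The block matrix of a matrix, its complex conjugate and `1`. -/
noncomputable def plusM (A : Matrix J J ℂ) : Matrix (J ⊕ (J ⊕ Unit)) (J ⊕ (J ⊕ Unit)) ℂ :=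
  Matrix.fromBlocks A 0 0 (Matrix.fromBlocks (A.map (starRingEnd ℂ)) 0 0 1)

omit [DecidableEq J] in
lemma plusM_mul (A B : Matrix J J ℂ) : plusM (A * B) = plusM A * plusM B := by
  unfold plusM
  rw [Matrix.fromBlocks_multiply, Matrix.fromBlocks_multiply]
  simp [Matrix.map_mul]

omit [Fintype J] in
lemma plusM_one : plusM (1 : Matrix J J ℂ) = 1 := by
  unfold plusM
  simp [Matrix.map_one]

/-- The letters: the entries of `d`, their conjugates, and `1`. -/
noncomputable def plusD (d : J → ℂ) : J ⊕ (J ⊕ Unit) → ℂ :=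
  Sum.elim d (Sum.elim (fun j => starRingEnd ℂ (d j)) fun _ => 1)

omit [Fintype J] in
lemma plusM_diagonal (d : J → ℂ) : plusM (Matrix.diagonal d) = Matrix.diagonal (plusD d) := by
  unfold plusM plusD
  rw [Matrix.diagonal_map (map_zero _), ← Matrix.diagonal_one, Matrix.fromBlocks_diagonal,
    Matrix.fromBlocks_diagonal]

variable {G : Type*} [Group G]

/-- The sum of a representation, its conjugate and the trivial representation. -/
noncomputable def plusR (R : G →* Matrix J J ℂ) :
    G →* Matrix (J ⊕ (J ⊕ Unit)) (J ⊕ (J ⊕ Unit)) ℂ where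
  toFun g := plusM (R g)
  map_one' := by rw [map_one, plusM_one]
  map_mul' a b := by rw [map_mul, plusM_mul]

lemma continuous_plusR [TopologicalSpace G] {R : G →* Matrix J J ℂ} (hR : Continuous R) :
    Continuous (plusR R) := by
  have h1 : Continuous fun g => plusM (R g) := by
    unfold plusM
    refine Continuous.matrix_fromBlocks hR continuous_const continuous_const ?_
    refine Continuous.matrix_fromBlocks ?_ continuous_const continuous_const continuous_const
    exact hR.matrix_map Complex.continuous_conj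
  exact h1

end Plus

/-! ### Words -/

/-- A function with integral values is represented by a word in the letters. -/
lemma exists_word {J : Type*} [Fintype J] [DecidableEq J] (m : J → ℤ) :
    ∀ N, ∑ j, (m j).natAbs ≤ N → ∃ x : Fin N → J ⊕ (J ⊕ Unit), ∀ d : J → ℂ, (∀ j, ‖d j‖ = 1) →
      ∏ a, plusD d (x a) = ∏ j, d j ^ m j := by
  have key : ∀ s : Finset J, ∃ l : List (J ⊕ (J ⊕ Unit)), l.length = ∑ j ∈ s, (m j).natAbs ∧
      ∀ d : J → ℂ, (∀ j, ‖d j‖ = 1) → (l.map (plusD d)).prod = ∏ j ∈ s, d j ^ m j := by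
    intro s
    induction s using Finset.induction_on with
    | empty => exact ⟨[], by simp, fun d _ => by simp⟩
    | insert a s ha ih =>
      obtain ⟨l, hl, h⟩ := ih
      refine ⟨List.replicate (m a).natAbs (if 0 ≤ m a then Sum.inl a else Sum.inr (Sum.inl a)) ++
        l, ?_, fun d hd => ?_⟩
      · rw [List.length_append, List.length_replicate, hl, Finset.sum_insert ha]
      · rw [List.map_append, List.prod_append, h d hd, Finset.prod_insert ha,
          List.map_replicate, List.prod_replicate]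
        congr 1
        split_ifs with h0
        · have h1 : ((m a).natAbs : ℤ) = m a := Int.natAbs_of_nonneg h0
          show d a ^ (m a).natAbs = _
          rw [← zpow_natCast, h1]
        · have h1 : ((m a).natAbs : ℤ) = -m a := Int.ofNat_natAbs_of_nonpos (by omega)
          show (starRingEnd ℂ (d a)) ^ (m a).natAbs = _
          have h2 : starRingEnd ℂ (d a) = (d a)⁻¹ := by
            rw [Complex.inv_def, Complex.normSq_eq_norm_sq, hd a]
            simp
          rw [h2, ← zpow_natCast, h1, inv_zpow', neg_neg]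
  intro N hN
  obtain ⟨l, hl, h⟩ := key Finset.univ
  let l' := l ++ List.replicate (N - ∑ j, (m j).natAbs) (Sum.inr (Sum.inr ()))
  have hl' : l'.length = N := by
    rw [List.length_append, List.length_replicate, hl]; omega
  refine ⟨fun a => l'.get (a.cast hl'.symm), fun d hd => ?_⟩
  have h1 : ∏ a : Fin N, plusD d (l'.get (a.cast hl'.symm)) =
      ∏ a : Fin l'.length, plusD d (l'.get a) :=
    Fintype.prod_equiv (finCongr hl'.symm) _ _ fun a => rfl
  have h2 : ∏ a : Fin l'.length, plusD d (l'.get a) = (l'.map (plusD d)).prod :=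
    Fin.prod_univ_fun_getElem l' (plusD d)
  rw [h1, h2, List.map_append, List.prod_append, h d hd, List.map_replicate,
    List.prod_replicate]
  have h3 : plusD d (Sum.inr (Sum.inr ())) = 1 := rfl
  rw [h3, one_pow, mul_one]

end Pool.Agent.Y136
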