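import Pool.Agent.Y136.MG.Almost

/-!
# The Tate conjecture for almost all fibres: the main theorem
-/

open CategoryTheory AlgebraicGeometry Polynomial MeasureTheory Filter Topology

universe u v

namespace Pool.Agent.Y136

open Pool.Agent.H914 Pool.Agent.W534 VarClass Obj WeilCohomology

section Tot

variable {G : Type*} [Group G] {I : Type} [Fintype I] [DecidableEq I] {J : I → Type}
  [∀ i, Fintype (J i)] [∀ i, DecidableEq (J i)]

/-- The sum of the representations. -/
noncomputable def totRep (ρ : ∀ i, G →* Matrix (J i) (J i) ℂ) :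
    G →* Matrix (Σ i, J i) (Σ i, J i) ℂ where
  toFun g := Matrix.blockDiagonal' fun i => ρ i g
  map_one' := by
    simp only [map_one]
    exact Matrix.blockDiagonal'_one
  map_mul' g h := by
    simp only [map_mul]
    exact Matrix.blockDiagonal'_mul _ _

lemma diagonalises_tot {T : Subgroup G} {ρ : ∀ i, G →* Matrix (J i) (J i) ℂ}
    {P P' : ∀ i, Matrix (J i) (J i) ℂ} {lam : ∀ i, J i → G → ℂ}
    (h : ∀ i, Diagonalises T (ρ i) (P i) (P' i) (lam i)) :
    Diagonalises T (totRep ρ) (Matrix.blockDiagonal' P) (Matrix.blockDiagonal' P')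
      (fun x => lam x.1 x.2) where
  inv := by
    rw [← Matrix.blockDiagonal'_mul, ← Matrix.blockDiagonal'_one]
    congr 1
    funext i
    exact (h i).inv
  eq t ht := by
    show Matrix.blockDiagonal' P' * Matrix.blockDiagonal' (fun i => ρ i t) *
      Matrix.blockDiagonal' P = _
    rw [← Matrix.blockDiagonal'_mul, ← Matrix.blockDiagonal'_mul]
    refine Eq.trans ?_ (Matrix.blockDiagonal'_diagonal fun i j => lam i j t)
    congr 1
    funext i
    exact (h i).eq t ht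
  norm t ht x := (h x.1).norm t ht x.2

end Tot

/-- **The Tate conjecture for all products of almost all fibres.** -/
theorem almost_all_fibres {k : Type u} [Field k] {𝒱 : VarClass k} {ops : CycleOps 𝒱}
    (W : WeilCohomology.{u, v} ops) (σ : W.K ≃+* ℂ) (p : ℕ) (hp : p.Prime) (Φ : FrobSystem W p)
    {G : Type*} [Group G] [TopologicalSpace G] [IsTopologicalGroup G] [CompactSpace G]
    [PreconnectedSpace G] [MeasurableSpace G] [BorelSpace G] (μ : Measure G)
    [μ.IsHaarMeasure] [IsProbabilityMeasure μ] (T : Subgroup G) (hT : IsMaximalTorus T)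
    {I : Type} [Fintype I] {J : I → Type} [∀ i, Fintype (J i)] [∀ i, DecidableEq (J i)]
    (deg : ∀ i, J i → ℕ) (ρ : ∀ i, G →* Matrix (J i) (J i) ℂ) (hρ : IsGradedRep deg ρ)
    (D : ℕ) (hD : 0 < D) {S : Type*} [MeasurableSpace S] [DiscreteMeasurableSpace S]
    (m : S → ℕ) (θ : S → G) (X : S → I → 𝒱.Obj) (fr : ∀ s i, X s i ⟶ X s i)
    (b : ∀ s i, Module.Basis (J i) W.K (W.H (X s i)))
    (hX : ∀ s, IsFibre Φ σ deg ρ D (m s) (θ s) (X s) (fr s) (b s))
    {ι : Type*} (l : Filter ι) (ν : ι → Measure S) [∀ i, IsProbabilityMeasure (ν i)]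
    (heq : ∀ f : C(G, ℝ), (∀ g h, f (h * g * h⁻¹) = f g) →
      Tendsto (fun i => ∫ s, f (θ s) ∂(ν i)) l (𝓝 (∫ g, f g ∂μ))) :
    Tendsto (fun i => ν i {s | ¬ ∀ Z, IsProductOf (Set.range (X s)) Z →
      ∀ n, SemisimpleTateIn Φ Z n}) l (𝓝 0) := by
  classical
  have hcomm : ∀ t ∈ T, ∀ t' ∈ T, t * t' = t' * t := fun t ht t' ht' =>
    (hT.mem_iff t).mp ht t' ht'
  choose P P' lam deg' hdiag hhom using fun i =>
    exists_diagonalises T hcomm (ρ i) (hρ.unitary i) (deg i) (hρ.graded i)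
  have hTD : TorusData T deg ρ P P' lam deg' :=
    ⟨hdiag, hhom, fun g hg => (hT.mem_iff g).mpr hg⟩
  have hpre : PreconnectedSpace T := Subtype.preconnectedSpace hT.preconnected
  have hRc : Continuous (totRep ρ) := by
    have h1 : Continuous fun g => Matrix.blockDiagonal' fun i => ρ i g :=
      Continuous.matrix_blockDiagonal' (continuous_pi fun i => hρ.continuous i)
    exact h1
  obtain ⟨Q, hQ1, hQ2, hQ3⟩ := (diagonalises_tot hdiag).exists_badPoly hRc
    (Fintype.card (Σ i, J i)) D (fun x => deg' x.1 x.2)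
  have hnull := null_zeros (plusR (totRep ρ)) μ (continuous_plusR hRc) Q hQ1
  have hlim := density_zero μ θ l ν heq
    ⟨fun g => evAt (plusR (totRep ρ)) g Q, continuous_evAt _ (continuous_plusR hRc) Q⟩
    hQ2 hnull
  refine tendsto_of_tendsto_of_tendsto_of_le_of_le tendsto_const_nhds hlim
    (fun i => zero_le) (fun i => measure_mono fun s hs => ?_)
  by_contra hne
  apply hs
  intro Z hZ n
  obtain ⟨w, rfl⟩ := exists_word_of_product hZ
  obtain ⟨h, hh⟩ := hT.conj (θ s)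
  have hTs := hTD.conj hρ h
  have hθs : θ s ∈ T.comap (MulAut.conj h).toMonoidHom := hh
  refine semisimpleTate_of_generic hp.one_lt hρ (hX s) hTs hθs ?_ w n
  intro mm hmm
  by_contra hcon
  push Not at hcon
  obtain ⟨t', ht', hne'⟩ := hcon
  have hWS := isWeilSystem hp.one_lt hD hρ (hX s) hTs hθs
  apply hne
  show evAt (plusR (totRep ρ)) (θ s) Q = 0
  rw [← hQ2 (θ s) h]
  refine hQ3 _ hh _ _ hWS ?_ ⟨mm, ⟨h * t' * h⁻¹, ht', hne'⟩, hmm⟩
  rintro ⟨i, j⟩
  have h1 : σ (rtq σ (p ^ m s) ^ deg' i j * σ.symm (lam i j (h * θ s * h⁻¹))) ^ 2 =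
      ((p ^ m s : ℕ) : ℂ) ^ deg' i j * lam i j (h * θ s * h⁻¹) ^ 2 := by
    rw [map_mul, RingEquiv.apply_symm_apply, mul_pow, map_pow, ← pow_mul, mul_comm _ 2, pow_mul,
      ← map_pow σ (rtq σ (p ^ m s)), rtq_sq, map_natCast]
  show lam i j (h * θ s * h⁻¹) ^ 2 =
    σ (rtq σ (p ^ m s) ^ deg' i j * σ.symm (lam i j (h * θ s * h⁻¹))) ^ 2 /
      ((p ^ m s : ℕ) : ℂ) ^ deg' i j
  have h2 : ((p ^ m s : ℕ) : ℂ) ^ deg' i j ≠ 0 := hWS.q_ne |> pow_ne_zero _
  rw [h1, mul_div_cancel_left₀ _ h2]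

end Pool.Agent.Y136
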