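import Pool.Agent.Y136.MG.Det2
import Pool.Agent.H914R2.DDefs

/-!
# The Tate conjecture for almost all fibres
-/

open CategoryTheory AlgebraicGeometry Polynomial MeasureTheory Filter Topology

universe u v

namespace Pool.Agent.Y136

open Pool.Agent.H914 Pool.Agent.W534 VarClass Obj WeilCohomology

/-- If two commuting operators differ by a nilpotent one, then each eigenvalue of the one on a
stable subspace is an eigenvalue of the other. -/
lemma exists_eigen_of_nilpotent {F V : Type*} [Field F] [AddCommGroup V] [Module F V]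
    {A B : Module.End F V} (hc : Commute A B) (hn : IsNilpotent (A - B)) {c : F} {x : V}
    (hx : A x = c • x) (hx0 : x ≠ 0) (M : Submodule F V) (hB : ∀ y ∈ M, B y ∈ M) (hxM : x ∈ M) :
    ∃ y ∈ M, y ≠ 0 ∧ B y = c • y := by
  classical
  have h1 : ((A - algebraMap F (Module.End F V) c) ^ 1) x = 0 := by
    rw [pow_one, LinearMap.sub_apply, hx, Module.algebraMap_end_apply, sub_self]
  have h2 : ∃ N : ℕ, ((B - algebraMap F (Module.End F V) c) ^ N) x = 0 := pow_sub_apply_eq_zero hc hn h1
  have h3 := Nat.find_spec h2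
  have hpos : 0 < Nat.find h2 := by
    rw [Nat.pos_iff_ne_zero]
    intro h0
    rw [h0, pow_zero, Module.End.one_apply] at h3
    exact hx0 h3
  have hM : ∀ (n : ℕ), ((B - algebraMap F (Module.End F V) c) ^ n) x ∈ M := by
    intro n
    induction n with
    | zero => simpa using hxM
    | succ n ih =>
      rw [pow_succ', Module.End.mul_apply, LinearMap.sub_apply, Module.algebraMap_end_apply]
      exact Submodule.sub_mem _ (hB _ ih) (Submodule.smul_mem _ _ ih)
  refine ⟨((B - algebraMap F (Module.End F V) c) ^ (Nat.find h2 - 1)) x, hM _, ?_, ?_⟩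
  · exact Nat.find_min h2 (by omega)
  · have h4 : (B - algebraMap F (Module.End F V) c) (((B - algebraMap F (Module.End F V) c) ^
        (Nat.find h2 - 1)) x) = 0 := by
      rw [← Module.End.mul_apply, ← pow_succ', Nat.sub_add_cancel hpos, h3]
    rw [LinearMap.sub_apply, Module.algebraMap_end_apply] at h4
    exact sub_eq_zero.mp h4

variable {k : Type u} [Field k] {𝒱 : VarClass k} {ops : CycleOps 𝒱}
  {W : WeilCohomology.{u, v} ops}

lemma exists_word_of_product {I : Type} {X : I → 𝒱.Obj} {Z : 𝒱.Obj}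
    (h : IsProductOf (Set.range X) Z) : ∃ w : FreeMagma I, Z = wordObj X w := by
  induction h with
  | base h =>
    obtain ⟨i, rfl⟩ := h
    exact ⟨.of i, rfl⟩
  | prod _ _ h₁ h₂ =>
    obtain ⟨v, rfl⟩ := h₁
    obtain ⟨w, rfl⟩ := h₂
    exact ⟨v * w, rfl⟩

section

variable {p : ℕ} {Φ : FrobSystem W p} {σ : W.K ≃+* ℂ} {G : Type*} [Group G]
  [TopologicalSpace G] {I : Type} {J : I → Type}
  [∀ i, Fintype (J i)] [∀ i, DecidableEq (J i)] {deg : ∀ i, J i → ℕ}
  {ρ : ∀ i, G →* Matrix (J i) (J i) ℂ} {D m : ℕ} {θ : G} {X : I → 𝒱.Obj}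
  {fr : ∀ i, X i ⟶ X i} {b : ∀ i, Module.Basis (J i) W.K (W.H (X i))}
  {T : Subgroup G} {P P' : ∀ i, Matrix (J i) (J i) ℂ}
  {lam : ∀ i, J i → G → ℂ} {deg' : ∀ i, J i → ℕ}

/-- The conjugate of a torus by an element of the group. -/
lemma TorusData.conj (hρ : IsGradedRep deg ρ) (hT : TorusData T deg ρ P P' lam deg') (h : G) :
    TorusData (T.comap (MulAut.conj h).toMonoidHom) deg ρ (fun i => ρ i h⁻¹ * P i)
      (fun i => P' i * ρ i h) (fun i j x => lam i j (h * x * h⁻¹)) deg' where
  diag i :=
    { inv := by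
        rw [mul_assoc, ← mul_assoc (ρ i h), ← map_mul, mul_inv_cancel, map_one, one_mul,
          (hT.diag i).inv]
      eq := by
        intro t ht
        have ht' : h * t * h⁻¹ ∈ T := ht
        rw [← (hT.diag i).eq _ ht', map_mul, map_mul]
        simp only [mul_assoc]
      norm := fun t ht j => (hT.diag i).norm _ ht j }
  homog i l j hne := by
    rw [Matrix.mul_apply] at hne
    obtain ⟨l', -, hl'⟩ := Finset.exists_ne_zero_of_sum_ne_zero hne
    have h1 : deg i l = deg i l' := by
      by_contra hcon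
      exact hl' (by rw [hρ.graded i _ _ _ hcon, zero_mul])
    rw [h1]
    exact hT.homog i l' j (right_ne_zero_of_mul hl')
  central g hg := by
    show h * g * h⁻¹ ∈ T
    refine hT.central _ fun t ht => ?_
    have h1 := hg (h⁻¹ * t * h) (by
      show h * (h⁻¹ * t * h) * h⁻¹ ∈ T
      have : h * (h⁻¹ * t * h) * h⁻¹ = t := by group
      rw [this]; exact ht)
    calc h * g * h⁻¹ * t = h * (g * (h⁻¹ * t * h)) * h⁻¹ := by group
      _ = h * ((h⁻¹ * t * h) * g) * h⁻¹ := by rw [h1]
      _ = t * (h * g * h⁻¹) := by group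

variable [Fintype I]

/-- The eigenvalues of the Frobenius endomorphisms form a system of Weil numbers. -/
lemma isWeilSystem (hp : 1 < p) (hD : 0 < D) (hρ : IsGradedRep deg ρ)
    (hX : IsFibre Φ σ deg ρ D m θ X fr b) (hT : TorusData T deg ρ P P' lam deg')
    (hθ : θ ∈ T) : IsWeilSystem (Fintype.card (Σ i, J i)) D (p ^ m) (fun x : Σ i, J i => deg' x.1 x.2)
      (fun x => σ (rtq σ (p ^ m) ^ deg' x.1 x.2 * σ.symm (lam x.1 x.2 θ))) := by
  classical
  have hchar : CharZero W.K := W.charZero
  have hvec0 : ∀ i j, vec σ b P i j ≠ 0 := by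
    intro i j h0
    have h1 : matOp σ (b i) (P' i) (vec σ b P i j) = b i j := by
      rw [vec, ← Module.End.mul_apply, ← matOp_mul, (hT.diag i).inv, matOp_one,
        Module.End.one_apply]
    rw [h0, map_zero] at h1
    exact (b i).ne_zero j h1.symm
  -- eigenvectors of the Frobenius endomorphism
  have heig : ∀ i j, ∃ y ∈ W.gr (X i) (deg' i j), y ≠ 0 ∧ (W.map (fr i)).toLinearMap y =
      (rtq σ (p ^ m) ^ deg' i j * σ.symm (lam i j θ)) • y := by
    intro i j
    refine exists_eigen_of_nilpotent (hX.commute i).symm ?_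
      (frob_vec hX.homogeneous hT (p ^ m) i j hθ) (hvec0 i j) (W.gr (X i) (deg' i j))
      (fun y hy => W.map_mem (fr i) hy) (vec_mem hT hX.homogeneous i j)
    have := (hX.nilpotent i).neg
    rwa [neg_sub] at this
  refine ⟨Nat.one_lt_pow hX.pos.ne' hp, hD, ?_, ?_⟩
  · rintro ⟨i, j⟩
    obtain ⟨h, hh⟩ := hX.integral i (deg' i j)
    have hstab : ∀ x ∈ W.gr (X i) (deg' i j), (W.map (fr i)).toLinearMap x ∈
        W.gr (X i) (deg' i j) := fun x hx => W.map_mem (fr i) hx
    have hcp : charpolyOn (W.map (fr i)).toLinearMap (W.gr (X i) (deg' i j)) =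
        ((W.map (fr i)).toLinearMap.restrict hstab).charpoly := dif_pos hstab
    have hinj : Function.Injective (Int.castRingHom W.K) := Int.cast_injective
    have hmon : (h.map (Int.castRingHom W.K)).Monic := by
      rw [← hh, hcp]; exact LinearMap.charpoly_monic _
    have hroot : ∀ z : ℂ, aeval z h = 0 → (h.map (Int.castRingHom W.K)).IsRoot (σ.symm z) := by
      intro z hz
      have h1 : aeval (σ.symm z) h = 0 := by
        have := hom_aeval_int σ.symm.toRingHom z h
        rw [hz, map_zero] at this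
        exact this.symm
      rw [IsRoot, Polynomial.eval_map]
      exact h1
    refine ⟨h, Polynomial.monic_of_injective hinj hmon, ?_, ?_, ?_⟩
    · rw [← Polynomial.natDegree_map_eq_of_injective hinj, ← hh, hcp,
        LinearMap.charpoly_natDegree]
      calc Module.finrank W.K (W.gr (X i) (deg' i j)) ≤ Module.finrank W.K (W.H (X i)) :=
            Submodule.finrank_le _
        _ = Fintype.card (J i) := Module.finrank_eq_card_basis (b i)
        _ ≤ Fintype.card (Σ i, J i) :=
            Fintype.card_le_of_injective (fun j => (⟨i, j⟩ : Σ i, J i)) fun a c hac => by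
              simpa using hac
    · obtain ⟨y, hy, hy0, hye⟩ := heig i j
      have h1 : (h.map (Int.castRingHom W.K)).IsRoot
          (rtq σ (p ^ m) ^ deg' i j * σ.symm (lam i j θ)) := by
        rw [← hh, hcp]
        refine Module.End.hasEigenvalue_iff_isRoot_charpoly _ _ |>.mp ?_
        refine Module.End.hasEigenvalue_of_hasEigenvector (x := ⟨y, hy⟩)
          ⟨Module.End.mem_eigenspace_iff.mpr (Subtype.ext hye), fun h0 => hy0 ?_⟩
        exact congrArg Subtype.val h0
      rw [IsRoot, Polynomial.eval_map] at h1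
      have h2 : aeval (rtq σ (p ^ m) ^ deg' i j * σ.symm (lam i j θ)) h = 0 := h1
      have h3 := hom_aeval_int σ.toRingHom (rtq σ (p ^ m) ^ deg' i j * σ.symm (lam i j θ)) h
      rw [h2, map_zero] at h3
      exact h3.symm
    · intro z hz
      have h1 := hroot z hz
      rw [← hh, hcp, ← Module.End.hasEigenvalue_iff_isRoot_charpoly] at h1
      obtain ⟨⟨x, hx⟩, hxe, hx0⟩ := h1.exists_hasEigenvector
      have hxe' : (W.map (fr i)).toLinearMap x = σ.symm z • x :=
        congrArg Subtype.val (Module.End.mem_eigenspace_iff.mp hxe)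
      have hx0' : x ≠ 0 := fun h0 => hx0 (Subtype.ext h0)
      have hdegS : ∀ y ∈ W.gr (X i) (deg' i j),
          matOp σ (b i) (frobMat (p ^ m) (deg i) (ρ i θ)) y ∈ W.gr (X i) (deg' i j) := by
        intro y hy
        rw [frobMat_eq, Module.End.mul_apply, scl_apply hX.homogeneous _ i _ y hy, map_smul]
        exact Submodule.smul_mem _ _ (act_degZero hρ hX.homogeneous i θ _ y hy)
      obtain ⟨y, hy, hy0, hye⟩ := exists_eigen_of_nilpotent (hX.commute i) (hX.nilpotent i)
        hxe' hx0' (W.gr (X i) (deg' i j)) hdegS hx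
      -- the normalised operator is unitary
      rw [frobMat_eq, Module.End.mul_apply, scl_apply hX.homogeneous _ i _ y hy, map_smul] at hye
      set r := rtq σ (p ^ m) ^ deg' i j with hr
      have hr0 : r ≠ 0 := by
        have h2 : rtq σ (p ^ m) ^ 2 = ((p ^ m : ℕ) : W.K) := rtq_sq σ _
        have h3 : rtq σ (p ^ m) ≠ 0 := by
          intro h0
          rw [h0, zero_pow two_ne_zero] at h2
          exact (pow_pos (by omega : 0 < p) m).ne' (by exact_mod_cast h2.symm)
        exact pow_ne_zero _ h3
      have hye' : matOp σ (b i) (ρ i θ) y = (σ.symm z / r) • y := by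
        have h2 : matOp σ (b i) (ρ i θ) y = r⁻¹ • (r • matOp σ (b i) (ρ i θ) y) := by
          rw [smul_smul, inv_mul_cancel₀ hr0, one_smul]
        rw [h2, hye, smul_smul, div_eq_mul_inv, mul_comm]
      have hcoord : Matrix.mulVec (ρ i θ) (fun l => σ ((b i).repr y l)) =
          (σ (σ.symm z / r)) • fun l => σ ((b i).repr y l) := by
        funext l
        have h2 := congrArg (fun x => σ ((b i).repr x l)) hye'
        simp only [map_smul, Finsupp.smul_apply, smul_eq_mul, map_mul] at h2
        rw [Pi.smul_apply, smul_eq_mul, ← h2, Matrix.mulVec, dotProduct]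
        conv_rhs => rw [← (b i).sum_repr y]
        simp only [map_sum, map_smul, Finsupp.coe_finsetSum, Finset.sum_apply,
          Finsupp.smul_apply, smul_eq_mul, map_mul]
        refine Finset.sum_congr rfl fun l' _ => ?_
        have h3 := coord_matOp (σ := σ) (b := b i) (ρ i θ) l l'
        rw [Module.Basis.coord_apply] at h3
        rw [← h3, mul_comm]
      have hvne : (fun l => σ ((b i).repr y l)) ≠ 0 := by
        intro h0
        apply hy0
        refine (b i).ext_elem fun l => ?_
        have h2 := congrFun h0 l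
        rw [map_zero, Finsupp.zero_apply]
        exact (map_eq_zero_iff σ σ.injective).mp h2
      have h4 := norm_eigen (hρ.unitary i θ) hvne hcoord
      rw [map_div₀, RingEquiv.apply_symm_apply, norm_div] at h4
      have h5 : ‖σ r‖ = Real.sqrt ((p ^ m : ℕ) : ℝ) ^ deg' i j := by
        rw [hr, map_pow, rtq, RingEquiv.apply_symm_apply, norm_pow, Complex.norm_real,
          Real.norm_of_nonneg (Real.sqrt_nonneg _)]
      have h6 : ‖σ r‖ ≠ 0 := norm_ne_zero_iff.mpr fun h0 => hr0 ((map_eq_zero_iff σ σ.injective).mp h0)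
      rw [div_eq_one_iff_eq h6] at h4
      rw [h4, h5, ← pow_mul, mul_comm, pow_mul, Real.sq_sqrt (Nat.cast_nonneg _)]
  · rintro v ⟨i, j⟩
    obtain ⟨y, hy, hy0, hye⟩ := heig i j
    obtain ⟨u, hu1, hu2⟩ := hX.slopes i _ (Module.End.hasEigenvalue_of_hasEigenvector
      (x := y) ⟨Module.End.mem_eigenspace_iff.mpr hye, hy0⟩) (v.comap σ.toRingHom)
    refine ⟨u, ?_, ?_⟩
    · have h1 := ValuationSubring.mem_comap.mp hu1
      have h2 : σ.toRingHom ((rtq σ (p ^ m) ^ deg' i j * σ.symm (lam i j θ)) ^ D /
          ((p : W.K) ^ m) ^ u) = σ (rtq σ (p ^ m) ^ deg' i j * σ.symm (lam i j θ)) ^ D /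
          ((p ^ m : ℕ) : ℂ) ^ u := by
        show σ _ = _
        rw [map_div₀, map_pow, map_zpow₀, map_pow, map_natCast]
        push_cast
        rfl
      rw [← h2]
      exact h1
    · have h1 := ValuationSubring.mem_comap.mp hu2
      have h2 : σ.toRingHom (((p : W.K) ^ m) ^ u /
          (rtq σ (p ^ m) ^ deg' i j * σ.symm (lam i j θ)) ^ D) = ((p ^ m : ℕ) : ℂ) ^ u /
          σ (rtq σ (p ^ m) ^ deg' i j * σ.symm (lam i j θ)) ^ D := by
        show σ _ = _
        rw [map_div₀, map_pow, map_zpow₀, map_pow, map_natCast]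
        push_cast
        rfl
      rw [← h2]
      exact h1

end

end Pool.Agent.Y136
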