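import Mathlib

/-!
# Averaging over a compact group: vectors fixed by the stabiliser of given vectors

Let `G` be a compact group with finite-dimensional continuous representations `U i` over a field
`F` isomorphic to the complex numbers, let `e i` be vectors of `U i` such that the complex conjugates
of the coordinate functions of the orbit maps are again coordinate functions, and let `w` be a
vector of a further representation `W` fixed by the stabiliser of the vectors `e i`. Then `w` is a
linear combination of values, at the vectors `e i`, of equivariant multilinear maps into `W`.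
-/

open MeasureTheory Module

namespace Pool.Agent.Y136

section Defs

variable {F : Type*} [Field F] (σ : F ≃+* ℂ) {G : Type*} [Group G] [TopologicalSpace G]

/-- The representation `τ` is continuous: its matrix coefficients are continuous. -/
def ContRep {U : Type*} [AddCommGroup U] [Module F U] (τ : Representation F G U) : Prop :=
  ∀ (L : Dual F U) (u : U), Continuous fun g => σ (L (τ g u))

end Defs

section Avg

variable {F : Type*} [Field F] (σ : F ≃+* ℂ) {G : Type*} [Group G] [TopologicalSpace G]
  [IsTopologicalGroup G] [CompactSpace G] [MeasurableSpace G] [BorelSpace G] (μ : Measure G)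

/-- The mean value of a function with values in `F`. -/
noncomputable def avg (h : G → F) : F := σ.symm (∫ g, σ (h g) ∂μ)

variable {σ μ}

omit [IsTopologicalGroup G] in
lemma integrable_of_cont [IsFiniteMeasure μ] {h : G → ℂ} (hh : Continuous h) : Integrable h μ :=
  hh.integrable_of_hasCompactSupport (HasCompactSupport.of_compactSpace h)

omit [Group G] [IsTopologicalGroup G] in
lemma avg_add [IsFiniteMeasure μ] {h h' : G → F} (hh : Continuous fun g => σ (h g))
    (hh' : Continuous fun g => σ (h' g)) :
    avg σ μ (fun g => h g + h' g) = avg σ μ h + avg σ μ h' := by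
  unfold avg
  rw [← map_add, ← integral_add]
  · simp only [map_add]
  · exact hh.integrable_of_hasCompactSupport (HasCompactSupport.of_compactSpace _)
  · exact hh'.integrable_of_hasCompactSupport (HasCompactSupport.of_compactSpace _)

omit [Group G] [IsTopologicalGroup G] [CompactSpace G] [BorelSpace G] [TopologicalSpace G] in
lemma avg_mul (c : F) (h : G → F) : avg σ μ (fun g => c * h g) = c * avg σ μ h := by
  unfold avg
  simp only [map_mul]
  rw [integral_const_mul, map_mul, RingEquiv.symm_apply_apply]

omit [Group G] [IsTopologicalGroup G] in
lemma avg_sum [IsFiniteMeasure μ] {ι : Type*} (s : Finset ι) {h : ι → G → F}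
    (hh : ∀ i ∈ s, Continuous fun g => σ (h i g)) :
    avg σ μ (fun g => ∑ i ∈ s, h i g) = ∑ i ∈ s, avg σ μ (h i) := by
  unfold avg
  rw [← map_sum, ← integral_finsetSum]
  · simp only [map_sum]
  · intro i hi
    exact (hh i hi).integrable_of_hasCompactSupport (HasCompactSupport.of_compactSpace _)

lemma avg_translate [μ.IsMulLeftInvariant] (h : G → F) (a : G) :
    avg σ μ (fun g => h (a * g)) = avg σ μ h := by
  unfold avg
  rw [integral_mul_left_eq_self (fun g => σ (h g)) a]

variable {W : Type*} [AddCommGroup W] [Module F W] [FiniteDimensional F W]

variable (σ μ) in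
/-- The mean value of a function with values in a finite-dimensional space. -/
noncomputable def vavg (y : G → W) : W :=
  ∑ j, avg σ μ (fun g => (finBasis F W).coord j (y g)) • finBasis F W j

omit [Group G] [IsTopologicalGroup G] in
lemma dual_vavg [IsFiniteMeasure μ] {y : G → W}
    (hy : ∀ M : Dual F W, Continuous fun g => σ (M (y g))) (M : Dual F W) :
    M (vavg σ μ y) = avg σ μ (fun g => M (y g)) := by
  have h1 : ∀ g, M (y g) = ∑ j, M (finBasis F W j) * (finBasis F W).coord j (y g) := by
    intro g
    conv_lhs => rw [← (finBasis F W).sum_repr (y g)]
    rw [map_sum]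
    refine Finset.sum_congr rfl fun j _ => ?_
    rw [map_smul, smul_eq_mul, mul_comm, Basis.coord_apply]
  unfold vavg
  rw [map_sum]
  simp only [h1]
  rw [avg_sum]
  · refine Finset.sum_congr rfl fun j _ => ?_
    rw [map_smul, smul_eq_mul, avg_mul, mul_comm]
  · intro j _
    simp only [map_mul]
    exact continuous_const.mul (hy _)

lemma ext_dual {a b : W} (h : ∀ M : Dual F W, M a = M b) : a = b := by
  rw [← sub_eq_zero, ← Module.forall_dual_apply_eq_zero_iff F]
  intro φ
  rw [map_sub, h φ, sub_self]

end Avg

end Pool.Agent.Y136
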