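import Pool.Agent.Y136.MG.Torus

/-!
# The exceptional set of a torus
-/

open Polynomial

namespace Pool.Agent.Y136

variable {J : Type*} [Fintype J] [DecidableEq J] {G : Type*} [Group G]

/-- The matrices `P`, `P'` simultaneously diagonalise the matrices `R t`, `t ∈ T`, and the
diagonal entries `lam j t` have absolute value one. -/
structure Diagonalises (T : Subgroup G) (R : G →* Matrix J J ℂ) (P P' : Matrix J J ℂ)
    (lam : J → G → ℂ) : Prop where
  inv : P' * P = 1
  eq : ∀ t ∈ T, P' * R t * P = Matrix.diagonal fun j => lam j t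
  norm : ∀ t ∈ T, ∀ j, ‖lam j t‖ = 1

namespace Diagonalises

variable {T : Subgroup G} {R : G →* Matrix J J ℂ} {P P' : Matrix J J ℂ} {lam : J → G → ℂ}

lemma inv' (h : Diagonalises T R P P' lam) : P * P' = 1 := mul_eq_one_comm.mp h.inv

lemma eq' (h : Diagonalises T R P P' lam) {t : G} (ht : t ∈ T) :
    R t = P * Matrix.diagonal (fun j => lam j t) * P' := by
  rw [← h.eq t ht]
  calc R t = (P * P') * R t * (P * P') := by rw [h.inv', one_mul, mul_one]
    _ = P * (P' * R t * P) * P' := by simp only [mul_assoc]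

lemma lam_mul (h : Diagonalises T R P P' lam) {t t' : G} (ht : t ∈ T) (ht' : t' ∈ T) (j : J) :
    lam j (t * t') = lam j t * lam j t' := by
  have h1 := h.eq (t * t') (T.mul_mem ht ht')
  have h2 : P' * R (t * t') * P =
      Matrix.diagonal (fun j => lam j t) * Matrix.diagonal (fun j => lam j t') := by
    rw [← h.eq t ht, ← h.eq t' ht', map_mul]
    calc P' * (R t * R t') * P = P' * R t * 1 * R t' * P := by simp only [mul_assoc, one_mul]
      _ = P' * R t * (P * P') * R t' * P := by rw [h.inv']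
      _ = P' * R t * P * (P' * R t' * P) := by simp only [mul_assoc]
  rw [h1, Matrix.diagonal_mul_diagonal] at h2
  have := congrFun (congrFun h2 j) j
  simpa using this

lemma lam_one (h : Diagonalises T R P P' lam) (j : J) : lam j 1 = 1 := by
  have h1 := h.eq 1 T.one_mem
  rw [map_one, mul_one, h.inv] at h1
  have := congrFun (congrFun h1 j) j
  simpa using this.symm

omit [Fintype J] [DecidableEq J] in
lemma plusD_mul (d d' : J → ℂ) (y : J ⊕ (J ⊕ Unit)) :
    plusD (fun j => d j * d' j) y = plusD d y * plusD d' y := by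
  rcases y with j | j | _ <;> simp [plusD]

omit [Fintype J] [DecidableEq J] in
lemma plusD_one (y : J ⊕ (J ⊕ Unit)) : plusD (fun _ : J => (1 : ℂ)) y = 1 := by
  rcases y with j | j | _ <;> simp [plusD]

/-- The character of `T` given by a word. -/
noncomputable def chi (h : Diagonalises T R P P' lam) {N : ℕ} (x : Fin N → J ⊕ (J ⊕ Unit)) :
    T →* ℂ where
  toFun t := ∏ a, plusD (fun j => lam j t) (x a)
  map_one' := by
    refine Finset.prod_eq_one fun a _ => ?_
    have h1 : (fun j => lam j ((1 : T) : G)) = fun _ => 1 := funext fun j => h.lam_one j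
    rw [h1, plusD_one]
  map_mul' t t' := by
    rw [← Finset.prod_mul_distrib]
    refine Finset.prod_congr rfl fun a _ => ?_
    rw [← plusD_mul]
    congr 1
    exact funext fun j => h.lam_mul t.2 t'.2 j

variable [TopologicalSpace G]

lemma continuous_lam (h : Diagonalises T R P P' lam) (hR : Continuous R) (j : J) :
    Continuous fun t : T => lam j t := by
  have h1 : (fun t : T => lam j t) = fun t : T => (P' * R t * P) j j := by
    funext t
    rw [h.eq t t.2, Matrix.diagonal_apply_eq]
  rw [h1]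
  exact (((continuous_const.matrix_mul (hR.comp continuous_subtype_val)).matrix_mul
    continuous_const).matrix_elem j j)

lemma continuous_chi (h : Diagonalises T R P P' lam) (hR : Continuous R) {N : ℕ}
    (x : Fin N → J ⊕ (J ⊕ Unit)) : Continuous (h.chi x) := by
  have h1 : Continuous fun t : T => ∏ a, plusD (fun j => lam j t) (x a) := by
    refine continuous_finsetProd _ fun a _ => ?_
    rcases x a with j | j | _
    · exact h.continuous_lam hR j
    · exact Complex.continuous_conj.comp (h.continuous_lam hR j)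
    · exact continuous_const
  exact h1

variable [IsTopologicalGroup G]

/-- There is a class polynomial which vanishes at the elements of the torus satisfying a
multiplicative relation which does not hold on the torus. -/
theorem exists_badPoly (h : Diagonalises T R P P' lam) (hR : Continuous R)
    [PreconnectedSpace T] (n₀ D : ℕ) (deg : J → ℕ) :
    ∃ Q : MvPolynomial ((J ⊕ (J ⊕ Unit)) × (J ⊕ (J ⊕ Unit))) ℂ,
      (∃ g, evAt (plusR R) g Q ≠ 0) ∧
      (∀ g k, evAt (plusR R) (k * g * k⁻¹) Q = evAt (plusR R) g Q) ∧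
      ∀ t ∈ T, ∀ (q : ℕ) (α : J → ℂ), IsWeilSystem n₀ D q deg α →
        (∀ j, lam j t ^ 2 = α j ^ 2 / (q : ℂ) ^ deg j) →
        (∃ m : J → ℤ, (∃ t' ∈ T, ∏ j, lam j t' ^ m j ≠ 1) ∧
          ∃ n : ℕ, 0 < n ∧ (∏ j, lam j t ^ m j) ^ n = 1) → evAt (plusR R) t Q = 0 := by
  classical
  obtain ⟨A, N, hN, hA, hA'⟩ := exists_tests J n₀ D deg
    fun m => ∀ t' ∈ T, ∏ j, lam j t' ^ m j = 1
  let N₁ := ∑ m ∈ A, ∑ j, (m j).natAbs
  let M := 2 * N
  let Z : Finset (Fin N₁ → J ⊕ (J ⊕ Unit)) := Finset.univ.filter fun x => ∀ t : T, h.chi x t = 1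
  let Q : MvPolynomial ((J ⊕ (J ⊕ Unit)) × (J ⊕ (J ⊕ Unit))) ℂ :=
    clp N₁ M Z.card (Matrix.of fun i j => MvPolynomial.X (i, j))
  have hQ : ∀ g, evAt (plusR R) g Q = clp N₁ M Z.card (plusM (R g)) := by
    intro g
    rw [clp_map]
    congr 1
    ext i j
    simp [evAt]
    rfl
  have hT : ∀ t : T, evAt (plusR R) t Q = ∏ x ∈ Finset.univ \ Z, (1 - (h.chi x t) ^ M) := by
    intro t
    have h1 : plusM P' * plusM P = 1 := by rw [← plusM_mul, h.inv, plusM_one]
    rw [hQ, h.eq' t.2, plusM_mul, plusM_mul, clp_conj h1, plusM_diagonal, clp_diagonal]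
    · rfl
    · intro x hx
      have h2 : h.chi x t = 1 := (Finset.mem_filter.mp hx).2 t
      have h3 : (∏ a, plusD (fun j => lam j t) (x a)) = 1 := h2
      rw [h3, one_pow]
  refine ⟨Q, ?_, ?_, ?_⟩
  · obtain ⟨t, ht⟩ := exists_generic (Y := {x // x ∉ Z}) (fun x => h.chi x.1)
      (fun x => h.continuous_chi hR x.1) (by
        intro x
        by_contra hcon
        push Not at hcon
        exact x.2 (Finset.mem_filter.mpr ⟨Finset.mem_univ _, hcon⟩)) (M := M) (by omega)
    refine ⟨t, ?_⟩
    rw [hT, Finset.prod_ne_zero_iff]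
    intro x hx
    have h2 := ht ⟨x, (Finset.mem_sdiff.mp hx).2⟩
    exact sub_ne_zero.mpr (Ne.symm h2)
  · intro g k
    have h1 : plusM (R k⁻¹) * plusM (R k) = 1 := by
      rw [← plusM_mul, ← map_mul, inv_mul_cancel, map_one, plusM_one]
    rw [hQ, hQ, map_mul, map_mul, plusM_mul, plusM_mul, clp_conj h1]
  · intro t ht q α hα hlam hex
    have hgam : ∀ m : J → ℤ, IsWeilSystem.gam q deg α m = (∏ j, lam j t ^ m j) ^ 2 := by
      intro m
      unfold IsWeilSystem.gam
      rw [← Finset.prod_pow]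
      refine Finset.prod_congr rfl fun j _ => ?_
      rw [← hlam j, ← zpow_natCast (lam j t), ← zpow_natCast (lam j t ^ m j), ← zpow_mul,
        ← zpow_mul, mul_comm]
    obtain ⟨m, ⟨t', ht', hm⟩, n, hn, hmn⟩ := hex
    obtain ⟨m', hm'A, hm'⟩ := hA' q α hα ⟨m, fun hcon => hm (hcon t' ht'), n, hn, by
      rw [hgam, ← pow_mul, mul_comm, pow_mul, hmn, one_pow]⟩
    obtain ⟨x, hx⟩ := exists_word m' N₁
      (Finset.single_le_sum (f := fun m : J → ℤ => ∑ j, (m j).natAbs)
        (fun _ _ => Nat.zero_le _) hm'A)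
    have hxZ : x ∉ Z := by
      intro hcon
      refine hA m' hm'A fun t'' ht'' => ?_
      rw [← hx (fun j => lam j t'') (h.norm t'' ht'')]
      exact (Finset.mem_filter.mp hcon).2 ⟨t'', ht''⟩
    have h1 := hT ⟨t, ht⟩
    rw [h1]
    refine Finset.prod_eq_zero (Finset.mem_sdiff.mpr ⟨Finset.mem_univ x, hxZ⟩) ?_
    have h2 : h.chi x ⟨t, ht⟩ = ∏ j, lam j t ^ m' j := hx (fun j => lam j t) (h.norm t ht)
    rw [h2]
    have h3 : (∏ j, lam j t ^ m' j) ^ M = 1 := by
      show (∏ j, lam j t ^ m' j) ^ (2 * N) = 1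
      rw [pow_mul, ← hgam, hm']
    rw [h3, sub_self]

end Diagonalises

end Pool.Agent.Y136
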