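import Pool.Agent.Y136.MG.Words

/-!
# Values of equivariant multilinear maps at endomorphisms of varieties are algebraic
-/

open CategoryTheory AlgebraicGeometry TensorProduct

universe u v

namespace Pool.Agent.Y136

open Pool.Agent.H914 Pool.Agent.W534 VarClass Obj WeilCohomology

variable {k : Type u} [Field k] {𝒱 : VarClass k} {ops : CycleOps 𝒱}
  {W : WeilCohomology.{u, v} ops}

/-- The span of the operators induced by the endomorphisms of a variety. -/
def geomEnd (W : WeilCohomology.{u, v} ops) (X : 𝒱.Obj) :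
    Submodule W.K (Module.End W.K (W.H X)) :=
  Submodule.span W.K (Set.range fun f : X ⟶ X => (W.map f).toLinearMap)

lemma geomEnd_degZero {X : 𝒱.Obj} {E : Module.End W.K (W.H X)} (hE : E ∈ geomEnd W X) :
    DegZero W X E := by
  intro n x hx
  induction hE using Submodule.span_induction with
  | mem E hE =>
    obtain ⟨f, rfl⟩ := hE
    exact W.map_mem f hx
  | zero => exact Submodule.zero_mem _
  | add E E' _ _ h h' => exact Submodule.add_mem _ h h'
  | smul c E _ h => exact Submodule.smul_mem _ _ h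

lemma contr_geomEnd {X Z : 𝒱.Obj} {E : Module.End W.K (W.H X)} (hE : E ∈ geomEnd W X) {n : ℕ}
    {g : W.H ((X.prod X).prod Z)}
    (hg : g ∈ spanCycles W ((X.prod X).prod Z) ((X.dim + n : ℕ) : ℤ)) :
    contr E g ∈ spanCycles W Z (n : ℤ) := by
  induction hE using Submodule.span_induction with
  | mem E hE =>
    obtain ⟨f, rfl⟩ := hE
    exact contr_map_mem f hg
  | zero =>
    have h1 : contr (Z := Z) (0 : Module.End W.K (W.H X)) = 0 := by
      have := contr_smul (Z := Z) (0 : W.K) (0 : Module.End W.K (W.H X))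
      simpa using this
    rw [h1]; exact Submodule.zero_mem _
  | add E E' _ _ h h' => rw [contr_add]; exact Submodule.add_mem _ h h'
  | smul c E _ h => rw [contr_smul]; exact Submodule.smul_mem _ _ h

variable {I : Type} {X : I → 𝒱.Obj} {G : Type*} [Group G]
  (τ : ∀ i, Representation W.K G (W.H (X i)))

/-- The inverse of the bijection given by the contractions. -/
noncomputable def contrInv (Y Z : 𝒱.Obj) :
    (Module.End W.K (W.H Y) →ₗ[W.K] W.H Z) →ₗ[W.K] W.H ((Y.prod Y).prod Z) :=
  (LinearEquiv.ofBijective (contrHom W Y Z) contrHom_bijective).symm.toLinearMap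

lemma contr_contrInv {Y Z : 𝒱.Obj} (F : Module.End W.K (W.H Y) →ₗ[W.K] W.H Z)
    (E : Module.End W.K (W.H Y)) : contr E (contrInv Y Z F) = F E := by
  rw [← contrHom_apply]
  have h1 : contrHom W Y Z (contrInv Y Z F) = F :=
    (LinearEquiv.ofBijective (contrHom W Y Z) contrHom_bijective).apply_symm_apply F
  rw [h1]

lemma contr_ext {Y Z : 𝒱.Obj} {g g' : W.H ((Y.prod Y).prod Z)}
    (h : ∀ E : Module.End W.K (W.H Y), contr E g = contr E g') : g = g' :=
  contrHom_bijective.1 (LinearMap.ext h)

/-- The multilinear map with one variable moved to the target. -/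
noncomputable def moved {m : ℕ} (x : Fin (m + 1) → I) (Z : 𝒱.Obj)
    (Ψ : MultilinearMap W.K (fun a => Module.End W.K (W.H (X (x a)))) (W.H Z)) :
    MultilinearMap W.K (fun a : Fin m => Module.End W.K (W.H (X (x a.succ))))
      (W.H (((X (x 0)).prod (X (x 0))).prod Z)) where
  toFun E := contrInv (X (x 0)) Z
    { toFun := fun E₀ => Ψ.curryLeft E₀ E
      map_add' := fun a b => by rw [map_add]; rfl
      map_smul' := fun c a => by rw [map_smul]; rfl }
  map_update_add' E a A B := by
    refine contr_ext fun E₀ => ?_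
    rw [map_add, contr_contrInv, contr_contrInv, contr_contrInv]
    exact (Ψ.curryLeft E₀).map_update_add E a A B
  map_update_smul' E a c A := by
    refine contr_ext fun E₀ => ?_
    rw [map_smul, contr_contrInv, contr_contrInv]
    exact (Ψ.curryLeft E₀).map_update_smul E a c A

lemma contr_moved {m : ℕ} (x : Fin (m + 1) → I) (Z : 𝒱.Obj)
    (Ψ : MultilinearMap W.K (fun a => Module.End W.K (W.H (X (x a)))) (W.H Z))
    (E₀ : Module.End W.K (W.H (X (x 0))))
    (E : ∀ a : Fin m, Module.End W.K (W.H (X (x a.succ)))) :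
    contr E₀ (moved x Z Ψ E) = Ψ (Fin.cons E₀ E) := contr_contrInv _ _

lemma moved_equivariant (htr : ∀ i g a b, W.tr (X i) (τ i g a * τ i g b) = W.tr (X i) (a * b))
    {m : ℕ} (x : Fin (m + 1) → I) {Z : 𝒱.Obj} (B : G → Module.End W.K (W.H Z))
    (Ψ : MultilinearMap W.K (fun a => Module.End W.K (W.H (X (x a)))) (W.H Z))
    (hΨ : ∀ (g : G) (u : ∀ a, Module.End W.K (W.H (X (x a)))),
      Ψ (fun a => τ (x a) g * u a * τ (x a) g⁻¹) = B g (Ψ u)) (g : G)
    (u : ∀ a : Fin m, Module.End W.K (W.H (X (x a.succ)))) :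
    moved x Z Ψ (fun a => τ (x a.succ) g * u a * τ (x a.succ) g⁻¹) =
      extOp W (extOp W (τ (x 0) g) (τ (x 0) g)) (B g) (moved x Z Ψ u) := by
  refine contr_ext fun E₀ => ?_
  have h3 : τ (x 0) g * τ (x 0) g⁻¹ = 1 := by rw [← map_mul, mul_inv_cancel, map_one]
  rw [contr_equivariant (htr (x 0) g) h3 (B g) E₀, contr_moved, contr_moved, ← hΨ g]
  congr 1
  funext a
  refine Fin.cases ?_ (fun b => ?_) a
  · show E₀ = τ (x 0) g * (τ (x 0) g⁻¹ * E₀ * τ (x 0) g) * τ (x 0) g⁻¹
    calc E₀ = (τ (x 0) g * τ (x 0) g⁻¹) * E₀ * (τ (x 0) g * τ (x 0) g⁻¹) := by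
          rw [h3, one_mul, mul_one]
      _ = _ := by simp only [mul_assoc]
  · rfl

variable (hdeg : ∀ i g, DegZero W (X i) (τ i g))
  (htr : ∀ i g a b, W.tr (X i) (τ i g a * τ i g b) = W.tr (X i) (a * b))
  (hinv : ∀ (w : FreeMagma I) (n : ℕ), ∀ c ∈ W.gr (wordObj X w) (2 * n),
    (∀ g, wordRep τ w g c = c) → c ∈ spanCycles W (wordObj X w) n)

include hdeg htr hinv in
/-- The values of equivariant multilinear maps, at operators in the spans of the endomorphisms of
the varieties, are algebraic. -/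
theorem equivariant_algebraic : ∀ (m : ℕ) (x : Fin m → I) (w : FreeMagma I)
    (Ψ : MultilinearMap W.K (fun a => Module.End W.K (W.H (X (x a)))) (W.H (wordObj X w))),
    (∀ (g : G) (u : ∀ a, Module.End W.K (W.H (X (x a)))),
      Ψ (fun a => τ (x a) g * u a * τ (x a) g⁻¹) = wordRep τ w g (Ψ u)) →
    ∀ E : ∀ a, Module.End W.K (W.H (X (x a))), (∀ a, E a ∈ geomEnd W (X (x a))) →
    ∀ n : ℕ, proj (W.isInternal _) (2 * n) (Ψ E) ∈ spanCycles W (wordObj X w) n := by
  intro m
  induction m with
  | zero =>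
    intro x w Ψ hΨ E _ n
    refine hinv w n _ (proj_mem _ _ _) fun g => ?_
    have h1 : wordRep τ w g (Ψ E) = Ψ E := by
      rw [← hΨ g E]
      congr 1
      exact funext fun a => a.elim0
    have h2 : DegZero W (wordObj X w) (wordRep τ w g) :=
      degZero_wordOp (fun i => hdeg i g) w
    rw [h2.proj, h1]
  | succ m ih =>
    intro x w Ψ hΨ E hE n
    -- the word with two more letters
    let w' : FreeMagma I := (FreeMagma.of (x 0) * FreeMagma.of (x 0)) * w
    have h1 := ih (fun a => x a.succ) w' (moved x (wordObj X w) Ψ)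
      (fun g u => moved_equivariant τ htr x (fun g => wordRep τ w g) Ψ hΨ g u)
      (fun a => E a.succ) (fun a => hE a.succ) ((X (x 0)).dim + n)
    have h2 : Ψ E = contr (E 0) (moved x (wordObj X w) Ψ fun a => E a.succ) := by
      rw [contr_moved]
      congr 1
      funext a
      refine Fin.cases rfl (fun b => rfl) a
    rw [h2, proj_contr (geomEnd_degZero (hE 0))]
    refine contr_geomEnd (hE 0) ?_
    have h3 : 2 * (X (x 0)).dim + 2 * n = 2 * ((X (x 0)).dim + n) := by ring
    rw [h3]
    exact h1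

end Pool.Agent.Y136
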