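import Pool.Agent.H914R2.DDefs
import Pool.Agent.W534.PoleDefs

/-!
# Families with compact monodromy groups: definitions
-/

open CategoryTheory AlgebraicGeometry Polynomial

universe u v

namespace Pool.Agent.Y136

open Pool.Agent.H914 Pool.Agent.W534 VarClass Obj WeilCohomology

/-- The operator which has, in the basis `b`, the complex matrix `A`, when the field `F` is
identified with the field of the complex numbers by `σ`. -/
noncomputable def matOp {F : Type*} [Field F] (σ : F ≃+* ℂ) {V : Type*} [AddCommGroup V]
    [Module F V] {J : Type*} [Fintype J] [DecidableEq J] (b : Module.Basis J F V)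
    (A : Matrix J J ℂ) : Module.End F V :=
  Matrix.toLin b b (A.map σ.symm)

/-- The product of the varieties `X i` along a bracketed word. -/
noncomputable def wordObj {k : Type u} [Field k] {𝒱 : VarClass k} {I : Type} (X : I → 𝒱.Obj) :
    FreeMagma I → 𝒱.Obj
  | .of i => X i
  | .mul v w => (wordObj X v).prod (wordObj X w)

/-- The operator `U` is the operator `S` on the first factor and the operator `T` on the second
factor of the products `f a * g b`. -/
def IsExternal {F A B C : Type*} [Field F] [Ring A] [Ring B] [Ring C] [Algebra F A] [Algebra F B]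
    [Algebra F C] (f : A →ₐ[F] C) (g : B →ₐ[F] C) (S : Module.End F A) (T : Module.End F B)
    (U : Module.End F C) : Prop :=
  ∀ a b, U (f a * g b) = f (S a) * g (T b)

/-- `B w`, for all bracketed words `w`, are the operators on the cohomology of the products of the
varieties `X i` which are induced, by the Kunneth formula, by the operators `A i` on the cohomology
of the varieties `X i`. -/
def IsWordOps {k : Type u} [Field k] {𝒱 : VarClass k} {ops : CycleOps 𝒱}
    (W : WeilCohomology.{u, v} ops) {I : Type} (X : I → 𝒱.Obj)
    (A : ∀ i, Module.End W.K (W.H (X i)))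
    (B : ∀ w : FreeMagma I, Module.End W.K (W.H (wordObj X w))) : Prop :=
  (∀ i, B (.of i) = A i) ∧ ∀ v w, IsExternal (W.map (fst (wordObj X v) (wordObj X w)))
    (W.map (snd (wordObj X v) (wordObj X w))) (B v) (B w) (B (.mul v w))

/-- The properties of a maximal torus `T` of a connected compact group `G`: it is connected, it is
its own centraliser, and every element of `G` is conjugate to an element of `T`. -/
structure IsMaximalTorus {G : Type*} [Group G] [TopologicalSpace G] (T : Subgroup G) : Prop where
  preconnected : IsPreconnected (T : Set G)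
  mem_iff : ∀ g, g ∈ T ↔ ∀ t ∈ T, g * t = t * g
  conj : ∀ g, ∃ h, h * g * h⁻¹ ∈ T

/-- Continuous unitary representations of `G` by matrices `ρ i g` with rows and columns indexed by
`J i`, which preserve the degrees `deg i j` of the indices, and such that only the identity of `G`
is mapped to the identity by all `ρ i`. -/
structure IsGradedRep {G : Type*} [Group G] [TopologicalSpace G] {I : Type} {J : I → Type}
    [∀ i, Fintype (J i)] [∀ i, DecidableEq (J i)] (deg : ∀ i, J i → ℕ)
    (ρ : ∀ i, G →* Matrix (J i) (J i) ℂ) : Prop where
  continuous : ∀ i, Continuous (ρ i)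
  unitary : ∀ i g, ρ i g ∈ Matrix.unitaryGroup (J i) ℂ
  graded : ∀ i g j l, deg i j ≠ deg i l → ρ i g j l = 0
  faithful : ∀ g, (∀ i, ρ i g = 1) → g = 1

/-- The matrix `A` with the columns multiplied by the powers `q ^ (deg j / 2)`. -/
noncomputable def frobMat {J : Type} [Fintype J] [DecidableEq J] (q : ℕ) (deg : J → ℕ)
    (A : Matrix J J ℂ) : Matrix J J ℂ :=
  A * Matrix.diagonal fun j => ((Real.sqrt q : ℝ) : ℂ) ^ deg j

/-- The class `c` on a product of the varieties `X i` is fixed by all elements `g` of the set `G`,
acting on the cohomology of the variety `X i` by the operator `A g i`. -/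
def IsFixed {k : Type u} [Field k] {𝒱 : VarClass k} {ops : CycleOps 𝒱}
    (W : WeilCohomology.{u, v} ops) {I : Type} (X : I → 𝒱.Obj) {G : Type*}
    (A : G → ∀ i, Module.End W.K (W.H (X i))) (w : FreeMagma I) (c : W.H (wordObj X w)) : Prop :=
  ∀ g, ∃ B, IsWordOps W X (A g) B ∧ B w c = c

/-- The Tate conjecture for the products of the generic members of families: on all products of
copies of the varieties `X i`, the classes of even degree which are fixed by `G` are linear
combinations of classes of algebraic cycles. -/
def FixedAreAlgebraic {k : Type u} [Field k] {𝒱 : VarClass k} {ops : CycleOps 𝒱}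
    (W : WeilCohomology.{u, v} ops) {I : Type} (X : I → 𝒱.Obj) {G : Type*}
    (A : G → ∀ i, Module.End W.K (W.H (X i))) : Prop :=
  ∀ (w : FreeMagma I) (n : ℕ), ∀ c ∈ W.gr (wordObj X w) (2 * n), IsFixed W X A w c →
    c ∈ spanCycles W (wordObj X w) n

/-- The operator `U` preserves the bilinear form `τ (x * y)`. -/
def PreservesPairing {F A : Type*} [Field F] [Ring A] [Algebra F A] (τ : A →ₗ[F] F)
    (U : Module.End F A) : Prop :=
  ∀ x y, τ (U x * U y) = τ (x * y)

/-- The varieties `X i`, with the bases `b i` of their cohomology, are members of families with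
monodromy group `G`, which acts on the cohomology of `X i` by the matrices `ρ i g` with respect to
the basis `b i`.
* `homogeneous`: the vectors `b i j` are homogeneous of degree `deg i j`;
* `pairing`: the group preserves the intersection form;
* `tate`: on all products of copies of the varieties `X i` the classes fixed by the group are
  algebraic. -/
structure IsMonodromy {k : Type u} [Field k] {𝒱 : VarClass k} {ops : CycleOps 𝒱}
    (W : WeilCohomology.{u, v} ops) (σ : W.K ≃+* ℂ) {G : Type*} [Group G] {I : Type}
    {J : I → Type} [∀ i, Fintype (J i)] [∀ i, DecidableEq (J i)] (deg : ∀ i, J i → ℕ)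
    (ρ : ∀ i, G →* Matrix (J i) (J i) ℂ) (X : I → 𝒱.Obj)
    (b : ∀ i, Module.Basis (J i) W.K (W.H (X i))) : Prop where
  homogeneous : ∀ i j, b i j ∈ W.gr (X i) (deg i j)
  pairing : ∀ i g, PreservesPairing (W.tr (X i)) (matOp σ (b i) (ρ i g))
  tate : FixedAreAlgebraic W X fun (g : G) i => matOp σ (b i) (ρ i g)

/-- Conditions on an operator `f`, for a graded vector space and a number `q`.
* `commute`, `nilpotent`: the operator `g` commutes with `f` and differs from it by a nilpotent
  operator;
* `integral`: the characteristic polynomials of `f` in all degrees have integral coefficients;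
* `slopes`: for all valuations of the coefficient field the `D`-th powers of the eigenvalues of `f`
  have the same valuations as integral powers of `q`. -/
structure IsFrobOp {F V : Type*} [Field F] [AddCommGroup V] [Module F V] [Module.Finite F V]
    (gr : ℕ → Submodule F V) (q : F) (D : ℕ) (f g : Module.End F V) : Prop where
  commute : Commute f g
  nilpotent : IsNilpotent (f - g)
  integral : ∀ n, ∃ h : ℤ[X], charpolyOn f (gr n) = h.map (Int.castRingHom F)
  slopes : ∀ α : F, f.HasEigenvalue α → ∀ v : ValuationSubring F, ∃ u : ℤ,
    α ^ D / q ^ u ∈ v ∧ q ^ u / α ^ D ∈ v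

/-- `fr` is the Frobenius endomorphism of a model of `X` over the field with `p ^ m` elements, and
the matrix `A` is its semisimple part, normalised by half Tate twists.
* `frobenius`: some iterate of `fr` is an iterate of the Frobenius endomorphism of the system `Φ`;
* `isFrobOp`: the semisimple part of the operator `fr^*` is, on the cohomology of degree `n`, the
  operator with the matrix `A` multiplied by `p ^ (m n / 2)`; the characteristic polynomials of
  `fr^*` are integral and its slopes are in `(1 / D) ℤ`. -/
structure IsFrobenius {k : Type u} [Field k] {𝒱 : VarClass k} {ops : CycleOps 𝒱}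
    {W : WeilCohomology.{u, v} ops} {p : ℕ} (Φ : FrobSystem W p) (σ : W.K ≃+* ℂ) (D m : ℕ)
    {X : 𝒱.Obj} (fr : X ⟶ X) {J : Type} [Fintype J] [DecidableEq J] (deg : J → ℕ)
    (b : Module.Basis J W.K (W.H X)) (A : Matrix J J ℂ) : Prop where
  frobenius : ∃ a c : ℕ, 0 < a ∧ 0 < c ∧ a * m = c * Φ.e X ∧
    W534.iter fr a = W534.iter (Φ.Fr X) c
  isFrobOp : IsFrobOp (W.gr X) ((p : W.K) ^ m) D (W.map fr).toLinearMap
    (matOp σ b (frobMat (p ^ m) deg A))

end Pool.Agent.Y136
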