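import Pool.Agent.Y136.MG.Geo

/-!
# The Tate conjecture for fibres with generic Frobenius element
-/

open CategoryTheory AlgebraicGeometry Polynomial

universe u v

namespace Pool.Agent.Y136

open Pool.Agent.H914 Pool.Agent.W534 VarClass Obj WeilCohomology

variable {k : Type u} [Field k] {𝒱 : VarClass k} {ops : CycleOps 𝒱}
  {W : WeilCohomology.{u, v} ops}

section Lin

variable {I : Type} {X : I → 𝒱.Obj}

/-- Nilpotent differences pass to products. -/
lemma wordOp_nilpotent {A B : ∀ i, Module.End W.K (W.H (X i))} (hc : ∀ i, Commute (A i) (B i))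
    (hn : ∀ i, IsNilpotent (A i - B i)) (w : FreeMagma I) :
    Commute (wordOp W X A w) (wordOp W X B w) ∧
      IsNilpotent (wordOp W X A w - wordOp W X B w) := by
  induction w with
  | ih1 i => exact ⟨hc i, hn i⟩
  | ih2 v w hv hw =>
    obtain ⟨hcv, hnv⟩ := hv
    obtain ⟨hcw, hnw⟩ := hw
    set a := wordOp W X A v
    set b := wordOp W X B v
    set a' := wordOp W X A w
    set b' := wordOp W X B w
    constructor
    · show extOp W a a' * extOp W b b' = extOp W b b' * extOp W a a'
      rw [extOp_mul, extOp_mul, hcv.eq, hcw.eq]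
    · show IsNilpotent (extOp W a a' - extOp W b b')
      have h1 : extOp W a a' - extOp W b b' = extOp W (a - b) a' + extOp W b (a' - b') := by
        have h2 : extOp W (a - b) a' = extOp W a a' - extOp W b a' := by
          have := extOp_add_left (W := W) (a - b) b a'
          rw [sub_add_cancel] at this
          rw [this]; abel
        have h3 : extOp W b (a' - b') = extOp W b a' - extOp W b b' := by
          have := extOp_add_right (W := W) b (a' - b') b'
          rw [sub_add_cancel] at this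
          rw [this]; abel
        rw [h2, h3]; abel
      have hpow : ∀ (x : Module.End W.K (W.H (wordObj X v)))
          (y : Module.End W.K (W.H (wordObj X w))) (n : ℕ),
          extOp W x y ^ n = extOp W (x ^ n) (y ^ n) := by
        intro x y n
        induction n with
        | zero => rw [pow_zero, pow_zero, pow_zero, extOp_one]
        | succ n ih => rw [pow_succ, ih, extOp_mul, ← pow_succ, ← pow_succ]
      rw [h1]
      refine Commute.isNilpotent_add ?_ ?_ ?_
      · show extOp W (a - b) a' * extOp W b (a' - b') = extOp W b (a' - b') * extOp W (a - b) a'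
        rw [extOp_mul, extOp_mul]
        have h2 : (a - b) * b = b * (a - b) := by rw [sub_mul, mul_sub, hcv.eq]
        have h3 : a' * (a' - b') = (a' - b') * a' := by rw [sub_mul, mul_sub, hcw.eq]
        rw [h2, h3]
      · obtain ⟨n, hn⟩ := hnv
        exact ⟨n, by rw [hpow, hn, extOp_zero_left]⟩
      · obtain ⟨n, hn⟩ := hnw
        exact ⟨n, by rw [hpow, hn, extOp_zero_right]⟩

lemma pow_nilpotent {R : Type*} [Ring R] {f S : R} (hc : Commute f S)
    (hn : IsNilpotent (f - S)) (n : ℕ) : IsNilpotent (f ^ n - S ^ n) := by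
  induction n with
  | zero => rw [pow_zero, pow_zero, sub_self]; exact IsNilpotent.zero
  | succ n ih =>
    have h1 : f ^ (n + 1) - S ^ (n + 1) = f ^ n * (f - S) + (f ^ n - S ^ n) * S := by
      rw [pow_succ, pow_succ]; noncomm_ring
    have c1 : Commute f (f - S) := (Commute.refl f).sub_right hc
    have c2 : Commute S (f - S) := hc.symm.sub_right (Commute.refl S)
    have c3 : Commute (f ^ n - S ^ n) S :=
      (hc.pow_left n).sub_left ((Commute.refl S).pow_left n)
    have c4 : Commute (f ^ n - S ^ n) (f - S) :=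
      (c1.pow_left n).sub_left (c2.pow_left n)
    have c5 : Commute (f ^ n - S ^ n) (f ^ n) :=
      (Commute.refl _).sub_left (((hc.pow_left n).pow_right n).symm)
    rw [h1]
    refine Commute.isNilpotent_add ?_ ?_ ?_
    · refine Commute.mul_left ?_ ?_
      · exact c5.symm.mul_right (hc.pow_left n)
      · exact c4.symm.mul_right c2.symm
    · exact (c1.pow_left n).isNilpotent_mul_left hn
    · exact c3.isNilpotent_mul_right ih

end Lin

section Torus

variable {G : Type*} [Group G] {I : Type} [Fintype I] {J : I → Type} [∀ i, Fintype (J i)]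
  [∀ i, DecidableEq (J i)] {deg : ∀ i, J i → ℕ} {ρ : ∀ i, G →* Matrix (J i) (J i) ℂ}

/-- A diagonalisable subgroup which is its own centraliser. -/
structure TorusData (T : Subgroup G) (deg : ∀ i, J i → ℕ) (ρ : ∀ i, G →* Matrix (J i) (J i) ℂ)
    (P P' : ∀ i, Matrix (J i) (J i) ℂ) (lam : ∀ i, J i → G → ℂ) (deg' : ∀ i, J i → ℕ) : Prop where
  diag : ∀ i, Diagonalises T (ρ i) (P i) (P' i) (lam i)
  homog : ∀ i l j, P i l j ≠ 0 → deg i l = deg' i j
  central : ∀ g, (∀ t ∈ T, g * t = t * g) → g ∈ T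

/-- The element `θ` satisfies only those multiplicative relations which hold on `T`. -/
def Generic (T : Subgroup G) (lam : ∀ i, J i → G → ℂ) (θ : G) : Prop :=
  ∀ m : (Σ i, J i) → ℤ, (∃ n : ℕ, 0 < n ∧ (∏ x, lam x.1 x.2 θ ^ m x) ^ n = 1) →
    ∀ t ∈ T, ∏ x, lam x.1 x.2 t ^ m x = 1

variable {T : Subgroup G} {P P' : ∀ i, Matrix (J i) (J i) ℂ} {lam : ∀ i, J i → G → ℂ}
  {deg' : ∀ i, J i → ℕ}

omit [Fintype I] in
lemma lam_pow (hT : TorusData T deg ρ P P' lam deg') {θ : G} (hθ : θ ∈ T) (i : I) (j : J i)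
    (n : ℕ) : lam i j (θ ^ n) = lam i j θ ^ n := by
  induction n with
  | zero => rw [pow_zero, pow_zero, (hT.diag i).lam_one]
  | succ n ih => rw [pow_succ, (hT.diag i).lam_mul (T.pow_mem hθ n) hθ, ih, pow_succ]

omit [Fintype I] in
lemma lam_inv (hT : TorusData T deg ρ P P' lam deg') {θ : G} (hθ : θ ∈ T) (i : I) (j : J i) :
    lam i j θ⁻¹ = (lam i j θ)⁻¹ := by
  have h1 := (hT.diag i).lam_mul (T.inv_mem hθ) hθ j
  rw [inv_mul_cancel, (hT.diag i).lam_one] at h1
  exact eq_inv_of_mul_eq_one_left h1.symm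

/-- If two eigenvalues of a power of a generic element agree, then the characters agree. -/
lemma generic_eq (hT : TorusData T deg ρ P P' lam deg') {θ : G} (hθ : θ ∈ T)
    (hgen : Generic T lam θ) {i : I} {j l : J i} {r : ℕ} (hr : 0 < r)
    (h : lam i j θ ^ r = lam i l θ ^ r) : ∀ t ∈ T, lam i j t = lam i l t := by
  classical
  have hne : ∀ t ∈ T, ∀ (x : Σ i, J i), lam x.1 x.2 t ≠ 0 := by
    intro t ht x h0
    have := (hT.diag x.1).norm t ht x.2
    rw [h0, norm_zero] at this
    exact zero_ne_one this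
  have hprod : ∀ t ∈ T, ∏ x : Σ i, J i, lam x.1 x.2 t ^
      ((Pi.single (⟨i, j⟩ : Σ i, J i) (1 : ℤ) - Pi.single (⟨i, l⟩ : Σ i, J i) (1 : ℤ) :
        (Σ i, J i) → ℤ) x) = lam i j t * (lam i l t)⁻¹ := by
    intro t ht
    simp only [Pi.sub_apply]
    rw [Finset.prod_congr rfl fun x _ => zpow_sub₀ (hne t ht x) _ _]
    simp only [div_eq_mul_inv]
    rw [Finset.prod_mul_distrib, Finset.prod_inv_distrib]
    congr 1
    · rw [Finset.prod_eq_single (⟨i, j⟩ : Σ i, J i)]
      · rw [Pi.single_eq_same, zpow_one]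
      · intro x _ hx
        rw [Pi.single_eq_of_ne hx, zpow_zero]
      · intro h; exact absurd (Finset.mem_univ _) h
    · congr 1
      rw [Finset.prod_eq_single (⟨i, l⟩ : Σ i, J i)]
      · rw [Pi.single_eq_same, zpow_one]
      · intro x _ hx
        rw [Pi.single_eq_of_ne hx, zpow_zero]
      · intro h; exact absurd (Finset.mem_univ _) h
  intro t ht
  have h1 := hgen _ ⟨r, hr, by
    rw [hprod θ hθ, mul_pow, h, inv_pow, mul_inv_cancel₀]
    exact pow_ne_zero _ (hne θ hθ ⟨i, l⟩)⟩ t ht
  rw [hprod t ht] at h1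
  exact (mul_inv_eq_one₀ (hne t ht ⟨i, l⟩)).mp h1

variable {σ : W.K ≃+* ℂ} {X : I → 𝒱.Obj} {b : ∀ i, Module.Basis (J i) W.K (W.H (X i))}

/-- The eigenvectors of the torus. -/
noncomputable def vec (σ : W.K ≃+* ℂ) (b : ∀ i, Module.Basis (J i) W.K (W.H (X i)))
    (P : ∀ i, Matrix (J i) (J i) ℂ) (i : I) (j : J i) : W.H (X i) :=
  matOp σ (b i) (P i) (b i j)

omit [Fintype I] in
lemma span_vec (hT : TorusData T deg ρ P P' lam deg') (i : I) :
    Submodule.span W.K (Set.range (vec σ b P i)) = ⊤ := by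
  rw [eq_top_iff, ← (b i).span_eq, Submodule.span_le]
  rintro _ ⟨l, rfl⟩
  have h1 : matOp σ (b i) (P i) (matOp σ (b i) (P' i) (b i l)) = b i l := by
    have h2 : matOp σ (b i) (P i) * matOp σ (b i) (P' i) = 1 := by
      rw [← matOp_mul, (hT.diag i).inv', matOp_one]
    rw [← Module.End.mul_apply, h2, Module.End.one_apply]
  rw [← h1, matOp_apply (P' i), map_sum]
  refine Submodule.sum_mem _ fun j _ => ?_
  rw [map_smul]
  exact Submodule.smul_mem _ _ (Submodule.subset_span ⟨j, rfl⟩)

omit [Fintype I] in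
lemma act_vec (hT : TorusData T deg ρ P P' lam deg') (i : I) (j : J i) {t : G} (ht : t ∈ T) :
    matOp σ (b i) (ρ i t) (vec σ b P i j) = σ.symm (lam i j t) • vec σ b P i j := by
  have h1 : ρ i t * P i = P i * Matrix.diagonal fun j => lam i j t := by
    rw [(hT.diag i).eq' ht, mul_assoc, (hT.diag i).inv, mul_one]
  rw [vec, ← Module.End.mul_apply, ← matOp_mul, h1, matOp_mul, Module.End.mul_apply,
    matOp_diagonal, map_smul]

omit [Fintype I] in
lemma vec_mem (hT : TorusData T deg ρ P P' lam deg')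
    (hb : ∀ i j, b i j ∈ W.gr (X i) (deg i j)) (i : I) (j : J i) :
    vec σ b P i j ∈ W.gr (X i) (deg' i j) := by
  rw [vec, matOp_apply]
  refine Submodule.sum_mem _ fun l _ => ?_
  by_cases h : P i l j = 0
  · rw [h, map_zero, zero_smul]; exact Submodule.zero_mem _
  · refine Submodule.smul_mem _ _ ?_
    rw [← hT.homog i l j h]
    exact hb i l

/-- The cohomology of products is spanned by weight vectors of the torus. -/
lemma weight_span (hT : TorusData T deg ρ P P' lam deg') (w : FreeMagma I) :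
    ∀ y : W.H (wordObj X w), y ∈ Submodule.span W.K {y : W.H (wordObj X w) |
      ∃ m : (Σ i, J i) → ℤ, ∀ t ∈ T, wordRep (fun i => matRep σ (b i) (ρ i)) w t y =
        σ.symm (∏ x, lam x.1 x.2 t ^ m x) • y} := by
  classical
  have hne : ∀ t ∈ T, ∀ (x : Σ i, J i), lam x.1 x.2 t ≠ 0 := by
    intro t ht x h0
    have := (hT.diag x.1).norm t ht x.2
    rw [h0, norm_zero] at this
    exact zero_ne_one this
  induction w with
  | ih1 i =>
    intro y
    have h1 : y ∈ Submodule.span W.K (Set.range (vec σ b P i)) := by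
      rw [span_vec hT i]; trivial
    refine Submodule.span_mono ?_ h1
    rintro _ ⟨j, rfl⟩
    refine ⟨Pi.single ⟨i, j⟩ 1, fun t ht => ?_⟩
    have h2 : ∏ x : Σ i, J i, lam x.1 x.2 t ^
        ((Pi.single (⟨i, j⟩ : Σ i, J i) (1 : ℤ) : (Σ i, J i) → ℤ) x) = lam i j t := by
      rw [Finset.prod_eq_single (⟨i, j⟩ : Σ i, J i)]
      · rw [Pi.single_eq_same, zpow_one]
      · intro x _ hx
        rw [Pi.single_eq_of_ne hx, zpow_zero]
      · intro h; exact absurd (Finset.mem_univ _) h
    rw [h2]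
    exact act_vec hT i j ht
  | ih2 v w hv hw =>
    intro y
    have key : ∀ y : W.H ((wordObj X v).prod (wordObj X w)), y ∈ Submodule.span W.K
        {y : W.H ((wordObj X v).prod (wordObj X w)) | ∃ m : (Σ i, J i) → ℤ, ∀ t ∈ T,
          extOp W (wordRep (fun i => matRep σ (b i) (ρ i)) v t)
            (wordRep (fun i => matRep σ (b i) (ρ i)) w t) y =
          σ.symm (∏ x, lam x.1 x.2 t ^ m x) • y} := by
      intro y
      refine W.kunneth_induction (p := fun y => y ∈ Submodule.span W.K
        {y : W.H ((wordObj X v).prod (wordObj X w)) | ∃ m : (Σ i, J i) → ℤ, ∀ t ∈ T,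
          extOp W (wordRep (fun i => matRep σ (b i) (ρ i)) v t)
            (wordRep (fun i => matRep σ (b i) (ρ i)) w t) y =
          σ.symm (∏ x, lam x.1 x.2 t ^ m x) • y}) ?_ ?_ y
      · intro a b ha hb; exact Submodule.add_mem _ ha hb
      · intro _ _ a _ c _
        refine Submodule.span_induction (p := fun a _ =>
          W.map (fst (wordObj X v) (wordObj X w)) a * W.map (snd (wordObj X v) (wordObj X w)) c ∈
          _) ?_ ?_ ?_ ?_ (hv a)
        · rintro a ⟨m, hm⟩
          refine Submodule.span_induction (p := fun c _ =>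
            W.map (fst (wordObj X v) (wordObj X w)) a *
              W.map (snd (wordObj X v) (wordObj X w)) c ∈ _) ?_ ?_ ?_ ?_ (hw c)
          · rintro c ⟨m', hm'⟩
            refine Submodule.subset_span ⟨m + m', fun t ht => ?_⟩
            rw [extOp_tmul, hm t ht, hm' t ht, map_smul, map_smul, smul_mul_smul_comm]
            congr 1
            rw [← map_mul, ← Finset.prod_mul_distrib]
            congr 1
            exact Finset.prod_congr rfl fun x _ => by
              rw [Pi.add_apply, zpow_add₀ (hne t ht x)]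
          · rw [map_zero, mul_zero]; exact Submodule.zero_mem _
          · intro c c' _ _ hc hc'
            rw [map_add, mul_add]; exact Submodule.add_mem _ hc hc'
          · intro r c _ hc
            rw [map_smul, mul_smul_comm]; exact Submodule.smul_mem _ _ hc
        · rw [map_zero, zero_mul]; exact Submodule.zero_mem _
        · intro a a' _ _ ha ha'
          rw [map_add, add_mul]; exact Submodule.add_mem _ ha ha'
        · intro r a _ ha
          rw [map_smul, smul_mul_assoc]; exact Submodule.smul_mem _ _ ha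
    exact key y

/-- Decomposition of a class according to the weights of the torus. -/
lemma exists_decomp (hT : TorusData T deg ρ P P' lam deg') {θ : G} (hθ : θ ∈ T)
    (hgen : Generic T lam θ) {r : ℕ} (hr : 0 < r) (w : FreeMagma I) (y : W.H (wordObj X w)) :
    ∃ (y₁ y₂ : W.H (wordObj X w)) (Q : W.K[X]), y = y₁ + y₂ ∧
      (∀ t ∈ T, wordRep (fun i => matRep σ (b i) (ρ i)) w t y₁ = y₁) ∧ Q.eval 1 ≠ 0 ∧
      aeval (wordRep (fun i => matRep σ (b i) (ρ i)) w (θ ^ r)) Q y₂ = 0 := by
  refine Submodule.span_induction (p := fun y _ => ∃ (y₁ y₂ : W.H (wordObj X w)) (Q : W.K[X]),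
    y = y₁ + y₂ ∧ (∀ t ∈ T, wordRep (fun i => matRep σ (b i) (ρ i)) w t y₁ = y₁) ∧
      Q.eval 1 ≠ 0 ∧ aeval (wordRep (fun i => matRep σ (b i) (ρ i)) w (θ ^ r)) Q y₂ = 0)
    ?_ ?_ ?_ ?_ (weight_span (σ := σ) (b := b) hT w y)
  · rintro y ⟨m, hm⟩
    have h1 : ∏ x, lam x.1 x.2 (θ ^ r) ^ m x = (∏ x, lam x.1 x.2 θ ^ m x) ^ r := by
      rw [← Finset.prod_pow]
      refine Finset.prod_congr rfl fun x _ => ?_
      rw [lam_pow hT hθ, ← zpow_natCast, ← zpow_natCast, ← zpow_mul, ← zpow_mul, mul_comm]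
    by_cases h : (∏ x, lam x.1 x.2 θ ^ m x) ^ r = 1
    · refine ⟨y, 0, 1, by rw [add_zero], fun t ht => ?_, by simp, by rw [map_zero]⟩
      rw [hm t ht, hgen m ⟨r, hr, h⟩ t ht, map_one, one_smul]
    · refine ⟨0, y, Polynomial.X - C (σ.symm ((∏ x, lam x.1 x.2 θ ^ m x) ^ r)), by rw [zero_add],
        fun t _ => map_zero _, ?_, ?_⟩
      · rw [eval_sub, eval_X, eval_C]
        intro hcon
        apply h
        have h2 := sub_eq_zero.mp hcon
        rw [← map_one σ, h2, RingEquiv.apply_symm_apply]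
      · have h2 := hm (θ ^ r) (T.pow_mem hθ r)
        rw [h1] at h2
        rw [aeval_eigen h2, eval_sub, eval_X, eval_C, sub_self, zero_smul]
  · exact ⟨0, 0, 1, by rw [add_zero], fun t _ => map_zero _, by simp, by rw [map_zero]⟩
  · rintro y z _ _ ⟨y₁, y₂, Q, hy, h1, hQ, h2⟩ ⟨z₁, z₂, R, hz, h3, hR, h4⟩
    refine ⟨y₁ + z₁, y₂ + z₂, Q * R, ?_, fun t ht => ?_, ?_, ?_⟩
    · rw [hy, hz]; abel
    · rw [map_add, h1 t ht, h3 t ht]
    · rw [eval_mul]; exact mul_ne_zero hQ hR
    · rw [map_add]
      have e1 : aeval (wordRep (fun i => matRep σ (b i) (ρ i)) w (θ ^ r)) (Q * R) y₂ = 0 := by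
        rw [mul_comm, map_mul, Module.End.mul_apply, h2, map_zero]
      have e2 : aeval (wordRep (fun i => matRep σ (b i) (ρ i)) w (θ ^ r)) (Q * R) z₂ = 0 := by
        rw [map_mul, Module.End.mul_apply, h4, map_zero]
      rw [e1, e2, add_zero]
  · rintro c y _ ⟨y₁, y₂, Q, hy, h1, hQ, h2⟩
    refine ⟨c • y₁, c • y₂, Q, by rw [hy, smul_add], fun t ht => ?_, hQ, ?_⟩
    · rw [map_smul, h1 t ht]
    · rw [map_smul, h2, smul_zero]

end Torus

end Pool.Agent.Y136
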