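import Pool.Agent.Y136.MG.Det

/-!
# The Tate conjecture for fibres with generic Frobenius element: proof
-/

open CategoryTheory AlgebraicGeometry Polynomial

universe u v

namespace Pool.Agent.Y136

open Pool.Agent.H914 Pool.Agent.W534 VarClass Obj WeilCohomology

variable {k : Type u} [Field k] {𝒱 : VarClass k} {ops : CycleOps 𝒱}
  {W : WeilCohomology.{u, v} ops}

lemma adjoin_le_geomEnd {Z : 𝒱.Obj} (f : Z ⟶ Z) {A : Module.End W.K (W.H Z)}
    (hA : A ∈ Algebra.adjoin W.K {(W.map f).toLinearMap}) : A ∈ geomEnd W Z := by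
  rw [Algebra.adjoin_singleton_eq_range_aeval] at hA
  obtain ⟨Q, rfl⟩ := hA
  show aeval (W.map f).toLinearMap Q ∈ _
  rw [aeval_eq_sum_range]
  refine Submodule.sum_mem _ fun n _ => Submodule.smul_mem _ _ ?_
  rw [← map_iter_eq_pow]
  exact Submodule.subset_span ⟨_, rfl⟩

/-- Generalised eigenvectors of an operator are generalised eigenvectors of its powers. -/
lemma genEigen_pow {F V : Type*} [Field F] [AddCommGroup V] [Module F V] {f : Module.End F V}
    {c : F} {x : V} (hx : x ∈ f.maxGenEigenspace c) (A : ℕ) :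
    ∃ N : ℕ, ((f ^ A - algebraMap F _ (c ^ A)) ^ N) x = 0 := by
  rw [Module.End.mem_maxGenEigenspace] at hx
  obtain ⟨N, hN⟩ := hx
  refine ⟨N, ?_⟩
  obtain ⟨Q, hQ⟩ := sub_dvd_pow_sub_pow (Polynomial.X : F[X]) (C c) A
  have h1 : f ^ A - algebraMap F _ (c ^ A) = aeval f (Q * (Polynomial.X - C c)) := by
    rw [mul_comm, ← hQ, map_sub, map_pow (aeval f), aeval_X, map_pow (aeval f), aeval_C, map_pow]
  have h2 : f - c • 1 = aeval f (Polynomial.X - C c) := by
    rw [map_sub, aeval_X, aeval_C, Algebra.algebraMap_eq_smul_one]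
  rw [h1, ← map_pow, mul_pow, map_mul, Module.End.mul_apply, map_pow (aeval f) (_ - _), ← h2, hN,
    map_zero]

section

variable {p : ℕ} {Φ : FrobSystem W p} {σ : W.K ≃+* ℂ} {G : Type*} [Group G]
  [TopologicalSpace G] {I : Type} {J : I → Type}
  [∀ i, Fintype (J i)] [∀ i, DecidableEq (J i)] {deg : ∀ i, J i → ℕ}
  {ρ : ∀ i, G →* Matrix (J i) (J i) ℂ} {D m : ℕ} {θ : G} {X : I → 𝒱.Obj}
  {fr : ∀ i, X i ⟶ X i} {b : ∀ i, Module.Basis (J i) W.K (W.H (X i))}

/-- The square root of `q` in the coefficient field. -/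
noncomputable def rtq (σ : W.K ≃+* ℂ) (q : ℕ) : W.K := σ.symm ((Real.sqrt q : ℝ) : ℂ)

lemma rtq_sq (σ : W.K ≃+* ℂ) (q : ℕ) : rtq σ q ^ 2 = (q : W.K) := by
  rw [rtq, ← map_pow, ← Complex.ofReal_pow, Real.sq_sqrt (Nat.cast_nonneg q),
    Complex.ofReal_natCast, map_natCast]

/-- The operator multiplying the degree `n` part by `q ^ (n / 2)`. -/
noncomputable def scl (σ : W.K ≃+* ℂ) (q : ℕ) (deg : ∀ i, J i → ℕ)
    (b : ∀ i, Module.Basis (J i) W.K (W.H (X i))) (i : I) : Module.End W.K (W.H (X i)) :=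
  matOp σ (b i) (Matrix.diagonal fun j => ((Real.sqrt q : ℝ) : ℂ) ^ deg i j)

lemma scl_apply (hb : ∀ i j, b i j ∈ W.gr (X i) (deg i j)) (q : ℕ) (i : I) (n : ℕ)
    (x : W.H (X i)) (hx : x ∈ W.gr (X i) n) : scl σ q deg b i x = rtq σ q ^ n • x := by
  have h1 : ∀ A : Module.End W.K (W.H (X i)), A x = ∑ j, (b i).repr x j •
      A (proj (W.isInternal (X i)) n (b i j)) := by
    intro A
    conv_lhs => rw [← proj_same (W.isInternal (X i)) hx, ← (b i).sum_repr x]
    simp only [map_sum, map_smul]
  have h2 := h1 1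
  rw [Module.End.one_apply] at h2
  rw [h1 (scl σ q deg b i)]
  conv_rhs => rw [h2]
  rw [Finset.smul_sum]
  refine Finset.sum_congr rfl fun j _ => ?_
  rw [smul_comm]
  congr 1
  by_cases hj : deg i j = n
  · rw [← hj, proj_same _ (hb i j), scl, matOp_diagonal, map_pow]
    rfl
  · rw [proj_ne _ (hb i j) hj, map_zero, map_zero, smul_zero]

lemma act_degZero (hρ : IsGradedRep deg ρ) (hb : ∀ i j, b i j ∈ W.gr (X i) (deg i j)) (i : I)
    (g : G) : DegZero W (X i) (matOp σ (b i) (ρ i g)) := by
  refine degZero_of_basis (b i) (hb i) fun j => ?_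
  rw [matOp_apply]
  refine Submodule.sum_mem _ fun l _ => ?_
  by_cases h : deg i l = deg i j
  · rw [← h]; exact Submodule.smul_mem _ _ (hb i l)
  · rw [hρ.graded i g l j h, map_zero, zero_smul]; exact Submodule.zero_mem _

lemma commute_scl (hρ : IsGradedRep deg ρ) (q : ℕ) (i : I) (g : G) :
    Commute (matOp σ (b i) (ρ i g)) (scl σ q deg b i) := by
  show matOp σ (b i) (ρ i g) * matOp σ (b i) _ = matOp σ (b i) _ * matOp σ (b i) (ρ i g)
  rw [← matOp_mul, ← matOp_mul]
  congr 1
  ext j l
  rw [Matrix.mul_diagonal, Matrix.diagonal_mul]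
  by_cases h : deg i j = deg i l
  · rw [h, mul_comm]
  · rw [hρ.graded i g j l h, zero_mul, mul_zero]

omit [TopologicalSpace G] in
lemma frobMat_eq (q : ℕ) (i : I) (g : G) :
    matOp σ (b i) (frobMat q (deg i) (ρ i g)) = matOp σ (b i) (ρ i g) * scl σ q deg b i := by
  rw [frobMat, matOp_mul]
  rfl

variable [Fintype I] {T : Subgroup G} {P P' : ∀ i, Matrix (J i) (J i) ℂ}
  {lam : ∀ i, J i → G → ℂ} {deg' : ∀ i, J i → ℕ}

omit [Fintype I] [TopologicalSpace G] in
/-- The eigenvectors of the semisimple part of the Frobenius endomorphism. -/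
lemma frob_vec (hb : ∀ i j, b i j ∈ W.gr (X i) (deg i j))
    (hT : TorusData T deg ρ P P' lam deg') (q : ℕ) (i : I) (j : J i) {t : G} (ht : t ∈ T) :
    matOp σ (b i) (frobMat q (deg i) (ρ i t)) (vec σ b P i j) =
      (rtq σ q ^ deg' i j * σ.symm (lam i j t)) • vec σ b P i j := by
  rw [frobMat_eq, Module.End.mul_apply, scl_apply hb q i _ _ (vec_mem hT hb i j), map_smul,
    act_vec hT i j ht, smul_smul]

omit [Fintype I] in
/-- Powers of the normalised Frobenius operators are in the span of the endomorphisms of the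
variety. -/
lemma act_mem_geomEnd (hX : IsFibre Φ σ deg ρ D m θ X fr b)
    (hp : 1 < p) (hT : TorusData T deg ρ P P' lam deg') (hθ : θ ∈ T) (i : I) {x : G} (hx : x ∈ T)
    (hlam : ∀ j l, lam i j θ = lam i l θ → lam i j x = lam i l x) :
    matOp σ (b i) (ρ i x) ∈ geomEnd W (X i) := by
  set S := matOp σ (b i) (frobMat (p ^ m) (deg i) (ρ i θ)) with hS
  have hSv : ∀ j, S (vec σ b P i j) =
      (rtq σ (p ^ m) ^ deg' i j * σ.symm (lam i j θ)) • vec σ b P i j :=
    fun j => frob_vec hX.homogeneous hT (p ^ m) i j hθ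
  have hss : S.IsSemisimple := isSemisimple_of_eigenbasis (span_vec hT i) hSv
  have hchar : CharZero W.K := W.charZero
  have h1 : S ∈ Algebra.adjoin W.K {(W.map (fr i)).toLinearMap} :=
    mem_adjoin_of_semisimple hss (hX.commute i) (hX.nilpotent i)
  obtain ⟨Q, hQ⟩ := exists_aeval (S := S) (A := matOp σ (b i) (ρ i x)) (span_vec hT i) hSv
    (fun j => act_vec hT i j hx) (by
      intro j l h
      have hnorm : ∀ j, ‖σ (rtq σ (p ^ m) ^ deg' i j * σ.symm (lam i j θ))‖ =
          Real.sqrt ((p ^ m : ℕ) : ℝ) ^ deg' i j := by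
        intro j
        rw [map_mul, map_pow, RingEquiv.apply_symm_apply, norm_mul, norm_pow,
          (hT.diag i).norm θ hθ, mul_one, rtq, RingEquiv.apply_symm_apply, Complex.norm_real,
          Real.norm_of_nonneg (Real.sqrt_nonneg _)]
      have h2 : Real.sqrt ((p ^ m : ℕ) : ℝ) ^ deg' i j = Real.sqrt ((p ^ m : ℕ) : ℝ) ^ deg' i l := by
        rw [← hnorm j, ← hnorm l, h]
      have hq1 : (1 : ℝ) < Real.sqrt ((p ^ m : ℕ) : ℝ) := by
        rw [Real.lt_sqrt zero_le_one]
        have : 1 < p ^ m := Nat.one_lt_pow hX.pos.ne' hp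
        rw [one_pow]
        exact_mod_cast this
      have h3 : deg' i j = deg' i l := pow_right_injective₀ (by linarith) hq1.ne' h2
      rw [h3] at h
      have h4 : rtq σ (p ^ m) ^ deg' i l ≠ 0 := by
        intro h0
        have := hnorm l
        rw [h0, zero_mul, map_zero, norm_zero] at this
        exact absurd this.symm (pow_ne_zero _ (by linarith))
      have h5 := mul_left_cancel₀ h4 h
      have h6 := hlam j l (σ.symm.injective h5)
      rw [h6])
  rw [hQ]
  refine adjoin_le_geomEnd (fr i) ?_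
  have h2 : Algebra.adjoin W.K {S} ≤ Algebra.adjoin W.K {(W.map (fr i)).toLinearMap} :=
    Algebra.adjoin_le (by rintro _ rfl; exact h1)
  refine h2 ?_
  rw [Algebra.adjoin_singleton_eq_range_aeval]
  exact ⟨Q, rfl⟩

variable [IsTopologicalGroup G] [CompactSpace G]

/-- **The Tate conjecture for all products of copies of fibres with generic Frobenius element.** -/
theorem semisimpleTate_of_generic (hp : 1 < p) (hρ : IsGradedRep deg ρ)
    (hX : IsFibre Φ σ deg ρ D m θ X fr b) (hT : TorusData T deg ρ P P' lam deg')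
    (hθ : θ ∈ T) (hgen : Generic T lam θ) (w : FreeMagma I) (n : ℕ) :
    SemisimpleTateIn Φ (wordObj X w) n := by
  classical
  intro s hs c hc
  obtain ⟨hc1, hc2⟩ := Submodule.mem_inf.mp hc
  obtain ⟨A, r, hA, hr, he, hF⟩ := frob_word hX.pos hX.frobenius w
  set q : ℕ := p ^ m with hq
  set z : W.K := rtq σ q with hz
  -- the operators
  let f : ∀ i, Module.End W.K (W.H (X i)) := fun i => (W.map (fr i)).toLinearMap
  let S : ∀ i, Module.End W.K (W.H (X i)) := fun i =>
    matOp σ (b i) (frobMat q (deg i) (ρ i θ))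
  let τ : ∀ i, Representation W.K G (W.H (X i)) := fun i => matRep σ (b i) (ρ i)
  let R : ℕ := r * s
  have hR : 0 < R := Nat.mul_pos hr hs
  have hq0 : (q : W.K) ≠ 0 := by
    have : CharZero W.K := W.charZero
    exact_mod_cast (pow_pos (by omega : 0 < p) m).ne'
  have hz2 : z ^ 2 = (q : W.K) := rtq_sq σ q
  have hz0 : z ≠ 0 := by
    intro h0
    rw [h0] at hz2
    exact hq0 (by rw [← hz2]; simp)
  -- the class is a generalised eigenvector of the `R`-th power
  obtain ⟨N, hN⟩ := genEigen_pow hc1 A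
  have hc3 : ((wordOp W X (fun i => f i ^ R) w - algebraMap W.K _ (z ^ (R * (2 * n)))) ^ N) c =
      0 := by
    have h1 : (W.map (W534.iter (Φ.Fr (wordObj X w)) s)).toLinearMap ^ A =
        wordOp W X (fun i => f i ^ R) w := by
      have h2 : (fun i => f i ^ R) = fun i => (f i ^ r) ^ s := funext fun i => pow_mul _ _ _
      rw [h2, wordOp_pow (fun i => f i ^ r), ← hF, map_iter_eq_pow, ← pow_mul, ← pow_mul,
        mul_comm s A]
    have h2 : ((card Φ (wordObj X w) s : W.K) ^ n) ^ A = z ^ (R * (2 * n)) := by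
      rw [show R * (2 * n) = 2 * (R * n) by ring, pow_mul z, hz2, hq]
      unfold card
      push_cast
      rw [← pow_mul, ← pow_mul, ← pow_mul]
      congr 1
      calc Φ.e (wordObj X w) * s * (n * A) = (A * Φ.e (wordObj X w)) * (s * n) := by ring
        _ = r * m * (s * n) := by rw [he]
        _ = m * (R * n) := by simp only [R]; ring
    rw [← h1, ← h2]
    exact hN
  -- the same for the semisimple part
  obtain ⟨hcw, hnw⟩ := wordOp_nilpotent (A := fun i => f i ^ R) (B := fun i => S i ^ R)
    (fun i => (hX.commute i).pow_pow R R) (fun i => pow_nilpotent (hX.commute i)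
      (hX.nilpotent i) R) w
  obtain ⟨N', hN'⟩ := pow_sub_apply_eq_zero hcw hnw hc3
  -- the semisimple part on the classes of degree `2 n`
  have hU : ∀ x ∈ W.gr (wordObj X w) (2 * n), wordOp W X (fun i => S i ^ R) w x =
      z ^ (R * (2 * n)) • wordRep τ w (θ ^ R) x := by
    intro x hx
    have h1 : (fun i => S i ^ R) = fun i => τ i (θ ^ R) * scl σ q deg b i ^ R := by
      funext i
      show (matOp σ (b i) (frobMat q (deg i) (ρ i θ))) ^ R = _
      rw [frobMat_eq, (commute_scl hρ q i θ).mul_pow]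
      congr 1
      exact (map_pow (τ i) θ R).symm
    have h2 : wordOp W X (fun i => scl σ q deg b i ^ R) w x = (z ^ R) ^ (2 * n) • x := by
      refine wordOp_scalar (c := z ^ R) ?_ w (2 * n) x hx
      intro i d y hy
      have h3 : ∀ R : ℕ, (scl σ q deg b i ^ R) y = (z ^ R) ^ d • y := by
        intro R
        induction R with
        | zero => simp
        | succ R ih =>
          rw [pow_succ, Module.End.mul_apply, scl_apply hX.homogeneous q i d y hy, map_smul, ih,
            smul_smul, pow_succ, mul_pow, mul_comm]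
      exact h3 R
    rw [h1, wordOp_mul (fun i => τ i (θ ^ R)) (fun i => scl σ q deg b i ^ R),
      Module.End.mul_apply, h2, map_smul, ← pow_mul]
    rfl
  have hdeg : ∀ i g, DegZero W (X i) (τ i g) := act_degZero hρ hX.homogeneous
  have hUd : DegZero W (wordObj X w) (wordRep τ w (θ ^ R)) :=
    degZero_wordOp (fun i => hdeg i _) w
  have hU' : ∀ (N : ℕ), ∀ x ∈ W.gr (wordObj X w) (2 * n),
      ((wordOp W X (fun i => S i ^ R) w - algebraMap W.K _ (z ^ (R * (2 * n)))) ^ N) x =
        (z ^ (R * (2 * n))) ^ N • ((wordRep τ w (θ ^ R) - 1) ^ N) x ∧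
      ((wordRep τ w (θ ^ R) - 1) ^ N) x ∈ W.gr (wordObj X w) (2 * n) := by
    intro N
    induction N with
    | zero => intro x hx; exact ⟨by simp, by simpa using hx⟩
    | succ N ih =>
      intro x hx
      have h1 : (wordOp W X (fun i => S i ^ R) w - algebraMap W.K _ (z ^ (R * (2 * n)))) x =
          z ^ (R * (2 * n)) • (wordRep τ w (θ ^ R) - 1) x := by
        rw [LinearMap.sub_apply, hU x hx, LinearMap.sub_apply, Module.End.one_apply, smul_sub,
          Module.algebraMap_end_apply]
      have h2 : (wordRep τ w (θ ^ R) - 1) x ∈ W.gr (wordObj X w) (2 * n) := by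
        rw [LinearMap.sub_apply, Module.End.one_apply]
        exact Submodule.sub_mem _ (hUd _ x hx) hx
      obtain ⟨h3, h4⟩ := ih _ h2
      constructor
      · rw [pow_succ, Module.End.mul_apply, h1, map_smul, h3, smul_smul,
          pow_succ (wordRep τ w (θ ^ R) - 1), Module.End.mul_apply,
          pow_succ (z ^ (R * (2 * n))), mul_comm]
      · rw [pow_succ, Module.End.mul_apply]
        exact h4
  have hU0 : ((wordRep τ w (θ ^ R) - 1) ^ N') c = 0 := by
    have h1 := (hU' N' c hc2).1
    rw [hN'] at h1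
    exact (smul_eq_zero.mp h1.symm).resolve_left (pow_ne_zero _ (pow_ne_zero _ hz0))
  -- the class is fixed by the torus
  obtain ⟨y₁, y₂, Q, hy, hfix, hQ1, hQ⟩ := exists_decomp (σ := σ) (b := b) hT hθ hgen hR w c
  have hcy : c = y₁ := eq_of_coprime hy (hfix _ (T.pow_mem hθ R)) hQ1 hQ hU0
  have hcfix : ∀ t ∈ T, wordRep τ w t c = c := by
    intro t ht
    rw [hcy]; exact hfix t ht
  -- values of equivariant maps
  let U : I × Bool → Type _ := fun x => Module.End W.K (W.H (X x.1))
  let e : ∀ x : I × Bool, U x := fun x =>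
    if x.2 then τ x.1 (θ ^ R) else τ x.1 (θ ^ R)⁻¹
  have hτc : ∀ x : I × Bool, ContRep σ (conjRep (τ x.1)) := fun x =>
    contRep_conjRep (hρ.continuous x.1)
  have hωc : ContRep σ (wordRep τ w) :=
    contRep_wordRep (fun i => contRep_matRep (hρ.continuous i)) w
  have hmem := mem_span_equivariant (σ := σ) (U := U) (τ := fun x => conjRep (τ x.1))
    (ω := wordRep τ w) hτc hωc e (by
      rintro ⟨i, _ | _⟩ L
      · obtain ⟨L', hL'⟩ := star_conjRep (σ := σ) (b := b i) (hρ.unitary i) (θ ^ R)⁻¹ L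
        rw [inv_inv] at hL'
        exact ⟨⟨i, true⟩, L', hL'⟩
      · obtain ⟨L', hL'⟩ := star_conjRep (σ := σ) (b := b i) (hρ.unitary i) (θ ^ R) L
        exact ⟨⟨i, false⟩, L', hL'⟩) c (by
      intro g hg
      refine hcfix g (hT.central g fun t ht => ?_)
      have hinj : ∀ x y : G, (∀ i, ρ i x = ρ i y) → x = y := by
        intro x y hxy
        have h1 : x * y⁻¹ = 1 := hρ.faithful _ fun i => by
          rw [map_mul, hxy i, ← map_mul, mul_inv_cancel, map_one]
        exact mul_inv_eq_one.mp h1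
      refine hinj _ _ fun i => ?_
      -- `ρ i g` commutes with `ρ i (θ ^ R)`
      have h1 : τ i g * τ i (θ ^ R) * τ i g⁻¹ = τ i (θ ^ R) := hg ⟨i, true⟩
      have h2 : ρ i g * ρ i (θ ^ R) = ρ i (θ ^ R) * ρ i g := by
        have h3 : τ i (g * θ ^ R) = τ i (θ ^ R * g) := by
          rw [map_mul (τ i) (θ ^ R) g, ← h1, mul_assoc, mul_assoc, ← map_mul (τ i) g⁻¹ g,
            inv_mul_cancel, map_one, mul_one, map_mul]
        have h4 : ∀ x y : G, τ i x = τ i y → ρ i x = ρ i y := by
          intro x y hxy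
          ext j l
          have h5 : matOp σ (b i) (ρ i x) = matOp σ (b i) (ρ i y) := hxy
          rw [← coord_matOp (σ := σ) (b := b i) (ρ i x), h5, coord_matOp]
        rw [← map_mul, ← map_mul]
        exact h4 _ _ h3
      -- pass to the diagonalising basis
      have hPP := (hT.diag i).inv
      have hPP' := (hT.diag i).inv'
      set Ng := P' i * ρ i g * P i with hNg
      have hρg : ρ i g = P i * Ng * P' i := by
        rw [hNg]
        calc ρ i g = (P i * P' i) * ρ i g * (P i * P' i) := by rw [hPP', one_mul, mul_one]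
          _ = P i * (P' i * ρ i g * P i) * P' i := by simp only [mul_assoc]
      have h5 : Ng * Matrix.diagonal (fun j => lam i j (θ ^ R)) =
          Matrix.diagonal (fun j => lam i j (θ ^ R)) * Ng := by
        rw [← (hT.diag i).eq _ (T.pow_mem hθ R), hNg]
        calc P' i * ρ i g * P i * (P' i * ρ i (θ ^ R) * P i) =
            P' i * ρ i g * (P i * P' i) * ρ i (θ ^ R) * P i := by simp only [mul_assoc]
          _ = P' i * (ρ i g * ρ i (θ ^ R)) * P i := by rw [hPP', mul_one]; simp only [mul_assoc]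
          _ = P' i * (ρ i (θ ^ R) * ρ i g) * P i := by rw [h2]
          _ = P' i * ρ i (θ ^ R) * (P i * P' i) * ρ i g * P i := by
              rw [hPP', mul_one]; simp only [mul_assoc]
          _ = _ := by simp only [mul_assoc]
      have h6 : Ng * Matrix.diagonal (fun j => lam i j t) =
          Matrix.diagonal (fun j => lam i j t) * Ng := by
        ext j l
        rw [Matrix.mul_diagonal, Matrix.diagonal_mul]
        have h7 := congrFun (congrFun h5 j) l
        rw [Matrix.mul_diagonal, Matrix.diagonal_mul] at h7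
        by_cases h0 : Ng j l = 0
        · rw [h0, zero_mul, mul_zero]
        · have h8 : lam i l (θ ^ R) = lam i j (θ ^ R) := by
            rw [mul_comm] at h7
            exact mul_right_cancel₀ h0 h7
          rw [lam_pow hT hθ, lam_pow hT hθ] at h8
          rw [generic_eq hT hθ hgen hR h8 t ht, mul_comm]
      rw [map_mul, map_mul, hρg, (hT.diag i).eq' ht]
      calc P i * Ng * P' i * (P i * Matrix.diagonal (fun j => lam i j t) * P' i) =
          P i * Ng * (P' i * P i) * Matrix.diagonal (fun j => lam i j t) * P' i := by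
            simp only [mul_assoc]
        _ = P i * (Ng * Matrix.diagonal (fun j => lam i j t)) * P' i := by
            rw [hPP, mul_one]; simp only [mul_assoc]
        _ = P i * (Matrix.diagonal (fun j => lam i j t) * Ng) * P' i := by rw [h6]
        _ = P i * Matrix.diagonal (fun j => lam i j t) * (P' i * P i) * Ng * P' i := by
            rw [hPP, mul_one]; simp only [mul_assoc]
        _ = _ := by simp only [mul_assoc])
  -- conclusion
  have hgeom : ∀ x : I × Bool, e x ∈ geomEnd W (X x.1) := by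
    rintro ⟨i, _ | _⟩
    · exact act_mem_geomEnd hX hp hT hθ i (T.inv_mem (T.pow_mem hθ R)) fun j l h => by
        rw [lam_inv hT (T.pow_mem hθ R), lam_inv hT (T.pow_mem hθ R), lam_pow hT hθ,
          lam_pow hT hθ, h]
    · exact act_mem_geomEnd hX hp hT hθ i (T.pow_mem hθ R) fun j l h => by
        rw [lam_pow hT hθ, lam_pow hT hθ, h]
  have hfinal : proj (W.isInternal (wordObj X w)) (2 * n) c ∈ spanCycles W (wordObj X w) n := by
    refine Submodule.span_induction (p := fun y _ =>
      proj (W.isInternal (wordObj X w)) (2 * n) y ∈ spanCycles W (wordObj X w) n) ?_ ?_ ?_ ?_ hmem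
    · rintro y ⟨d, x, Ψ, hΨ, rfl⟩
      exact equivariant_algebraic τ hdeg (fun i g => hX.pairing i g) hX.tate_wordOp d
        (fun a => (x a).1) w Ψ hΨ _ (fun a => hgeom (x a)) n
    · rw [map_zero]; exact Submodule.zero_mem _
    · intro y y' _ _ hy hy'
      rw [map_add]; exact Submodule.add_mem _ hy hy'
    · intro a y _ hy
      rw [map_smul]; exact Submodule.smul_mem _ _ hy
  rwa [proj_same _ hc2] at hfinal

end

end Pool.Agent.Y136
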