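import Pool.Agent.Y136.MG.Bad

/-!
# Simultaneous diagonalisation of commuting unitary matrices, and densities
-/

open Module MeasureTheory Filter Topology Matrix
open scoped ComplexOrder

namespace Pool.Agent.Y136

section Diag

variable {J : Type*} [Fintype J] [DecidableEq J]

lemma mulVec_eq_zero_of_sq {U : Matrix J J ℂ} (hU : Uᴴ * U = U * Uᴴ) (c : ℂ)
    {x : J → ℂ} (hx : (U - Matrix.scalar J c) *ᵥ ((U - Matrix.scalar J c) *ᵥ x) = 0) :
    (U - Matrix.scalar J c) *ᵥ x = 0 := by
  set N := U - Matrix.scalar J c with hN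
  have hcomm : Nᴴ * N = N * Nᴴ := by
    have h3 : (Matrix.scalar J c)ᴴ = Matrix.scalar J (star c) := by
      simp [Matrix.scalar_apply, Matrix.diagonal_conjTranspose]
    have h4 : ∀ (A : Matrix J J ℂ) (z : ℂ), Matrix.scalar J z * A = A * Matrix.scalar J z :=
      fun A z => Matrix.scalar_commute z (fun r => mul_comm _ _) A
    rw [hN, Matrix.conjTranspose_sub, h3, sub_mul, mul_sub, mul_sub, sub_mul, mul_sub, mul_sub,
      hU, h4 U, ← h4 Uᴴ, h4 (Matrix.scalar J c)]
    abel
  have h1 : (N * Nᴴ) *ᵥ (N *ᵥ x) = 0 := by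
    rw [← hcomm, ← Matrix.mulVec_mulVec, hx, Matrix.mulVec_zero]
  have h2 : Nᴴ *ᵥ (N *ᵥ x) = 0 := (Matrix.self_mul_conjTranspose_mulVec_eq_zero N _).mp h1
  rw [Matrix.mulVec_mulVec] at h2
  exact (Matrix.conjTranspose_mul_self_mulVec_eq_zero N x).mp h2

lemma eigen_of_maxGen {U : Matrix J J ℂ} (hU : Uᴴ * U = U * Uᴴ) (c : ℂ)
    {x : J → ℂ} (hx : x ∈ Module.End.maxGenEigenspace (Matrix.toLin' U) c) : U *ᵥ x = c • x := by
  rw [Module.End.mem_maxGenEigenspace] at hx
  obtain ⟨k, hk⟩ := hx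
  have h1 : ∀ y : J → ℂ, (Matrix.toLin' U - c • 1) y = (U - Matrix.scalar J c) *ᵥ y := by
    intro y
    rw [LinearMap.sub_apply, Matrix.toLin'_apply, LinearMap.smul_apply, Module.End.one_apply,
      Matrix.sub_mulVec]
    congr 1
    rw [Matrix.scalar_apply, ← Matrix.smul_one_eq_diagonal, Matrix.smul_mulVec,
      Matrix.one_mulVec]
  have h2 : ∀ (k : ℕ) (y : J → ℂ), ((Matrix.toLin' U - c • 1) ^ k) y = 0 →
      (U - Matrix.scalar J c) *ᵥ y = 0 := by
    intro k
    induction k with
    | zero =>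
      intro y hy
      have : y = 0 := by simpa using hy
      rw [this, Matrix.mulVec_zero]
    | succ k ih =>
      intro y hy
      rw [pow_succ, Module.End.mul_apply, h1] at hy
      exact mulVec_eq_zero_of_sq hU c (ih _ hy)
  have h3 := h2 k x hk
  rw [← h1] at h3
  have h4 : Matrix.toLin' U x - c • x = 0 := h3
  rw [Matrix.toLin'_apply] at h4
  exact sub_eq_zero.mp h4

lemma norm_eigen {U : Matrix J J ℂ} (hU : U ∈ Matrix.unitaryGroup J ℂ) {c : ℂ} {x : J → ℂ}
    (hx0 : x ≠ 0) (hx : U *ᵥ x = c • x) : ‖c‖ = 1 := by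
  have h1 : star (U *ᵥ x) ⬝ᵥ (U *ᵥ x) = star x ⬝ᵥ x := by
    rw [Matrix.star_mulVec, Matrix.dotProduct_mulVec, Matrix.vecMul_vecMul,
      show Uᴴ * U = 1 from Matrix.mem_unitaryGroup_iff'.mp hU, Matrix.vecMul_one]
  rw [hx, star_smul, smul_dotProduct, dotProduct_smul, smul_eq_mul, smul_eq_mul,
    ← mul_assoc] at h1
  have h2 : star x ⬝ᵥ x ≠ 0 := fun h => hx0 (dotProduct_star_self_eq_zero.mp h)
  have h3 : star c * c = 1 := mul_right_cancel₀ h2 (by rw [h1, one_mul])
  have h4 : (starRingEnd ℂ) c * c = 1 := h3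
  rw [mul_comm, Complex.mul_conj, Complex.normSq_eq_norm_sq] at h4
  have h5 : ‖c‖ ^ 2 = 1 := by exact_mod_cast h4
  exact (pow_eq_one_iff_of_nonneg (norm_nonneg c) two_ne_zero).mp h5

/-- Commuting normal matrices are simultaneously diagonalisable. -/
theorem exists_diag_family {Y : Type*} (U : Y → Matrix J J ℂ) (hU : ∀ y, (U y)ᴴ * U y = U y * (U y)ᴴ)
    (hc : ∀ y y', U y * U y' = U y' * U y) :
    ∃ (P P' : Matrix J J ℂ) (lam : J → Y → ℂ), P' * P = 1 ∧
      (∀ y, U y * P = P * Matrix.diagonal fun j => lam j y) ∧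
      ∀ y j, U y *ᵥ (fun l => P l j) = lam j y • (fun l => P l j) := by
  classical
  let f : Y → End ℂ (J → ℂ) := fun t => Matrix.toLin' (U t)
  have hcomm : Pairwise fun i j => Commute (f i) (f j) := by
    intro t t' _
    show (Matrix.toLin' (U t)).comp (Matrix.toLin' (U t')) =
      (Matrix.toLin' (U t')).comp (Matrix.toLin' (U t))
    rw [← Matrix.toLin'_mul, ← Matrix.toLin'_mul, hc]
  have htop := Module.End.iSup_iInf_maxGenEigenspace_eq_top_of_iSup_maxGenEigenspace_eq_top_of_commute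
    f hcomm (fun t => Module.End.iSup_maxGenEigenspace_eq_top (f t))
  let E : Set (J → ℂ) := {v | ∀ t, ∃ c : ℂ, U t *ᵥ v = c • v}
  have hE : ⊤ ≤ Submodule.span ℂ E := by
    rw [← htop]
    refine iSup_le fun χ v hv => Submodule.subset_span ?_
    intro t
    exact ⟨χ t, eigen_of_maxGen (hU t) _ ((Submodule.mem_iInf _).mp hv t)⟩
  let b₀ := Basis.ofSpan hE
  have hb₀ : ∀ i, b₀ i ∈ E := fun i => Basis.ofSpan_subset hE ⟨i, rfl⟩
  have hfin : Finite ((linearIndepOn_empty ℂ id).extend (Set.empty_subset E)) :=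
    Module.Finite.finite_basis b₀
  have hcard : Nat.card ((linearIndepOn_empty ℂ id).extend (Set.empty_subset E)) =
      Nat.card J := by
    rw [← Module.finrank_eq_nat_card_basis b₀, Module.finrank_fintype_fun_eq_card,
      Nat.card_eq_fintype_card]
  obtain ⟨e⟩ : Nonempty (((linearIndepOn_empty ℂ id).extend (Set.empty_subset E)) ≃ J) :=
    Finite.card_eq.mp hcard
  let b := b₀.reindex e
  have hb : ∀ j, b j ∈ E := fun j => by
    rw [Basis.reindex_apply]; exact hb₀ _
  choose lam hlam using hb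
  have hcol : ∀ j, (fun l => (Pi.basisFun ℂ J).toMatrix b l j) = b j := by
    intro j
    funext l
    simp only [Basis.toMatrix_apply, Pi.basisFun_repr]
  refine ⟨(Pi.basisFun ℂ J).toMatrix b, b.toMatrix (Pi.basisFun ℂ J), lam,
    Basis.toMatrix_mul_toMatrix_flip _ _, ?_, ?_⟩
  · intro t
    ext i j
    have h2 := congrFun (hlam j t) i
    rw [Matrix.mul_diagonal]
    simp only [Basis.toMatrix_apply, Pi.basisFun_repr]
    rw [Pi.smul_apply, smul_eq_mul, mul_comm] at h2
    rw [← h2, Matrix.mulVec, dotProduct, Matrix.mul_apply]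
    simp only [Basis.toMatrix_apply, Pi.basisFun_repr]
  · intro t j
    rw [hcol j]
    exact hlam j t

variable {G : Type*} [Group G]

/-- Commuting unitary matrices which preserve the degrees of the indices are simultaneously
diagonalisable, by a matrix with homogeneous columns. -/
theorem exists_diagonalises (T : Subgroup G) (hT : ∀ t ∈ T, ∀ t' ∈ T, t * t' = t' * t)
    (R : G →* Matrix J J ℂ) (hR : ∀ t, R t ∈ Matrix.unitaryGroup J ℂ) (deg : J → ℕ)
    (hdeg : ∀ g j l, deg j ≠ deg l → R g j l = 0) :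
    ∃ (P P' : Matrix J J ℂ) (lam : J → G → ℂ) (deg' : J → ℕ), Diagonalises T R P P' lam ∧
      ∀ l j, P l j ≠ 0 → deg l = deg' j := by
  classical
  let U : Option T → Matrix J J ℂ := fun y => y.elim (Matrix.diagonal fun j => (deg j : ℂ))
    fun t => R t
  have hD : ∀ t : G, Matrix.diagonal (fun j => (deg j : ℂ)) * R t =
      R t * Matrix.diagonal fun j => (deg j : ℂ) := by
    intro t
    ext j l
    rw [Matrix.mul_diagonal, Matrix.diagonal_mul]
    by_cases h : deg j = deg l
    · rw [h, mul_comm]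
    · rw [hdeg t j l h, zero_mul, mul_zero]
  obtain ⟨P, P', lam, hPP, hP, hcol⟩ := exists_diag_family U (by
    rintro (_ | t)
    · show (Matrix.diagonal fun j => (deg j : ℂ))ᴴ * _ = _ * (Matrix.diagonal fun j => (deg j : ℂ))ᴴ
      have h1 : (Matrix.diagonal fun j => (deg j : ℂ))ᴴ = Matrix.diagonal fun j => (deg j : ℂ) := by
        rw [Matrix.diagonal_conjTranspose]
        congr 1
        funext j
        exact Complex.conj_natCast (deg j)
      rw [h1]
      rfl
    · show (R t)ᴴ * R t = R t * (R t)ᴴ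
      rw [show (R t)ᴴ * R t = 1 from Matrix.mem_unitaryGroup_iff'.mp (hR t),
        show R t * (R t)ᴴ = 1 from Matrix.mem_unitaryGroup_iff.mp (hR t)]) (by
    rintro (_ | t) (_ | t')
    · rfl
    · exact hD t'
    · exact (hD t).symm
    · show R t * R t' = R t' * R t
      rw [← map_mul, ← map_mul, hT t t.2 t' t'.2])
  have hcol0 : ∀ j, ∃ l, P l j ≠ 0 := by
    intro j
    by_contra hcon
    push Not at hcon
    have h1 := congrFun (congrFun hPP j) j
    rw [Matrix.mul_apply, Finset.sum_eq_zero fun l _ => by rw [hcon l, mul_zero],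
      Matrix.one_apply_eq] at h1
    exact zero_ne_one h1
  have hdegP : ∀ l j, P l j ≠ 0 → (deg l : ℂ) = lam j none := by
    intro l j h
    have h1 := congrFun (congrFun (hP none) l) j
    have h2 : (Matrix.diagonal (fun j => (deg j : ℂ)) * P) l j = (P * Matrix.diagonal
      fun j => lam j none) l j := h1
    rw [Matrix.mul_diagonal, Matrix.diagonal_mul, mul_comm] at h2
    exact mul_left_cancel₀ h h2
  refine ⟨P, P', fun j t => if h : t ∈ T then lam j (some ⟨t, h⟩) else 0,
    fun j => deg (hcol0 j).choose, ⟨hPP, ?_, ?_⟩, ?_⟩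
  · intro t ht
    have h1 : R t * P = P * Matrix.diagonal fun j => lam j (some ⟨t, ht⟩) := hP (some ⟨t, ht⟩)
    rw [mul_assoc, h1, ← mul_assoc, hPP, one_mul]
    congr 1
    funext j
    rw [dif_pos ht]
  · intro t ht j
    rw [dif_pos ht]
    refine norm_eigen (hR t) (x := fun l => P l j) ?_ (hcol (some ⟨t, ht⟩) j)
    intro h0
    obtain ⟨l, hl⟩ := hcol0 j
    exact hl (congrFun h0 l)
  · intro l j h
    have h1 := (hdegP l j h).trans (hdegP _ j (hcol0 j).choose_spec).symm
    exact_mod_cast h1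

end Diag

section Density

variable {G : Type*} [TopologicalSpace G] [Group G] [MeasurableSpace G] [BorelSpace G] (μ : Measure G) [IsFiniteMeasure μ]

/-- If the elements `θ s` are equidistributed, for continuous class functions, with respect to a
sequence of probability measures on the set of the parameters, then the measures of the zero set
of a continuous class function, whose zero set has measure zero, tend to zero. -/
theorem density_zero {S : Type*} [MeasurableSpace S] [DiscreteMeasurableSpace S] (θ : S → G)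
    {ι : Type*} (l : Filter ι) (P : ι → Measure S) [∀ i, IsProbabilityMeasure (P i)]
    (heq : ∀ f : C(G, ℝ), (∀ g k, f (k * g * k⁻¹) = f g) →
      Tendsto (fun i => ∫ s, f (θ s) ∂(P i)) l (𝓝 (∫ g, f g ∂μ)))
    (φ : C(G, ℂ)) (hφ : ∀ g k, φ (k * g * k⁻¹) = φ g) (h0 : μ {g | φ g = 0} = 0) :
    Tendsto (fun i => P i {s | φ (θ s) = 0}) l (𝓝 0) := by
  let f : ℕ → C(G, ℝ) := fun n => ⟨fun g => max 0 (1 - n * ‖φ g‖), by fun_prop⟩
  have hf0 : ∀ n g, 0 ≤ f n g := fun n g => le_max_left _ _
  have hf1 : ∀ n g, f n g ≤ 1 := fun n g => by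
    refine max_le zero_le_one ?_
    have : 0 ≤ (n : ℝ) * ‖φ g‖ := by positivity
    linarith
  -- the integrals tend to zero
  have hlim : Tendsto (fun n => ∫ g, f n g ∂μ) atTop (𝓝 0) := by
    have h1 : (0 : ℝ) = ∫ g, (0 : ℝ) ∂μ := by simp
    rw [h1]
    refine tendsto_integral_of_dominated_convergence (fun _ => (1 : ℝ))
      (fun n => (f n).continuous.aestronglyMeasurable) (integrable_const _) ?_ ?_
    · intro n
      refine Filter.Eventually.of_forall fun g => ?_
      rw [Real.norm_of_nonneg (hf0 n g)]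
      exact hf1 n g
    · have h2 : ∀ᵐ g ∂μ, φ g ≠ 0 := by
        rw [ae_iff]
        simpa using h0
      filter_upwards [h2] with g hg
      have hpos : 0 < ‖φ g‖ := norm_pos_iff.mpr hg
      obtain ⟨n, hn⟩ := exists_nat_gt (1 / ‖φ g‖)
      refine tendsto_const_nhds.congr' ?_
      filter_upwards [eventually_ge_atTop n] with k hk
      have h3 : (1 : ℝ) ≤ k * ‖φ g‖ := by
        have h4 : 1 / ‖φ g‖ < k := hn.trans_le (by exact_mod_cast hk)
        rw [div_lt_iff₀ hpos] at h4
        exact h4.le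
      show 0 = max 0 (1 - (k : ℝ) * ‖φ g‖)
      rw [max_eq_left (by linarith)]
  rw [ENNReal.tendsto_nhds_zero]
  intro ε hε
  by_cases hεt : ε = ⊤
  · rw [hεt]; simp
  have hε' : 0 < ε.toReal := ENNReal.toReal_pos hε.ne' hεt
  obtain ⟨n, hn⟩ := ((tendsto_order.mp hlim).2 _ hε').exists
  have h3 := heq (f n) (fun g k => by
    show max 0 (1 - (n : ℝ) * ‖φ (k * g * k⁻¹)‖) = max 0 (1 - (n : ℝ) * ‖φ g‖)
    rw [hφ])
  filter_upwards [(tendsto_order.mp h3).2 _ hn] with i hi
  have hint : Integrable (fun s => f n (θ s)) (P i) := by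
    refine Integrable.of_bound (Measurable.of_discrete).aestronglyMeasurable 1
      (Filter.Eventually.of_forall fun s => ?_)
    rw [Real.norm_of_nonneg (hf0 n _)]
    exact hf1 n _
  have h4 := mul_meas_ge_le_integral_of_nonneg
    (Filter.Eventually.of_forall fun s => hf0 n (θ s)) hint 1
  rw [one_mul] at h4
  have h5 : (P i).real {s | φ (θ s) = 0} ≤ (P i).real {s | 1 ≤ f n (θ s)} := by
    refine measureReal_mono fun s hs => ?_
    have h6 : φ (θ s) = 0 := hs
    show 1 ≤ max 0 (1 - (n : ℝ) * ‖φ (θ s)‖)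
    rw [h6]; simp
  have h6 : (P i).real {s | φ (θ s) = 0} ≤ ε.toReal := (h5.trans h4).trans hi.le
  rw [← ENNReal.ofReal_toReal (measure_ne_top (P i) _), ← ENNReal.ofReal_toReal hεt]
  exact ENNReal.ofReal_le_ofReal h6

end Density

end Pool.Agent.Y136
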