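import Pool.Agent.Y136.MG.Avg

/-!
# Vectors fixed by a stabiliser are values of equivariant multilinear maps
-/

open MeasureTheory Module

namespace Pool.Agent.Y136

section Equi

variable {F : Type*} [Field F] {σ : F ≃+* ℂ} {G : Type*} [Group G] [TopologicalSpace G]
  [IsTopologicalGroup G] {ι : Type*} {U : ι → Type*} [∀ i, AddCommGroup (U i)]
  [∀ i, Module F (U i)] (τ : ∀ i, Representation F G (U i)) {W : Type*} [AddCommGroup W]
  [Module F W] (ω : Representation F G W)

omit [TopologicalSpace G] [IsTopologicalGroup G] in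
/-- The multilinear map `Ψ` is equivariant. -/
def Equivariant {m : ℕ} (x : Fin m → ι) (Ψ : MultilinearMap F (fun a => U (x a)) W) : Prop :=
  ∀ (g : G) (u : ∀ a, U (x a)), Ψ (fun a => τ (x a) g (u a)) = ω g (Ψ u)

/-- The product of linear forms, translated by `g`. -/
noncomputable def prodForm {m : ℕ} (x : Fin m → ι) (lam : ∀ a, Dual F (U (x a))) (g : G) :
    MultilinearMap F (fun a => U (x a)) F :=
  (MultilinearMap.mkPiAlgebra F (Fin m) F).compLinearMap (fun a => lam a ∘ₗ τ (x a) g⁻¹)

omit [TopologicalSpace G] [IsTopologicalGroup G] in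
lemma prodForm_apply {m : ℕ} (x : Fin m → ι) (lam : ∀ a, Dual F (U (x a))) (g : G)
    (u : ∀ a, U (x a)) : prodForm τ x lam g u = ∏ a, lam a (τ (x a) g⁻¹ (u a)) := by
  simp [prodForm]

variable {τ ω}

lemma continuous_prodForm (hτ : ∀ i, ContRep σ (τ i)) {m : ℕ} (x : Fin m → ι)
    (lam : ∀ a, Dual F (U (x a))) (u : ∀ a, U (x a)) :
    Continuous fun g => σ (prodForm τ x lam g u) := by
  simp only [prodForm_apply, map_prod]
  exact continuous_finsetProd _ fun a _ => (hτ (x a) (lam a) (u a)).comp continuous_inv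

variable [CompactSpace G] [MeasurableSpace G] [BorelSpace G] (μ : Measure G)
  [IsFiniteMeasure μ] [FiniteDimensional F W]

lemma dual_vavg_prodForm (hτ : ∀ i, ContRep σ (τ i)) (hω : ContRep σ ω) {m : ℕ} (x : Fin m → ι)
    (lam : ∀ a, Dual F (U (x a))) (w' : W) (u : ∀ a, U (x a)) (M : Dual F W) :
    M (vavg σ μ (fun g => prodForm τ x lam g u • ω g w')) =
      avg σ μ (fun g => prodForm τ x lam g u * M (ω g w')) := by
  rw [dual_vavg]
  · simp only [map_smul, smul_eq_mul]
  · intro M
    simp only [map_smul, smul_eq_mul, map_mul]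
    exact (continuous_prodForm hτ x lam u).mul (hω M w')

/-- The mean value of the translates of a product of linear forms, times the translates of a
vector. -/
noncomputable def avgMap (hτ : ∀ i, ContRep σ (τ i)) (hω : ContRep σ ω) {m : ℕ} (x : Fin m → ι)
    (lam : ∀ a, Dual F (U (x a))) (w' : W) : MultilinearMap F (fun a => U (x a)) W where
  toFun u := vavg σ μ (fun g => prodForm τ x lam g u • ω g w')
  map_update_add' := by
    intro _ u i a b
    refine ext_dual (F := F) fun M => ?_
    rw [map_add]
    simp only [dual_vavg_prodForm μ hτ hω]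
    have h : Subsingleton (DecidableEq (Fin m)) := inferInstance
    rw [← avg_add]
    · congr 1
      funext g
      rw [MultilinearMap.map_update_add, add_mul]
    · simp only [map_mul]
      exact (continuous_prodForm hτ x lam _).mul (hω M w')
    · simp only [map_mul]
      exact (continuous_prodForm hτ x lam _).mul (hω M w')
  map_update_smul' := by
    intro _ u i c a
    refine ext_dual (F := F) fun M => ?_
    rw [map_smul]
    simp only [dual_vavg_prodForm μ hτ hω]
    rw [smul_eq_mul, ← avg_mul]
    congr 1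
    funext g
    rw [MultilinearMap.map_update_smul, smul_eq_mul, mul_assoc]

lemma dual_avgMap (hτ : ∀ i, ContRep σ (τ i)) (hω : ContRep σ ω) {m : ℕ} (x : Fin m → ι)
    (lam : ∀ a, Dual F (U (x a))) (w' : W) (u : ∀ a, U (x a)) (M : Dual F W) :
    M (avgMap μ hτ hω x lam w' u) = avg σ μ (fun g => prodForm τ x lam g u * M (ω g w')) :=
  dual_vavg_prodForm μ hτ hω x lam w' u M

lemma equivariant_avgMap [μ.IsMulLeftInvariant] (hτ : ∀ i, ContRep σ (τ i))
    (hω : ContRep σ ω) {m : ℕ} (x : Fin m → ι) (lam : ∀ a, Dual F (U (x a))) (w' : W) :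
    Equivariant τ ω x (avgMap μ hτ hω x lam w') := by
  intro h u
  refine ext_dual (F := F) fun M => ?_
  rw [dual_avgMap]
  have h2 : M (ω h (avgMap μ hτ hω x lam w' u)) = (M ∘ₗ ω h) (avgMap μ hτ hω x lam w' u) := rfl
  rw [h2, dual_avgMap, ← avg_translate (μ := μ) (a := h)]
  congr 1
  funext g
  rw [prodForm_apply, prodForm_apply]
  congr 1
  · refine Finset.prod_congr rfl fun a _ => ?_
    congr 1
    rw [← Module.End.mul_apply, ← map_mul]
    congr 2
    group
  · rw [map_mul]; rfl

end Equi

end Pool.Agent.Y136
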