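import Pool.Agent.H914R2.ExtOp
import Pool.Agent.Y136.MG.Defs

/-!
# Families with compact monodromy groups: operators on products
-/

open CategoryTheory AlgebraicGeometry Polynomial

universe u v

namespace Pool.Agent.Y136

open Pool.Agent.H914 Pool.Agent.W534 VarClass Obj WeilCohomology

/-- The operator on the cohomology of a product of the varieties `X i` induced, by the Kunneth
formula, by operators on the cohomology of the varieties `X i`. -/
noncomputable def wordOp {k : Type u} [Field k] {𝒱 : VarClass k} {ops : CycleOps 𝒱}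
    (W : WeilCohomology.{u, v} ops) {I : Type} (X : I → 𝒱.Obj)
    (A : ∀ i, Module.End W.K (W.H (X i))) :
    ∀ w : FreeMagma I, Module.End W.K (W.H (wordObj X w))
  | .of i => A i
  | .mul v w => extOp W (wordOp W X A v) (wordOp W X A w)

/-- The varieties `X i`, with the endomorphisms `fr i` and the bases `b i`, are the members, over
the field with `p ^ m` elements, of families with monodromy group `G` (all the conditions of
`IsMonodromy` and `IsFrobenius`). -/
structure IsFibre {k : Type u} [Field k] {𝒱 : VarClass k} {ops : CycleOps 𝒱}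
    {W : WeilCohomology.{u, v} ops} {p : ℕ} (Φ : FrobSystem W p) (σ : W.K ≃+* ℂ) {G : Type*}
    [Group G] {I : Type} {J : I → Type} [∀ i, Fintype (J i)] [∀ i, DecidableEq (J i)]
    (deg : ∀ i, J i → ℕ) (ρ : ∀ i, G →* Matrix (J i) (J i) ℂ) (D m : ℕ) (θ : G)
    (X : I → 𝒱.Obj) (fr : ∀ i, X i ⟶ X i) (b : ∀ i, Module.Basis (J i) W.K (W.H (X i))) :
    Prop where
  pos : 0 < m
  frobenius : ∀ i, ∃ a c : ℕ, 0 < a ∧ 0 < c ∧ a * m = c * Φ.e (X i) ∧
    W534.iter (fr i) a = W534.iter (Φ.Fr (X i)) c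
  homogeneous : ∀ i j, b i j ∈ W.gr (X i) (deg i j)
  pairing : ∀ i g x y, W.tr (X i) (matOp σ (b i) (ρ i g) x * matOp σ (b i) (ρ i g) y) =
    W.tr (X i) (x * y)
  commute : ∀ i, Commute (W.map (fr i)).toLinearMap
    (matOp σ (b i) (frobMat (p ^ m) (deg i) (ρ i θ)))
  nilpotent : ∀ i, IsNilpotent ((W.map (fr i)).toLinearMap -
    matOp σ (b i) (frobMat (p ^ m) (deg i) (ρ i θ)))
  integral : ∀ i n, ∃ h : ℤ[X], charpolyOn (W.map (fr i)).toLinearMap (W.gr (X i) n) =
    h.map (Int.castRingHom W.K)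
  slopes : ∀ i (α : W.K), Module.End.HasEigenvalue (W.map (fr i)).toLinearMap α →
    ∀ v : ValuationSubring W.K, ∃ u : ℤ, α ^ D / ((p : W.K) ^ m) ^ u ∈ v ∧
      ((p : W.K) ^ m) ^ u / α ^ D ∈ v
  tate_wordOp : ∀ (w : FreeMagma I) (n : ℕ), ∀ c ∈ W.gr (wordObj X w) (2 * n),
    (∀ g, wordOp W X (fun i => matOp σ (b i) (ρ i g)) w c = c) →
      c ∈ spanCycles W (wordObj X w) n

variable {k : Type u} [Field k] {𝒱 : VarClass k} {ops : CycleOps 𝒱}

/-- The operators induced by the Kunneth formula. -/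
lemma isWordOps_wordOp (W : WeilCohomology.{u, v} ops) {I : Type} (X : I → 𝒱.Obj)
    (A : ∀ i, Module.End W.K (W.H (X i))) : IsWordOps W X A (wordOp W X A) := by
  refine ⟨fun i => rfl, fun v w a b => ?_⟩
  exact extOp_tmul (W := W) (wordOp W X A v) (wordOp W X A w) a b

/-- The conditions on the monodromy group and on the Frobenius endomorphisms together. -/
lemma isFibre_of {W : WeilCohomology.{u, v} ops} {p : ℕ} {Φ : FrobSystem W p}
    {σ : W.K ≃+* ℂ} {G : Type*} [Group G] {I : Type} {J : I → Type} [∀ i, Fintype (J i)]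
    [∀ i, DecidableEq (J i)] {deg : ∀ i, J i → ℕ} {ρ : ∀ i, G →* Matrix (J i) (J i) ℂ}
    {D m : ℕ} {θ : G} {X : I → 𝒱.Obj} {fr : ∀ i, X i ⟶ X i}
    {b : ∀ i, Module.Basis (J i) W.K (W.H (X i))} (hm : 0 < m)
    (hX : IsMonodromy W σ deg ρ X b)
    (hF : ∀ i, IsFrobenius Φ σ D m (fr i) (deg i) (b i) (ρ i θ)) :
    IsFibre Φ σ deg ρ D m θ X fr b where
  pos := hm
  frobenius i := (hF i).frobenius
  homogeneous := hX.homogeneous
  pairing i g x y := hX.pairing i g x y
  commute i := (hF i).isFrobOp.commute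
  nilpotent i := (hF i).isFrobOp.nilpotent
  integral i := (hF i).isFrobOp.integral
  slopes i := (hF i).isFrobOp.slopes
  tate_wordOp w n c hc h := hX.tate w n c hc fun g => ⟨_, isWordOps_wordOp W X _, h g⟩

end Pool.Agent.Y136
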