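import Mathlib

/-!
# Semisimple parts of operators
-/

open Module Polynomial

namespace Pool.Agent.Y136

variable {F : Type*} [Field F] {V : Type*} [AddCommGroup V] [Module F V]

/-- Two operators which agree on a spanning family of vectors are equal. -/
lemma end_ext {J : Type*} {v : J → V} (hv : Submodule.span F (Set.range v) = ⊤)
    {A B : End F V} (h : ∀ j, A (v j) = B (v j)) : A = B :=
  LinearMap.ext_on_range hv h

lemma aeval_eigen {S : End F V} {x : V} {c : F} (h : S x = c • x) (P : F[X]) :
    aeval S P x = P.eval c • x := by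
  induction P using Polynomial.induction_on' with
  | add p q hp hq => rw [map_add, LinearMap.add_apply, hp, hq, eval_add, add_smul]
  | monomial n a =>
    rw [aeval_monomial, eval_monomial]
    have h1 : ∀ n : ℕ, (S ^ n) x = c ^ n • x := by
      intro n
      induction n with
      | zero => simp
      | succ n ih => rw [pow_succ, End.mul_apply, h, map_smul, ih, smul_smul, pow_succ, mul_comm]
    show algebraMap F (End F V) a ((S ^ n) x) = _
    rw [h1, Module.algebraMap_end_apply, smul_smul]

/-- An operator which is diagonal in an eigenbasis of `S`, with eigenvalues depending only on the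
eigenvalues of `S`, is a polynomial in `S`. -/
lemma exists_aeval {J : Type*} [Finite J] {v : J → V}
    (hv : Submodule.span F (Set.range v) = ⊤) {S A : End F V} {μ ν : J → F}
    (hS : ∀ j, S (v j) = μ j • v j) (hA : ∀ j, A (v j) = ν j • v j)
    (h : ∀ j l, μ j = μ l → ν j = ν l) : ∃ P : F[X], A = aeval S P := by
  classical
  have := Fintype.ofFinite J
  let r : F → F := fun z => if hz : ∃ j, μ j = z then ν hz.choose else 0
  have hr : ∀ j, r (μ j) = ν j := by
    intro j
    have hz : ∃ l, μ l = μ j := ⟨j, rfl⟩
    show (if hz : ∃ l, μ l = μ j then ν hz.choose else 0) = ν j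
    rw [dif_pos hz]
    exact h _ _ hz.choose_spec
  let s : Finset F := Finset.univ.image μ
  refine ⟨Lagrange.interpolate s id r, end_ext hv fun j => ?_⟩
  rw [aeval_eigen (hS j), hA j]
  have h1 : eval (id (μ j)) (Lagrange.interpolate s id r) = r (μ j) :=
    Lagrange.eval_interpolate_at_node r Function.injective_id.injOn
      (Finset.mem_image_of_mem _ (Finset.mem_univ j))
  rw [id] at h1
  rw [h1, hr]

/-- A diagonalisable operator is semisimple. -/
lemma isSemisimple_of_eigenbasis {J : Type*} [Finite J] {v : J → V}
    (hv : Submodule.span F (Set.range v) = ⊤) {S : End F V} {μ : J → F}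
    (hS : ∀ j, S (v j) = μ j • v j) : S.IsSemisimple := by
  classical
  have := Fintype.ofFinite J
  let s : Finset F := Finset.univ.image μ
  refine Module.End.isSemisimple_of_squarefree_aeval_eq_zero (p := ∏ c ∈ s, (X - C c)) ?_ ?_
  · have h1 : (∏ c ∈ s, (X - C c)).Separable :=
      separable_prod_X_sub_C_iff'.mpr fun x _ y _ h => h
    exact h1.squarefree
  · refine end_ext hv fun j => ?_
    rw [aeval_eigen (hS j), eval_prod, Finset.prod_eq_zero
      (Finset.mem_image_of_mem μ (Finset.mem_univ j)) (by simp), zero_smul, LinearMap.zero_apply]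

/-- If `S` is diagonalisable and commutes with `f`, and `f - S` is nilpotent, then `S` is a
polynomial in `f`. -/
lemma mem_adjoin_of_semisimple [FiniteDimensional F V] [PerfectField F] {f S : End F V}
    (hS : S.IsSemisimple) (hc : Commute f S) (hn : IsNilpotent (f - S)) :
    S ∈ Algebra.adjoin F {f} := by
  obtain ⟨n, hnf, s, hsf, hnn, hss, hf⟩ := Module.End.exists_isNilpotent_isSemisimple (f := f)
  have hSf : ∀ y ∈ Algebra.adjoin F {f}, Commute y S := by
    intro y hy
    refine Algebra.adjoin_induction (p := fun y _ => Commute y S) ?_ ?_ ?_ ?_ hy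
    · intro x hx
      rw [Set.mem_singleton_iff.mp hx]; exact hc
    · intro r; exact Algebra.commutes r S
    · intro x y _ _ hx hy; exact hx.add_left hy
    · intro x y _ _ hx hy; exact hx.mul_left hy
  have h1 : S - s = n - (f - S) := by rw [hf]; abel
  have hcn : Commute n (f - S) := by
    refine Commute.sub_right ?_ (hSf n hnf)
    have hcf : ∀ y ∈ Algebra.adjoin F {f}, Commute y f := by
      intro y hy
      refine Algebra.adjoin_induction (p := fun y _ => Commute y f) ?_ ?_ ?_ ?_ hy
      · intro x hx
        rw [Set.mem_singleton_iff.mp hx]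
      · intro r; exact Algebra.commutes r f
      · intro x y _ _ hx hy; exact hx.add_left hy
      · intro x y _ _ hx hy; exact hx.mul_left hy
    exact hcf n hnf
  have h2 : IsNilpotent (S - s) := by rw [h1]; exact hcn.isNilpotent_sub hnn hn
  have h3 : (S - s).IsSemisimple := hS.sub_of_commute (hSf s hsf).symm hss
  have h4 := Module.End.eq_zero_of_isNilpotent_isSemisimple h2 h3
  rw [sub_eq_zero.mp h4]
  exact hsf

/-- A vector killed by a power of `A - c` is killed by a power of `B - c` if `A - B` is nilpotent
and commutes with `A`. -/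
lemma pow_sub_apply_eq_zero {A B : End F V} (hc : Commute A B) (hn : IsNilpotent (A - B))
    {c : F} {x : V} {N : ℕ} (hx : ((A - algebraMap F _ c) ^ N) x = 0) :
    ∃ N' : ℕ, ((B - algebraMap F _ c) ^ N') x = 0 := by
  obtain ⟨K, hK⟩ := hn
  have h1 : B - algebraMap F (End F V) c = -(A - B) + (A - algebraMap F (End F V) c) := by abel
  have hcc : Commute (-(A - B)) (A - algebraMap F (End F V) c) := by
    refine Commute.neg_left ?_
    refine Commute.sub_right ?_ ((Algebra.commutes c (A - B)).symm)
    exact Commute.sub_left (Commute.refl A) hc.symm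
  refine ⟨K + N, ?_⟩
  rw [h1, hcc.add_pow, LinearMap.sum_apply]
  refine Finset.sum_eq_zero fun m hm => ?_
  have hm' : m ≤ K + N := Nat.lt_succ_iff.mp (Finset.mem_range.mp hm)
  rw [← nsmul_eq_mul', LinearMap.smul_apply, End.mul_apply]
  by_cases hmK : K ≤ m
  · have h2 : (-(A - B)) ^ m = 0 := by
      rw [neg_pow, show m = K + (m - K) by omega, pow_add (A - B), hK, zero_mul, mul_zero]
    rw [h2, LinearMap.zero_apply, smul_zero]
  · have h2 : ((A - algebraMap F (End F V) c) ^ (K + N - m)) x = 0 := by
      rw [show K + N - m = (K - m) + N by omega, pow_add, End.mul_apply, hx, map_zero]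
    rw [h2, map_zero, smul_zero]

/-- A vector killed by a power of `U - 1` which is the sum of a vector fixed by `U` and a vector
killed by `P(U)` with `P(1) ≠ 0` is equal to the former. -/
lemma eq_of_coprime {U : End F V} {x y z : V} (hx : x = y + z) (hy : U y = y) {P : F[X]}
    (hP : P.eval 1 ≠ 0) (hz : aeval U P z = 0) {N : ℕ} (hN : ((U - 1) ^ N) x = 0) : x = y := by
  have h1 : ((U - 1) ^ (N + 1)) z = 0 := by
    have h2 : z = x - y := by rw [hx]; abel
    rw [h2, map_sub, pow_succ', End.mul_apply, hN, map_zero, zero_sub, ← pow_succ', pow_succ,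
      End.mul_apply]
    have h3 : (U - 1) y = 0 := by rw [LinearMap.sub_apply, hy, End.one_apply, sub_self]
    rw [h3, map_zero, neg_zero]
  have h2 : IsCoprime ((X - C (1 : F)) ^ (N + 1)) P := by
    refine IsCoprime.pow_left ?_
    rw [(irreducible_X_sub_C (1 : F)).coprime_iff_not_dvd, dvd_iff_isRoot]
    exact hP
  obtain ⟨a, b, hab⟩ := h2
  have h3 : z = 0 := by
    have h4 : aeval U (a * (X - C (1 : F)) ^ (N + 1) + b * P) z = z := by
      rw [hab, map_one, End.one_apply]
    rw [← h4, map_add, LinearMap.add_apply, map_mul, map_mul, End.mul_apply, End.mul_apply, hz,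
      map_zero, add_zero, map_pow, map_sub, aeval_X, aeval_C, map_one, h1, map_zero]
  rw [hx, h3, add_zero]

end Pool.Agent.Y136
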