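import Pool.Agent.Y136.MG.MatOp
import Pool.Agent.Y136.MG.Curry
import Pool.Agent.Y136.MG.Semi

/-!
# Geometry of the fibres
-/

open CategoryTheory AlgebraicGeometry Polynomial

universe u v

namespace Pool.Agent.Y136

open Pool.Agent.H914 Pool.Agent.W534 VarClass Obj WeilCohomology

variable {k : Type u} [Field k] {𝒱 : VarClass k} {ops : CycleOps 𝒱}
  {W : WeilCohomology.{u, v} ops}

lemma degZero_of_basis {Z : 𝒱.Obj} {J : Type*} [Fintype J] (b : Module.Basis J W.K (W.H Z))
    {deg : J → ℕ} (hb : ∀ j, b j ∈ W.gr Z (deg j)) {A : Module.End W.K (W.H Z)}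
    (hA : ∀ j, A (b j) ∈ W.gr Z (deg j)) : DegZero W Z A := by
  intro n x hx
  have h1 : A x = ∑ j, b.repr x j • A (proj (W.isInternal Z) n (b j)) := by
    conv_lhs => rw [← proj_same (W.isInternal Z) hx, ← b.sum_repr x]
    simp only [map_sum, map_smul]
  rw [h1]
  refine Submodule.sum_mem _ fun j _ => Submodule.smul_mem _ _ ?_
  by_cases hj : deg j = n
  · rw [← hj, proj_same _ (hb j)]; exact hA j
  · rw [proj_ne _ (hb j) hj, map_zero]; exact Submodule.zero_mem _

/-- Scalars on the homogeneous parts of the cohomology of products. -/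
lemma wordOp_scalar {I : Type} {X : I → 𝒱.Obj} {A : ∀ i, Module.End W.K (W.H (X i))} {c : W.K}
    (hA : ∀ i n, ∀ x ∈ W.gr (X i) n, A i x = c ^ n • x) (w : FreeMagma I) :
    ∀ n, ∀ x ∈ W.gr (wordObj X w) n, wordOp W X A w x = c ^ n • x := by
  induction w with
  | ih1 i => exact hA i
  | ih2 v w hv hw =>
    intro n x hx
    have key : ∀ y : W.H ((wordObj X v).prod (wordObj X w)),
        extOp W (wordOp W X A v) (wordOp W X A w) (proj (W.isInternal _) n y) =
          c ^ n • proj (W.isInternal _) n y := by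
      intro y
      refine W.kunneth_induction (p := fun y =>
        extOp W (wordOp W X A v) (wordOp W X A w) (proj (W.isInternal _) n y) =
          c ^ n • proj (W.isInternal _) n y) ?_ ?_ y
      · intro a b ha hb
        simp only [map_add, smul_add, ha, hb]
      · intro i j a ha b hb
        by_cases hn : i + j = n
        · subst hn
          rw [proj_same _ (gr_prod ha hb), extOp_tmul, hv i a ha, hw j b hb, map_smul,
            map_smul, smul_mul_smul_comm, pow_add]
        · rw [proj_ne _ (gr_prod ha hb) hn, map_zero, smul_zero]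
    have h1 := key x
    rw [proj_same (W.isInternal ((wordObj X v).prod (wordObj X w))) hx] at h1
    exact h1

/-! ### Continuity -/

section Cont

variable {σ : W.K ≃+* ℂ} {G : Type*} [Group G] [TopologicalSpace G]

omit [Group G] in
lemma continuous_bilin {Y Z V : Type*} [AddCommGroup Y] [Module W.K Y] [AddCommGroup Z]
    [Module W.K Z] [AddCommGroup V] [Module W.K V] [FiniteDimensional W.K Y]
    [FiniteDimensional W.K Z] (B : Y →ₗ[W.K] Z →ₗ[W.K] V) {α : G → Y} {β : G → Z}
    (hα : ∀ L : Module.Dual W.K Y, Continuous fun g => σ (L (α g)))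
    (hβ : ∀ L : Module.Dual W.K Z, Continuous fun g => σ (L (β g))) (L : Module.Dual W.K V) :
    Continuous fun g => σ (L (B (α g) (β g))) := by
  let y := Module.finBasis W.K Y
  let z := Module.finBasis W.K Z
  have h1 : ∀ g, σ (L (B (α g) (β g))) = ∑ i, ∑ j, σ (y.coord i (α g)) * σ (z.coord j (β g)) *
      σ (L (B (y i) (z j))) := by
    intro g
    conv_lhs => rw [← y.sum_repr (α g), ← z.sum_repr (β g)]
    simp only [map_sum, LinearMap.sum_apply, map_smul, LinearMap.smul_apply, smul_eq_mul,
      map_mul, Finset.mul_sum]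
    rw [Finset.sum_comm]
    refine Finset.sum_congr rfl fun i _ => Finset.sum_congr rfl fun j _ => ?_
    rw [Module.Basis.coord_apply, Module.Basis.coord_apply]
    ring
  simp only [h1]
  exact continuous_finsetSum _ fun i _ => continuous_finsetSum _ fun j _ =>
    ((hα _).mul (hβ _)).mul continuous_const

lemma contRep_wordRep {I : Type} {X : I → 𝒱.Obj} {τ : ∀ i, Representation W.K G (W.H (X i))}
    (hτ : ∀ i, ContRep σ (τ i)) (w : FreeMagma I) : ContRep σ (wordRep τ w) := by
  induction w with
  | ih1 i => exact hτ i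
  | ih2 v w hv hw =>
    intro L u
    have key : ∀ (L : Module.Dual W.K (W.H ((wordObj X v).prod (wordObj X w))))
        (y : W.H ((wordObj X v).prod (wordObj X w))), Continuous fun g =>
        σ (L (extOp W (wordRep τ v g) (wordRep τ w g) y)) := by
      intro L y
      refine W.kunneth_induction (p := fun y => Continuous fun g =>
        σ (L (extOp W (wordRep τ v g) (wordRep τ w g) y))) ?_ ?_ y
      · intro a b ha hb
        simp only [map_add]
        exact ha.add hb
      · intro i j a _ b _
        simp only [extOp_tmul]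
        exact continuous_bilin ((LinearMap.mul W.K (W.H ((wordObj X v).prod (wordObj X w)))).compl₁₂
          (W.map (fst (wordObj X v) (wordObj X w))).toLinearMap
          (W.map (snd (wordObj X v) (wordObj X w))).toLinearMap) (fun L => hv L a)
          (fun L => hw L b) L
    exact key L u

end Cont

/-! ### Frobenius endomorphisms of products -/

section Frob

lemma map_iter_eq_pow {Z : 𝒱.Obj} (f : Z ⟶ Z) (n : ℕ) :
    (W.map (W534.iter f n)).toLinearMap = (W.map f).toLinearMap ^ n := by
  induction n with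
  | zero =>
    rw [pow_zero]
    exact LinearMap.ext fun x => W.map_id Z x
  | succ n ih =>
    refine LinearMap.ext fun x => ?_
    have h1 : W.map (W534.iter f (n + 1)) x = W.map (W534.iter f n) (W.map f x) :=
      W.map_comp (W534.iter f n) f x
    rw [AlgHom.toLinearMap_apply, h1, pow_succ, Module.End.mul_apply, ← ih]
    rfl

lemma iter_comp {Z Z' : 𝒱.Obj} {f : Z ⟶ Z} {g : Z' ⟶ Z'} {π : Z ⟶ Z'} {a b : ℕ}
    (h : W534.iter f a ≫ π = π ≫ W534.iter g b) (c : ℕ) (x : W.H Z') :
    ((W.map f).toLinearMap ^ (a * c)) (W.map π x) =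
      W.map π (((W.map g).toLinearMap ^ (b * c)) x) := by
  have h1 : ∀ x : W.H Z', ((W.map f).toLinearMap ^ a) (W.map π x) =
      W.map π (((W.map g).toLinearMap ^ b) x) := by
    intro x
    rw [← map_iter_eq_pow, ← map_iter_eq_pow, AlgHom.toLinearMap_apply, AlgHom.toLinearMap_apply,
      ← W.map_comp, ← W.map_comp, h]
  induction c generalizing x with
  | zero => simp
  | succ c ih =>
    rw [mul_add, mul_one, mul_add, mul_one, pow_add, pow_add, Module.End.mul_apply, h1, ih,
      Module.End.mul_apply]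

variable {p : ℕ} {Φ : FrobSystem W p} {I : Type} {X : I → 𝒱.Obj} {fr : ∀ i, X i ⟶ X i} {m : ℕ}

lemma pow_mul_apply {Z : 𝒱.Obj} (f : Z ⟶ Z) (n : ℕ) (x y : W.H Z) :
    ((W.map f).toLinearMap ^ n) (x * y) =
      ((W.map f).toLinearMap ^ n) x * ((W.map f).toLinearMap ^ n) y := by
  rw [← map_iter_eq_pow]
  exact map_mul (W.map (W534.iter f n)) x y

/-- On the cohomology of a product of the varieties `X i` some power of the Frobenius endomorphism
is the operator induced by powers of the Frobenius endomorphisms `fr i`. -/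
lemma frob_word (hm : 0 < m) (hfr : ∀ i, ∃ a c : ℕ, 0 < a ∧ 0 < c ∧ a * m = c * Φ.e (X i) ∧
    W534.iter (fr i) a = W534.iter (Φ.Fr (X i)) c) (w : FreeMagma I) :
    ∃ A r : ℕ, 0 < A ∧ 0 < r ∧ A * Φ.e (wordObj X w) = r * m ∧
      (W.map (Φ.Fr (wordObj X w))).toLinearMap ^ A =
        wordOp W X (fun i => (W.map (fr i)).toLinearMap ^ r) w := by
  induction w with
  | ih1 i =>
    obtain ⟨a, c, ha, hc, hac, h⟩ := hfr i
    refine ⟨c, a, hc, ha, hac.symm, ?_⟩
    have h1 : (W.map (W534.iter (fr i) a)).toLinearMap =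
        (W.map (W534.iter (Φ.Fr (X i)) c)).toLinearMap := by rw [h]
    rw [map_iter_eq_pow, map_iter_eq_pow] at h1
    exact h1.symm
  | ih2 v w hv hw =>
    obtain ⟨A₁, r₁, hA₁, hr₁, he₁, h₁⟩ := hv
    obtain ⟨A₂, r₂, hA₂, hr₂, he₂, h₂⟩ := hw
    obtain ⟨a, b, ha, hab, hf⟩ := Φ.comm (fst (wordObj X v) (wordObj X w))
    obtain ⟨a', b', ha', hab', hf'⟩ := Φ.comm (snd (wordObj X v) (wordObj X w))
    have hb : 0 < b := by
      by_contra hcon
      have hb0 : b = 0 := by omega
      rw [hb0, zero_mul] at hab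
      have := Nat.mul_pos ha (Φ.e_pos ((wordObj X v).prod (wordObj X w)))
      omega
    let r := r₁ * (b * a' * A₂)
    have hr : r₂ * (b' * a * A₁) = r := by
      have h3 : r * m = r₂ * (b' * a * A₁) * m := by
        calc r * m = (b * a' * A₂) * (r₁ * m) := by simp only [r]; ring
          _ = (b * a' * A₂) * (A₁ * Φ.e (wordObj X v)) := by rw [he₁]
          _ = (a' * A₁ * A₂) * (b * Φ.e (wordObj X v)) := by ring
          _ = (a' * A₁ * A₂) * (a * Φ.e ((wordObj X v).prod (wordObj X w))) := by rw [hab]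
          _ = (a * A₁ * A₂) * (a' * Φ.e ((wordObj X v).prod (wordObj X w))) := by ring
          _ = (a * A₁ * A₂) * (b' * Φ.e (wordObj X w)) := by rw [hab']
          _ = (b' * a * A₁) * (A₂ * Φ.e (wordObj X w)) := by ring
          _ = (b' * a * A₁) * (r₂ * m) := by rw [he₂]
          _ = r₂ * (b' * a * A₁) * m := by ring
      exact (Nat.eq_of_mul_eq_mul_right hm h3).symm
    refine ⟨a * (a' * A₁ * A₂), r, by positivity, by positivity, ?_, ?_⟩
    · show a * (a' * A₁ * A₂) * Φ.e ((wordObj X v).prod (wordObj X w)) = r * m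
      calc a * (a' * A₁ * A₂) * Φ.e ((wordObj X v).prod (wordObj X w)) =
          (a' * A₁ * A₂) * (a * Φ.e ((wordObj X v).prod (wordObj X w))) := by ring
        _ = (a' * A₁ * A₂) * (b * Φ.e (wordObj X v)) := by rw [hab]
        _ = (b * a' * A₂) * (A₁ * Φ.e (wordObj X v)) := by ring
        _ = (b * a' * A₂) * (r₁ * m) := by rw [he₁]
        _ = r * m := by simp only [r]; ring
    · show (W.map (Φ.Fr ((wordObj X v).prod (wordObj X w)))).toLinearMap ^ (a * (a' * A₁ * A₂)) =
        extOp W (wordOp W X (fun i => (W.map (fr i)).toLinearMap ^ r) v)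
          (wordOp W X (fun i => (W.map (fr i)).toLinearMap ^ r) w)
      refine ext_kunneth_lin fun x y => ?_
      have h4 : wordOp W X (fun i => (W.map (fr i)).toLinearMap ^ r) v =
          (W.map (Φ.Fr (wordObj X v))).toLinearMap ^ (A₁ * (b * a' * A₂)) := by
        rw [pow_mul, h₁, ← wordOp_pow]
        congr 1
        funext i
        rw [← pow_mul]
      have h5 : wordOp W X (fun i => (W.map (fr i)).toLinearMap ^ r) w =
          (W.map (Φ.Fr (wordObj X w))).toLinearMap ^ (A₂ * (b' * a * A₁)) := by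
        rw [pow_mul, h₂, ← wordOp_pow]
        congr 1
        funext i
        rw [← pow_mul, hr]
      rw [extOp_tmul, h4, h5, pow_mul_apply, iter_comp hf,
        show a * (a' * A₁ * A₂) = a' * (a * A₁ * A₂) by ring, iter_comp hf',
        show b * (a' * A₁ * A₂) = A₁ * (b * a' * A₂) by ring,
        show b' * (a * A₁ * A₂) = A₂ * (b' * a * A₁) by ring]

end Frob

end Pool.Agent.Y136
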