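import Pool.Agent.Y136.MG.Equi

/-!
# The Stone-Weierstrass argument
-/

open MeasureTheory Module

namespace Pool.Agent.Y136

/-- If a continuous function `h` on a compact space is orthogonal to a self-adjoint algebra of
continuous functions containing the functions `c k`, then it is orthogonal to all the continuous
functions which are constant on the common fibres of the functions `c k`. -/
theorem integral_eq_zero_of_fibres {G : Type*} [TopologicalSpace G] [CompactSpace G]
    [MeasurableSpace G] [BorelSpace G] (μ : Measure G) [IsFiniteMeasure μ] {κ : Type*}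
    (c : κ → C(G, ℂ)) (A : StarSubalgebra ℂ C(G, ℂ)) (hc : ∀ k, c k ∈ A) (h : C(G, ℂ))
    (hA : ∀ ψ ∈ A, ∫ g, ψ g * h g ∂μ = 0) (ψ : C(G, ℂ))
    (hψ : ∀ g g', (∀ k, c k g = c k g') → ψ g = ψ g') : ∫ g, ψ g * h g ∂μ = 0 := by
  classical
  let q : G → κ → ℂ := fun g k => c k g
  have hq : Continuous q := continuous_pi fun k => (c k).continuous
  let X := Set.range q
  have : CompactSpace X := isCompact_iff_compactSpace.mp (isCompact_range hq)
  let p : C(G, X) := ⟨fun g => ⟨q g, g, rfl⟩, by fun_prop⟩
  have hpq : Topology.IsQuotientMap p := by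
    refine IsClosedMap.isQuotientMap p.continuous.isClosedMap p.continuous ?_
    rintro ⟨_, g, rfl⟩
    exact ⟨g, rfl⟩
  -- the subalgebra of functions on the image
  let S : StarSubalgebra ℂ C(X, ℂ) :=
    { carrier := {φ | φ.comp p ∈ A}
      mul_mem' := fun {a b} ha hb => by
        have h1 : (a * b).comp p = a.comp p * b.comp p := by ext; rfl
        show (a * b).comp p ∈ A
        rw [h1]; exact mul_mem ha hb
      add_mem' := fun {a b} ha hb => by
        have h1 : (a + b).comp p = a.comp p + b.comp p := by ext; rfl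
        show (a + b).comp p ∈ A
        rw [h1]; exact add_mem ha hb
      algebraMap_mem' := fun r => by
        have h1 : (algebraMap ℂ C(X, ℂ) r).comp p = algebraMap ℂ C(G, ℂ) r := by ext; rfl
        show (algebraMap ℂ C(X, ℂ) r).comp p ∈ A
        rw [h1]; exact A.algebraMap_mem r
      star_mem' := fun {a} ha => by
        have h1 : (star a).comp p = star (a.comp p) := by ext; rfl
        show (star a).comp p ∈ A
        rw [h1]; exact star_mem ha }
  have hsep : S.toSubalgebra.SeparatesPoints := by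
    intro x y hxy
    have h1 : ∃ k, x.1 k ≠ y.1 k := by
      by_contra hcon
      push Not at hcon
      exact hxy (Subtype.ext (funext hcon))
    obtain ⟨k, hk⟩ := h1
    let φ : C(X, ℂ) := ⟨fun x => x.1 k, (continuous_apply k).comp continuous_subtype_val⟩
    refine ⟨φ, ⟨φ, ?_, rfl⟩, hk⟩
    show φ.comp p ∈ A
    have h2 : φ.comp p = c k := by ext; rfl
    rw [h2]; exact hc k
  have hdense := ContinuousMap.starSubalgebra_topologicalClosure_eq_top_of_separatesPoints S hsep
  -- the function `ψ` comes from the image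
  have hfac : Function.FactorsThrough ψ p := by
    intro g g' hgg
    refine hψ g g' fun k => ?_
    have := congrArg Subtype.val hgg
    exact congrFun this k
  let φ : C(X, ℂ) := hpq.lift ψ hfac
  have hφ : φ.comp p = ψ := hpq.lift_comp ψ hfac
  have hφmem : φ ∈ closure (S : Set C(X, ℂ)) := by
    rw [← StarSubalgebra.topologicalClosure_coe, hdense]
    trivial
  -- conclusion
  by_contra hne
  set I := ∫ g, ψ g * h g ∂μ with hI
  set C : ℝ := ‖h‖ * μ.real Set.univ with hC
  have hpos : 0 < ‖I‖ := norm_pos_iff.mpr hne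
  have hC0 : 0 ≤ C := by positivity
  obtain ⟨φ', hφ', hdist⟩ := Metric.mem_closure_iff.mp hφmem (‖I‖ / (C + 1)) (by positivity)
  have h0 : ∫ g, (φ'.comp p) g * h g ∂μ = 0 := hA _ hφ'
  have hint : ∀ f : C(G, ℂ), Integrable (fun g => f g * h g) μ := fun f =>
    (f.continuous.mul h.continuous).integrable_of_hasCompactSupport
      (HasCompactSupport.of_compactSpace _)
  have h1 : I = ∫ g, (ψ g - (φ'.comp p) g) * h g ∂μ := by
    have h2 : (fun g => (ψ g - (φ'.comp p) g) * h g) =
        fun g => ψ g * h g - (φ'.comp p) g * h g := by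
      funext g; ring
    rw [h2, integral_sub (hint ψ) (hint (φ'.comp p)), h0, sub_zero]
  have h3 : ‖I‖ ≤ (‖I‖ / (C + 1)) * ‖h‖ * μ.real Set.univ := by
    rw [h1]
    refine norm_integral_le_of_norm_le_const (Filter.Eventually.of_forall fun g => ?_)
    rw [← h1, norm_mul]
    refine mul_le_mul ?_ (h.norm_coe_le_norm g) (norm_nonneg _) (by positivity)
    have h4 : ψ g - (φ'.comp p) g = (φ - φ') (p g) := by
      rw [← hφ]; rfl
    rw [h4]
    refine le_trans ((φ - φ').norm_coe_le_norm _) ?_
    rw [← dist_eq_norm]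
    exact hdist.le
  have h5 : (‖I‖ / (C + 1)) * ‖h‖ * μ.real Set.univ = ‖I‖ * (C / (C + 1)) := by
    rw [hC]; ring
  rw [h5] at h3
  have h6 : C / (C + 1) < 1 := by
    rw [div_lt_one (by positivity)]; linarith
  nlinarith

section Main

variable {F : Type*} [Field F] {σ : F ≃+* ℂ} {G : Type*} [Group G] [TopologicalSpace G]
  [IsTopologicalGroup G] [CompactSpace G] {ι : Type*} {U : ι → Type*}
  [∀ i, AddCommGroup (U i)] [∀ i, Module F (U i)] [∀ i, FiniteDimensional F (U i)]
  {τ : ∀ i, Representation F G (U i)} {W : Type*} [AddCommGroup W] [Module F W]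
  [FiniteDimensional F W] {ω : Representation F G W}

/-- A vector fixed by the stabiliser of the vectors `e i` is a linear combination of values, at
the vectors `e i`, of equivariant multilinear maps. -/
theorem mem_span_equivariant (hτ : ∀ i, ContRep σ (τ i)) (hω : ContRep σ ω) (e : ∀ i, U i)
    (hstar : ∀ i (L : Dual F (U i)), ∃ j, ∃ L' : Dual F (U j), ∀ g,
      (starRingEnd ℂ) (σ (L (τ i g (e i)))) = σ (L' (τ j g (e j))))
    (w : W) (hw : ∀ g, (∀ i, τ i g (e i) = e i) → ω g w = w) :
    w ∈ Submodule.span F {y | ∃ (m : ℕ) (x : Fin m → ι)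
      (Ψ : MultilinearMap F (fun a => U (x a)) W), Equivariant τ ω x Ψ ∧
        Ψ (fun a => e (x a)) = y} := by
  classical
  by_contra hne
  obtain ⟨L, hLw, hL⟩ := Submodule.exists_le_ker_of_notMem hne
  let _ : MeasurableSpace G := borel G
  have : BorelSpace G := ⟨rfl⟩
  let μ : Measure G := Measure.haarMeasure ⊤
  have hμ1 : μ Set.univ = 1 := by
    have := Measure.haarMeasure_self (K₀ := (⊤ : TopologicalSpace.PositiveCompacts G))
    simpa using this
  have : IsProbabilityMeasure μ := ⟨hμ1⟩
  -- the coordinate functions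
  let cf : (Σ i, Dual F (U i)) → C(G, ℂ) := fun z =>
    ⟨fun g => σ (z.2 (τ z.1 g⁻¹ (e z.1))), (hτ z.1 z.2 (e z.1)).comp continuous_inv⟩
  let B : Subalgebra ℂ C(G, ℂ) := Algebra.adjoin ℂ (Set.range cf)
  let A : StarSubalgebra ℂ C(G, ℂ) :=
    { B with
      star_mem' := by
        intro a ha
        refine Algebra.adjoin_induction (p := fun x _ => star x ∈ B) ?_ ?_ ?_ ?_ ha
        · rintro _ ⟨⟨i, l⟩, rfl⟩
          obtain ⟨j, l', h⟩ := hstar i l
          have h1 : star (cf ⟨i, l⟩) = cf ⟨j, l'⟩ := by
            ext g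
            exact h g⁻¹
          rw [h1]
          exact Algebra.subset_adjoin ⟨_, rfl⟩
        · intro r
          have h1 : star (algebraMap ℂ C(G, ℂ) r) = algebraMap ℂ C(G, ℂ) (star r) := by
            ext; rfl
          rw [h1]; exact B.algebraMap_mem _
        · intro x y _ _ hx hy
          rw [star_add]; exact add_mem hx hy
        · intro x y _ _ hx hy
          rw [star_mul']; exact mul_mem hx hy }
  -- the monomials
  have hmon : ∀ ψ ∈ Submonoid.closure (Set.range cf), ∃ (m : ℕ) (x : Fin m → ι)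
      (lam : ∀ a, Dual F (U (x a))), ∀ g, ψ g = σ (prodForm τ x lam g fun a => e (x a)) := by
    intro ψ hψ
    induction hψ using Submonoid.closure_induction_left with
    | one => exact ⟨0, Fin.elim0, fun a => a.elim0, fun g => by simp [prodForm_apply]⟩
    | mul_left f hf ψ _ ih =>
      obtain ⟨⟨i, l⟩, rfl⟩ := hf
      obtain ⟨m, x, lam, h⟩ := ih
      refine ⟨m + 1, Fin.cons i x, fun a => Fin.cases l (fun b => lam b) a, fun g => ?_⟩
      rw [prodForm_apply, Fin.prod_univ_succ, map_mul]
      have h1 : ((cf ⟨i, l⟩) * ψ) g = (cf ⟨i, l⟩) g * ψ g := rfl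
      rw [h1, h g, prodForm_apply]
      rfl
  -- orthogonality
  have hint : ∀ (f : C(G, ℂ)) (w' : W), Integrable (fun g => f g * σ (L (ω g w'))) μ :=
    fun f w' => (f.continuous.mul (hω L w')).integrable_of_hasCompactSupport
      (HasCompactSupport.of_compactSpace _)
  have hB : ∀ (w' : W), ∀ ψ ∈ B, ∫ g, ψ g * σ (L (ω g w')) ∂μ = 0 := by
    intro w' ψ hψ
    have hψ' : ψ ∈ Subalgebra.toSubmodule B := hψ
    have h1 : Subalgebra.toSubmodule B = _ := Algebra.adjoin_eq_span ℂ (Set.range cf)
    rw [h1] at hψ'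
    refine Submodule.span_induction (p := fun ψ _ => ∫ g, ψ g * σ (L (ω g w')) ∂μ = 0) ?_ ?_ ?_ ?_
      hψ'
    · intro ψ hψ
      obtain ⟨m, x, lam, h⟩ := hmon ψ hψ
      have h2 : L (avgMap μ hτ hω x lam w' fun a => e (x a)) = 0 :=
        hL (Submodule.subset_span ⟨m, x, _, equivariant_avgMap μ hτ hω x lam w', rfl⟩)
      rw [dual_avgMap] at h2
      unfold avg at h2
      have h3 := (map_eq_zero_iff σ.symm σ.symm.injective).mp h2
      rw [← h3]
      congr 1
      funext g
      rw [h g, map_mul]
    · simp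
    · intro a b _ _ ha hb
      have h2 : (fun g => (a + b) g * σ (L (ω g w'))) =
          fun g => a g * σ (L (ω g w')) + b g * σ (L (ω g w')) := by
        funext g
        rw [ContinuousMap.add_apply, add_mul]
      rw [h2, integral_add (hint a w') (hint b w'), ha, hb, add_zero]
    · intro r a _ ha
      have h2 : (fun g => (r • a) g * σ (L (ω g w'))) =
          fun g => r * (a g * σ (L (ω g w'))) := by
        funext g
        rw [ContinuousMap.smul_apply, smul_eq_mul, mul_assoc]
      rw [h2, integral_const_mul, ha, mul_zero]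
  -- the coordinates of the translates of `w`
  let b := finBasis F W
  let ψ : Fin (finrank F W) → C(G, ℂ) := fun j =>
    ⟨fun g => σ (b.coord j (ω g⁻¹ w)), (hω (b.coord j) w).comp continuous_inv⟩
  have hψ : ∀ j, ∫ g, ψ j g * σ (L (ω g (b j))) ∂μ = 0 := by
    intro j
    refine integral_eq_zero_of_fibres μ cf A (fun k => Algebra.subset_adjoin ⟨k, rfl⟩)
      ⟨fun g => σ (L (ω g (b j))), hω L (b j)⟩ (fun φ hφ => hB (b j) φ hφ) (ψ j) ?_
    intro g g' hgg
    have h1 : ∀ i, τ i g⁻¹ (e i) = τ i g'⁻¹ (e i) := by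
      intro i
      refine ext_dual (F := F) fun M => ?_
      exact σ.injective (hgg ⟨i, M⟩)
    have h2 : ω (g * g'⁻¹) w = w := by
      refine hw _ fun i => ?_
      rw [map_mul, Module.End.mul_apply, ← h1 i, ← Module.End.mul_apply, ← map_mul,
        mul_inv_cancel, map_one, Module.End.one_apply]
    have h3 : ω g⁻¹ w = ω g'⁻¹ w := by
      conv_lhs => rw [← h2]
      rw [← Module.End.mul_apply, ← map_mul, inv_mul_cancel_left]
    show σ (b.coord j (ω g⁻¹ w)) = σ (b.coord j (ω g'⁻¹ w))
    rw [h3]
  have hsum : ∑ j, ∫ g, ψ j g * σ (L (ω g (b j))) ∂μ = σ (L w) := by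
    rw [← integral_finsetSum _ fun j _ => hint (ψ j) (b j)]
    have h1 : ∀ g, ∑ j, ψ j g * σ (L (ω g (b j))) = σ (L w) := by
      intro g
      have h2 : L w = ∑ j, b.coord j (ω g⁻¹ w) * L (ω g (b j)) := by
        have h3 : w = ω g (ω g⁻¹ w) := by
          rw [← Module.End.mul_apply, ← map_mul, mul_inv_cancel, map_one, Module.End.one_apply]
        conv_lhs => rw [h3, ← b.sum_repr (ω g⁻¹ w)]
        simp only [map_sum, map_smul, smul_eq_mul, Basis.coord_apply]
      rw [h2, map_sum]
      exact Finset.sum_congr rfl fun j _ => by rw [map_mul]; rfl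
    simp only [h1]
    rw [integral_const, probReal_univ, one_smul]
  have h4 : σ (L w) = 0 := by
    rw [← hsum]
    exact Finset.sum_eq_zero fun j _ => hψ j
  exact hLw ((map_eq_zero_iff σ σ.injective).mp h4)

end Main

end Pool.Agent.Y136
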