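import Pool.Agent.Y136.MG.FDefs
import Pool.Agent.Y136.MG.SW
import Pool.Agent.Y136.MG.Diag

/-!
# Operators with given complex matrices
-/

open Module Polynomial

namespace Pool.Agent.Y136

variable {F : Type*} [Field F] (σ : F ≃+* ℂ) {V : Type*} [AddCommGroup V] [Module F V]
  {J : Type*} [Fintype J] [DecidableEq J] (b : Basis J F V)

variable {σ b}

lemma matOp_mul (A B : Matrix J J ℂ) : matOp σ b (A * B) = matOp σ b A * matOp σ b B := by
  have h1 : (A * B).map σ.symm = A.map σ.symm * B.map σ.symm := by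
    exact Matrix.map_mul (f := σ.symm.toRingHom)
  rw [matOp, h1, Matrix.toLin_mul b b b]
  rfl

lemma matOp_one : matOp σ b 1 = 1 := by
  have h1 : (1 : Matrix J J ℂ).map σ.symm = 1 := Matrix.map_one _ (map_zero _) (map_one _)
  rw [matOp, h1, Matrix.toLin_one]
  rfl

lemma matOp_apply (A : Matrix J J ℂ) (j : J) :
    matOp σ b A (b j) = ∑ l, σ.symm (A l j) • b l := by
  rw [matOp, Matrix.toLin_self]
  rfl

lemma matOp_diagonal (d : J → ℂ) (j : J) :
    matOp σ b (Matrix.diagonal d) (b j) = σ.symm (d j) • b j := by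
  rw [matOp_apply, Finset.sum_eq_single j]
  · rw [Matrix.diagonal_apply_eq]
  · intro l _ hl
    rw [Matrix.diagonal_apply_ne _ hl, map_zero, zero_smul]
  · intro h; exact absurd (Finset.mem_univ j) h

lemma matOp_add (A B : Matrix J J ℂ) : matOp σ b (A + B) = matOp σ b A + matOp σ b B := by
  have h1 : (A + B).map σ.symm = A.map σ.symm + B.map σ.symm := by
    ext i j; simp
  rw [matOp, h1, map_add]
  rfl

lemma matOp_smul (c : ℂ) (A : Matrix J J ℂ) :
    matOp σ b (c • A) = σ.symm c • matOp σ b A := by
  have h1 : (c • A).map σ.symm = σ.symm c • A.map σ.symm := by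
    ext i j; simp
  rw [matOp, h1, map_smul]
  rfl

lemma matOp_eq_sum (A : Matrix J J ℂ) :
    matOp σ b A = ∑ j, ∑ l, σ.symm (A j l) • matOp σ b (Matrix.single j l 1) := by
  have h0 : matOp σ b (0 : Matrix J J ℂ) = 0 := by
    have := matOp_smul (σ := σ) (b := b) 0 (0 : Matrix J J ℂ)
    simpa using this
  have hs : ∀ (s : Finset J) (M : J → Matrix J J ℂ),
      matOp σ b (∑ j ∈ s, M j) = ∑ j ∈ s, matOp σ b (M j) := by
    intro s M
    classical
    induction s using Finset.induction_on with
    | empty => simp [h0]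
    | insert a s ha ih => rw [Finset.sum_insert ha, Finset.sum_insert ha, matOp_add, ih]
  conv_lhs => rw [Matrix.matrix_eq_sum_single A]
  rw [hs]
  refine Finset.sum_congr rfl fun j _ => ?_
  rw [hs]
  refine Finset.sum_congr rfl fun l _ => ?_
  rw [← matOp_smul]
  congr 1
  rw [Matrix.smul_single, smul_eq_mul, mul_one]

/-- The coefficients of the operator are recovered from the operator. -/
lemma coord_matOp (A : Matrix J J ℂ) (j l : J) :
    σ (b.coord j (matOp σ b A (b l))) = A j l := by
  rw [matOp_apply, map_sum, Finset.sum_eq_single j]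
  · rw [map_smul, Basis.coord_apply, b.repr_self, Finsupp.single_eq_same, smul_eq_mul, mul_one,
      RingEquiv.apply_symm_apply]
  · intro i _ hi
    rw [map_smul, Basis.coord_apply, b.repr_self, Finsupp.single_eq_of_ne (Ne.symm hi), smul_zero]
  · intro h; exact absurd (Finset.mem_univ j) h

variable {G : Type*} [Group G]

variable (σ b) in
/-- The representation on `V` which has in the basis `b` the matrices `ρ g`. -/
noncomputable def matRep (ρ : G →* Matrix J J ℂ) : Representation F G V where
  toFun g := matOp σ b (ρ g)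
  map_one' := by rw [map_one, matOp_one]
  map_mul' g h := by rw [map_mul, matOp_mul]

lemma matRep_apply (ρ : G →* Matrix J J ℂ) (g : G) : matRep σ b ρ g = matOp σ b (ρ g) := rfl

/-- The representation by conjugation on the endomorphisms. -/
noncomputable def conjRep (τ : Representation F G V) : Representation F G (Module.End F V) where
  toFun g :=
    { toFun := fun E => τ g * E * τ g⁻¹
      map_add' := fun E E' => by rw [mul_add, add_mul]
      map_smul' := fun c E => by
        rw [mul_smul_comm, smul_mul_assoc]; rfl }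
  map_one' := by
    ext E
    simp
  map_mul' g h := by
    refine LinearMap.ext fun E => ?_
    show τ (g * h) * E * τ (g * h)⁻¹ = τ g * (τ h * E * τ h⁻¹) * τ g⁻¹
    rw [mul_inv_rev, map_mul, map_mul]
    simp only [mul_assoc]

lemma conjRep_apply (τ : Representation F G V) (g : G) (E : Module.End F V) :
    conjRep τ g E = τ g * E * τ g⁻¹ := rfl

variable [TopologicalSpace G]

lemma contRep_matRep {ρ : G →* Matrix J J ℂ} (hρ : Continuous ρ) :
    ContRep σ (matRep σ b ρ) := by
  intro L u
  have h1 : ∀ g, σ (L (matRep σ b ρ g u)) =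
      ∑ j, ∑ l, ρ g j l * σ (L (matOp σ b (Matrix.single j l 1) u)) := by
    intro g
    rw [matRep_apply, matOp_eq_sum]
    simp only [LinearMap.sum_apply, LinearMap.smul_apply, map_sum, map_smul, smul_eq_mul,
      map_mul, RingEquiv.apply_symm_apply]
  simp only [h1]
  exact continuous_finsetSum _ fun j _ => continuous_finsetSum _ fun l _ =>
    (hρ.matrix_elem j l).mul continuous_const

/-- The conjugation representation of a continuous representation by matrices is continuous. -/
lemma contRep_conjRep {ρ : G →* Matrix J J ℂ} (hρ : Continuous ρ) [IsTopologicalGroup G] :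
    ContRep σ (conjRep (matRep σ b ρ)) := by
  intro L u
  have h1 : ∀ g, σ (L (conjRep (matRep σ b ρ) g u)) =
      ∑ j, ∑ l, ∑ j', ∑ l', ρ g⁻¹ j l * ρ g j' l' * σ (L (matOp σ b (Matrix.single j' l' 1) *
        u * matOp σ b (Matrix.single j l 1))) := by
    intro g
    rw [conjRep_apply, matRep_apply, matRep_apply, matOp_eq_sum (ρ g), matOp_eq_sum (ρ g⁻¹)]
    simp only [Finset.sum_mul, Finset.mul_sum, map_sum, smul_mul_assoc, mul_smul_comm, map_smul,
      smul_eq_mul, map_mul, RingEquiv.apply_symm_apply]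
    refine Finset.sum_congr rfl fun j _ => Finset.sum_congr rfl fun l _ =>
      Finset.sum_congr rfl fun j' _ => Finset.sum_congr rfl fun l' _ => ?_
    ring
  simp only [h1]
  refine continuous_finsetSum _ fun j _ => continuous_finsetSum _ fun l _ =>
    continuous_finsetSum _ fun j' _ => continuous_finsetSum _ fun l' _ => ?_
  exact (((hρ.comp continuous_inv).matrix_elem j l).mul (hρ.matrix_elem j' l')).mul
    continuous_const

omit [TopologicalSpace G] in
/-- The complex conjugates of the matrix coefficients of the conjugates of `ρ x` are matrix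
coefficients of the conjugates of `ρ x⁻¹`. -/
lemma star_conjRep {ρ : G →* Matrix J J ℂ} (hρ : ∀ g, ρ g ∈ Matrix.unitaryGroup J ℂ) (x : G)
    (L : Dual F (Module.End F V)) : ∃ L' : Dual F (Module.End F V), ∀ g : G,
      (starRingEnd ℂ) (σ (L (conjRep (matRep σ b ρ) g (matRep σ b ρ x)))) =
        σ (L' (conjRep (matRep σ b ρ) g (matRep σ b ρ x⁻¹))) := by
  have hinv : ∀ g : G, ρ g⁻¹ = Matrix.conjTranspose (ρ g) := by
    intro g
    have h1 : ρ g⁻¹ * ρ g = 1 := by rw [← map_mul, inv_mul_cancel, map_one]
    have h2 : ρ g * Matrix.conjTranspose (ρ g) = 1 := Matrix.mem_unitaryGroup_iff.mp (hρ g)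
    calc ρ g⁻¹ = ρ g⁻¹ * (ρ g * Matrix.conjTranspose (ρ g)) := by rw [h2, mul_one]
      _ = Matrix.conjTranspose (ρ g) := by rw [← mul_assoc, h1, one_mul]
  let L' : Dual F (Module.End F V) :=
    ∑ j, ∑ l, σ.symm ((starRingEnd ℂ) (σ (L (matOp σ b (Matrix.single j l 1))))) •
      (b.coord l ∘ₗ LinearMap.applyₗ (b j))
  refine ⟨L', fun g => ?_⟩
  have h1 : ∀ y : G, conjRep (matRep σ b ρ) g (matRep σ b ρ y) = matOp σ b (ρ (g * y * g⁻¹)) := by
    intro y
    rw [conjRep_apply, ← map_mul, ← map_mul]
    rfl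
  have h3 : g * x⁻¹ * g⁻¹ = (g * x * g⁻¹)⁻¹ := by group
  rw [h1, h1, h3]
  generalize g * x * g⁻¹ = y
  rw [matOp_eq_sum (ρ y)]
  simp only [map_sum, map_smul, smul_eq_mul, map_mul, RingEquiv.apply_symm_apply]
  simp only [L', LinearMap.sum_apply, LinearMap.smul_apply, smul_eq_mul, map_sum, map_mul,
    RingEquiv.apply_symm_apply]
  refine Finset.sum_congr rfl fun j _ => Finset.sum_congr rfl fun l _ => ?_
  have h2 : (b.coord l ∘ₗ LinearMap.applyₗ (b j)) (matOp σ b (ρ y⁻¹)) =
      b.coord l (matOp σ b (ρ y⁻¹) (b j)) := rfl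
  rw [h2, coord_matOp, hinv, Matrix.conjTranspose_apply, mul_comm]
  rfl

end Pool.Agent.Y136
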