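import Pool.Agent.W216.MF.Uni

/-!
# Multiplicative relations between Weil numbers with slopes of bounded denominators
-/

open Polynomial

namespace Pool.Agent.Y136

lemma isIntegral_of_valuationSubrings {x : ℂ} (h : ∀ v : ValuationSubring ℂ, x ∈ v) :
    IsIntegral ℤ x := by
  have h1 := iInf_valuationSubring_superset (K := ℂ) (s := ∅)
  have h2 : x ∈ (integralClosure (Subring.closure (∅ : Set ℂ)) ℂ).toSubring := by
    rw [← h1, Subring.mem_iInf]
    exact fun V => h V.1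
  have h3 : IsIntegral (Subring.closure (∅ : Set ℂ)) x := h2
  have h4 : IsIntegral (⊥ : Subring ℂ) x := by
    have h5 : Subring.closure (∅ : Set ℂ) = ⊥ := Subring.closure_empty
    rw [← h5]; exact h3
  obtain ⟨P, hPm, hP⟩ := h4
  have h6 : ∀ y : (⊥ : Subring ℂ), ∃ n : ℤ, (n : ℂ) = y := fun y => Subring.mem_bot.mp y.2
  have hsurj : Function.Surjective (Int.castRingHom (⊥ : Subring ℂ)) := by
    intro y
    obtain ⟨n, hn⟩ := h6 y
    exact ⟨n, Subtype.ext (by simpa using hn)⟩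
  obtain ⟨P', hP', -, hPm'⟩ := Polynomial.lifts_and_natDegree_eq_and_monic
    (f := Int.castRingHom (⊥ : Subring ℂ)) (p := P)
    ((Polynomial.mem_lifts P).mpr ⟨_, (Polynomial.map_surjective _ hsurj P).choose_spec⟩) hPm
  refine ⟨P', hPm', ?_⟩
  rw [← hP', Polynomial.eval₂_map] at hP
  have h7 : (algebraMap (⊥ : Subring ℂ) ℂ).comp (Int.castRingHom (⊥ : Subring ℂ)) =
      algebraMap ℤ ℂ := RingHom.ext_int _ _
  rw [h7] at hP
  exact hP

lemma hom_aeval_int {A B : Type*} [CommRing A] [CommRing B] (ψ : A →+* B) (x : A) (f : ℤ[X]) :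
    ψ (aeval x f) = aeval (ψ x) f := by
  rw [aeval_def, Polynomial.hom_eval₂, aeval_def,
    RingHom.ext_int (ψ.comp (algebraMap ℤ A)) (algebraMap ℤ B)]

/-- A system of Weil numbers: `α j` is an algebraic integer of degree at most `n₀`, all of whose
conjugates have absolute value `q ^ (deg j / 2)`, and the slopes of `α j` are in `(1 / D) ℤ`. -/
structure IsWeilSystem {J : Type*} (n₀ D q : ℕ) (deg : J → ℕ) (α : J → ℂ) : Prop where
  q_gt : 1 < q
  D_pos : 0 < D
  root : ∀ j, ∃ h : ℤ[X], h.Monic ∧ h.natDegree ≤ n₀ ∧ aeval (α j) h = 0 ∧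
    ∀ z : ℂ, aeval z h = 0 → ‖z‖ ^ 2 = (q : ℝ) ^ deg j
  slope : ∀ (v : ValuationSubring ℂ) (j : J), ∃ u : ℤ, α j ^ D / (q : ℂ) ^ u ∈ v ∧
    (q : ℂ) ^ u / α j ^ D ∈ v

namespace IsWeilSystem

variable {J : Type*} {n₀ D q : ℕ} {deg : J → ℕ} {α : J → ℂ}

lemma q_ne (h : IsWeilSystem n₀ D q deg α) : (q : ℂ) ≠ 0 := by
  have := h.q_gt
  exact_mod_cast (by omega : q ≠ 0)

lemma norm_sq (h : IsWeilSystem n₀ D q deg α) (j : J) : ‖α j‖ ^ 2 = (q : ℝ) ^ deg j := by
  obtain ⟨f, -, -, h2, h3⟩ := h.root j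
  exact h3 _ h2

lemma ne_zero (h : IsWeilSystem n₀ D q deg α) (j : J) : α j ≠ 0 := by
  intro h0
  have h1 := h.norm_sq j
  rw [h0, norm_zero] at h1
  have h2 : (0 : ℝ) < (q : ℝ) ^ deg j := pow_pos (by exact_mod_cast (by linarith [h.q_gt])) _
  rw [← h1] at h2
  norm_num at h2

lemma integral (h : IsWeilSystem n₀ D q deg α) (j : J) : IsIntegral ℤ (α j) := by
  obtain ⟨f, h1, -, h2, -⟩ := h.root j
  exact ⟨f, h1, h2⟩

lemma mem_of_integral (v : ValuationSubring ℂ) {z : ℂ} (hz : IsIntegral ℤ z) : z ∈ v := by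
  obtain ⟨P, hP, hz⟩ := hz
  have h1 : IsIntegral v z := by
    refine ⟨P.map (algebraMap ℤ v), hP.map _, ?_⟩
    rw [Polynomial.eval₂_map]
    have h7 : (algebraMap v ℂ).comp (algebraMap ℤ v) = algebraMap ℤ ℂ := RingHom.ext_int _ _
    rw [h7]
    exact hz
  obtain ⟨y, hy⟩ := IsIntegrallyClosed.isIntegral_iff.mp h1
  rw [← hy]
  exact y.2

lemma integral_div (h : IsWeilSystem n₀ D q deg α) (j : J) :
    IsIntegral ℤ ((q : ℂ) ^ deg j / α j) := by
  have h1 : (q : ℂ) ^ deg j / α j = (starRingEnd ℂ) (α j) := by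
    rw [div_eq_iff (h.ne_zero j), mul_comm, Complex.mul_conj, Complex.normSq_eq_norm_sq,
      h.norm_sq j]
    push_cast
    rfl
  rw [h1]
  obtain ⟨f, h1, -, h2, -⟩ := h.root j
  refine ⟨f, h1, ?_⟩
  have h3 := congrArg (starRingEnd ℂ) h2
  rw [map_zero] at h3
  rw [← h3, aeval_def, Polynomial.hom_eval₂]
  congr 1
  exact RingHom.ext_int _ _

lemma val_le_one (h : IsWeilSystem n₀ D q deg α) (v : ValuationSubring ℂ) (j : J) :
    v.valuation (α j) ≤ 1 :=
  (v.valuation_le_one_iff _).mpr (mem_of_integral v (h.integral j))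

lemma val_div_le_one (h : IsWeilSystem n₀ D q deg α) (v : ValuationSubring ℂ) (j : J) :
    v.valuation (q : ℂ) ^ deg j / v.valuation (α j) ≤ 1 := by
  rw [← map_pow, ← map_div₀]
  exact (v.valuation_le_one_iff _).mpr (mem_of_integral v (h.integral_div j))

lemma val_ne_zero (h : IsWeilSystem n₀ D q deg α) (v : ValuationSubring ℂ) (j : J) :
    v.valuation (α j) ≠ 0 := (Valuation.ne_zero_iff _).mpr (h.ne_zero j)

lemma val_q_ne_zero (h : IsWeilSystem n₀ D q deg α) (v : ValuationSubring ℂ) :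
    v.valuation (q : ℂ) ≠ 0 := (Valuation.ne_zero_iff _).mpr h.q_ne

lemma val_q_le_one (v : ValuationSubring ℂ) (q : ℕ) : v.valuation (q : ℂ) ≤ 1 :=
  (v.valuation_le_one_iff _).mpr (natCast_mem v q)

lemma val_slope (h : IsWeilSystem n₀ D q deg α) (v : ValuationSubring ℂ) (j : J) :
    ∃ u : ℤ, v.valuation (α j) ^ D = v.valuation (q : ℂ) ^ u := by
  obtain ⟨u, h1, h2⟩ := h.slope v j
  refine ⟨u, ?_⟩
  have h3 := (v.valuation_le_one_iff _).mpr h1
  have h4 := (v.valuation_le_one_iff _).mpr h2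
  rw [map_div₀, map_pow, map_zpow₀] at h3 h4
  have h5 : v.valuation (q : ℂ) ^ u ≠ 0 := zpow_ne_zero _ (h.val_q_ne_zero v)
  have h6 : v.valuation (α j) ^ D ≠ 0 := pow_ne_zero _ (h.val_ne_zero v j)
  refine le_antisymm ?_ ?_
  · rwa [div_le_one₀ (zero_lt_iff.mpr h5)] at h3
  · rwa [div_le_one₀ (zero_lt_iff.mpr h6)] at h4

variable [Fintype J]

/-- The product of the powers of the numbers `α j ^ 2 / q ^ deg j`. -/
noncomputable def gam (q : ℕ) (deg : J → ℕ) (α : J → ℂ) (m : J → ℤ) : ℂ :=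
  ∏ j, (α j ^ 2 / (q : ℂ) ^ deg j) ^ m j

/-- The vectors of the slopes, normalised. -/
def slopes (D q : ℕ) (deg : J → ℕ) (α : J → ℂ) : Set (J → ℤ) :=
  {c | ∃ v : ValuationSubring ℂ, v.valuation (q : ℂ) < 1 ∧
    ∀ j, v.valuation (α j) ^ (2 * D) = v.valuation (q : ℂ) ^ (c j + D * deg j)}

lemma val_gam (h : IsWeilSystem n₀ D q deg α) (v : ValuationSubring ℂ) (m : J → ℤ) {c : J → ℤ}
    (hc : ∀ j, v.valuation (α j) ^ (2 * D) = v.valuation (q : ℂ) ^ (c j + D * deg j)) :
    v.valuation (gam q deg α m) ^ D = v.valuation (q : ℂ) ^ (∑ j, m j * c j) := by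
  unfold gam
  rw [map_prod, ← Finset.prod_pow]
  have h1 : v.valuation (q : ℂ) ^ (∑ j, m j * c j) = ∏ j, v.valuation (q : ℂ) ^ (m j * c j) := by
    classical
    have hq := h.val_q_ne_zero v
    induction (Finset.univ : Finset J) using Finset.induction_on with
    | empty => simp
    | insert a s ha ih => rw [Finset.sum_insert ha, Finset.prod_insert ha, zpow_add₀ hq, ih]
  rw [h1]
  refine Finset.prod_congr rfl fun j _ => ?_
  rw [map_zpow₀, map_div₀, map_pow, map_pow, ← zpow_natCast (_ ^ m j), ← zpow_mul,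
    mul_comm (m j) (D : ℤ), zpow_mul, zpow_natCast, div_pow, ← pow_mul, hc j, ← pow_mul,
    ← zpow_natCast (v.valuation (q : ℂ)), ← zpow_sub₀ (h.val_q_ne_zero v), ← zpow_mul]
  congr 1
  push_cast
  ring

omit [Fintype J] in
lemma exists_slope (h : IsWeilSystem n₀ D q deg α) (v : ValuationSubring ℂ) :
    ∃ c : J → ℤ, ∀ j, v.valuation (α j) ^ (2 * D) = v.valuation (q : ℂ) ^ (c j + D * deg j) := by
  choose u hu using h.val_slope v
  refine ⟨fun j => 2 * u j - D * deg j, fun j => ?_⟩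
  rw [sub_add_cancel, mul_comm 2 D, pow_mul, hu j, ← zpow_natCast, ← zpow_mul]
  congr 1
  push_cast
  ring

omit [Fintype J] in
lemma slopes_bounded (h : IsWeilSystem n₀ D q deg α) {c : J → ℤ} (hc : c ∈ slopes D q deg α)
    (j : J) : c j ∈ Set.Icc (-(D * deg j : ℤ)) (D * deg j) := by
  obtain ⟨v, hv, h1⟩ := hc
  have hq0 := h.val_q_ne_zero v
  have hqpos : 0 < v.valuation (q : ℂ) := zero_lt_iff.mpr hq0
  have h2 := h1 j
  constructor
  · have h3 : v.valuation (q : ℂ) ^ (c j + D * deg j) ≤ 1 := by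
      rw [← h2]; exact pow_le_one₀ zero_le (h.val_le_one v j)
    by_contra hcon
    have h4 : c j + D * deg j < 0 := by
      simp only [not_le] at hcon; linarith
    have h5 := one_lt_zpow_of_neg₀ hqpos hv h4
    exact absurd h3 (not_le.mpr h5)
  · have h3 : (v.valuation (q : ℂ) ^ deg j / v.valuation (α j)) ^ (2 * D) ≤ 1 :=
      pow_le_one₀ zero_le (h.val_div_le_one v j)
    rw [div_pow, h2, ← pow_mul, ← zpow_natCast, ← zpow_sub₀ hq0] at h3
    by_contra hcon
    have h4 : ((deg j * (2 * D) : ℕ) : ℤ) - (c j + D * deg j) < 0 := by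
      simp only [not_le] at hcon
      push_cast
      nlinarith
    have h5 := one_lt_zpow_of_neg₀ hqpos hv h4
    exact absurd h3 (not_le.mpr h5)

omit [Fintype J] in
lemma finrank_simple_le (h : IsWeilSystem n₀ D q deg α) (j : J) :
    Module.finrank ℚ (IntermediateField.adjoin ℚ {α j}) ≤ n₀ := by
  obtain ⟨f, hf, hd, hr, -⟩ := h.root j
  have h1 : IsIntegral ℚ (α j) := (h.integral j).tower_top
  rw [IntermediateField.adjoin.finrank h1]
  have h2 : aeval (α j) (f.map (Int.castRingHom ℚ)) = 0 := by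
    rw [aeval_def, Polynomial.eval₂_map]
    have h7 : (algebraMap ℚ ℂ).comp (Int.castRingHom ℚ) = algebraMap ℤ ℂ := RingHom.ext_int _ _
    rw [h7]
    exact hr
  have h3 := minpoly.dvd ℚ (α j) h2
  have h4 := Polynomial.natDegree_le_of_dvd h3 (hf.map _).ne_zero
  rw [hf.natDegree_map] at h4
  exact h4.trans hd

omit [Fintype J] in
lemma finrank_adjoin_le (h : IsWeilSystem n₀ D q deg α) (s : Finset J) :
    Module.finrank ℚ (IntermediateField.adjoin ℚ (α '' (s : Set J))) ≤ n₀ ^ s.card := by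
  classical
  induction s using Finset.induction_on with
  | empty =>
    rw [Finset.coe_empty, Set.image_empty, IntermediateField.adjoin_empty,
      IntermediateField.finrank_bot, Finset.card_empty, pow_zero]
  | insert a s ha ih =>
    rw [Finset.card_insert_of_notMem ha, Finset.coe_insert, Set.image_insert_eq,
      Set.insert_eq, IntermediateField.adjoin_union, pow_succ']
    exact (IntermediateField.finrank_sup_le _ _).trans
      (Nat.mul_le_mul (h.finrank_simple_le a) ih)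

/-- The field generated by the numbers `α j`. -/
noncomputable abbrev fld (α : J → ℂ) : IntermediateField ℚ ℂ :=
  IntermediateField.adjoin ℚ (α '' ((Finset.univ : Finset J) : Set J))

lemma mem_fld (α : J → ℂ) (j : J) : α j ∈ fld α :=
  IntermediateField.subset_adjoin ℚ _ ⟨j, by simp, rfl⟩

lemma finite_fld (h : IsWeilSystem n₀ D q deg α) : FiniteDimensional ℚ (fld α) := by
  have : Finite (α '' ((Finset.univ : Finset J) : Set J)) :=
    ((Set.toFinite _).image α).to_subtype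
  refine IntermediateField.finiteDimensional_adjoin ?_
  rintro _ ⟨j, -, rfl⟩
  exact (h.integral j).tower_top

/-- The product `gam` as an element of the field generated by the numbers `α j`. -/
noncomputable def gamL (q : ℕ) (deg : J → ℕ) (α : J → ℂ) (m : J → ℤ) : fld α :=
  ∏ j, ((⟨α j, mem_fld α j⟩ : fld α) ^ 2 / (q : fld α) ^ deg j) ^ m j

lemma coe_gamL (q : ℕ) (deg : J → ℕ) (α : J → ℂ) (m : J → ℤ) :
    algebraMap (fld α) ℂ (gamL q deg α m) = gam q deg α m := by
  unfold gamL gam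
  rw [map_prod]
  refine Finset.prod_congr rfl fun j _ => ?_
  rw [map_zpow₀, map_div₀, map_pow, map_pow, map_natCast]
  rfl

lemma norm_gamL (h : IsWeilSystem n₀ D q deg α) (m : J → ℤ) (φ : fld α →+* ℂ) :
    ‖φ (gamL q deg α m)‖ = 1 := by
  unfold gamL
  rw [map_prod, norm_prod]
  refine Finset.prod_eq_one fun j _ => ?_
  rw [map_zpow₀, map_div₀, map_pow, map_pow, map_natCast, norm_zpow, norm_div, norm_pow,
    norm_pow, Complex.norm_natCast]
  obtain ⟨f, -, -, h2, h3⟩ := h.root j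
  have h4 : aeval (φ ⟨α j, mem_fld α j⟩) f = 0 := by
    have h5 : aeval (⟨α j, mem_fld α j⟩ : fld α) f = 0 := by
      have h6 : algebraMap (fld α) ℂ (aeval (⟨α j, mem_fld α j⟩ : fld α) f) = 0 := by
        rw [hom_aeval_int]
        exact h2
      exact (map_eq_zero_iff _ (algebraMap (fld α) ℂ).injective).mp h6
    rw [← hom_aeval_int, h5, map_zero]
  rw [h3 _ h4]
  have h5 : ((q : ℝ) ^ deg j) ≠ 0 := by
    have := h.q_gt
    exact pow_ne_zero _ (by exact_mod_cast (by omega : q ≠ 0))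
  rw [div_self h5, one_zpow]

lemma val_gam_eq_one (h : IsWeilSystem n₀ D q deg α) (m : J → ℤ)
    (hm : ∀ c ∈ slopes D q deg α, ∑ j, m j * c j = 0) (v : ValuationSubring ℂ) :
    v.valuation (gam q deg α m) = 1 := by
  obtain ⟨c, hc⟩ := h.exists_slope v
  have h1 := h.val_gam v m hc
  have h2 : v.valuation (gam q deg α m) ^ D = 1 := by
    rw [h1]
    rcases (val_q_le_one v q).lt_or_eq with hq | hq
    · rw [hm c ⟨v, hq, hc⟩, zpow_zero]
    · rw [hq, one_zpow]
  exact (pow_eq_one_iff_of_nonneg zero_le h.D_pos.ne').mp h2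

lemma exists_pow_eq_one (h : IsWeilSystem n₀ D q deg α) (m : J → ℤ)
    (hm : ∀ c ∈ slopes D q deg α, ∑ j, m j * c j = 0) :
    ∃ n : ℕ, 0 < n ∧ gam q deg α m ^ n = 1 := by
  have := h.finite_fld
  have : NumberField (fld α) := { to_charZero := inferInstance, to_finiteDimensional := this }
  have h1 : IsIntegral ℤ (gam q deg α m) := by
    refine isIntegral_of_valuationSubrings fun v => ?_
    rw [← v.valuation_le_one_iff, h.val_gam_eq_one m hm v]
  rw [← coe_gamL] at h1
  have h2 : IsIntegral ℤ (gamL q deg α m) :=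
    (isIntegral_algebraMap_iff (algebraMap (fld α) ℂ).injective).mp h1
  obtain ⟨n, hn, h3⟩ := NumberField.Embeddings.pow_eq_one_of_norm_eq_one (fld α) ℂ h2
    (h.norm_gamL m)
  refine ⟨n, hn, ?_⟩
  rw [← coe_gamL, ← map_pow, h3, map_one]

lemma sum_eq_zero (h : IsWeilSystem n₀ D q deg α) (m : J → ℤ)
    (hm : ∃ n : ℕ, 0 < n ∧ gam q deg α m ^ n = 1) :
    ∀ c ∈ slopes D q deg α, ∑ j, m j * c j = 0 := by
  rintro c ⟨v, hv, hc⟩
  obtain ⟨n, hn, h1⟩ := hm
  have h2 := h.val_gam v m hc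
  have h3 : v.valuation (gam q deg α m) = 1 := by
    refine (pow_eq_one_iff_of_nonneg zero_le hn.ne').mp ?_
    rw [← map_pow, h1, map_one]
  rw [h3, one_pow] at h2
  exact (zpow_eq_one_iff_right₀ zero_le hv.ne).mp h2.symm

/-- The orders of the roots of unity among the products `gam` are bounded. -/
lemma order_bound (J : Type*) [Fintype J] (n₀ : ℕ) : ∃ N : ℕ, 0 < N ∧ ∀ (D q : ℕ) (deg : J → ℕ)
    (α : J → ℂ), IsWeilSystem n₀ D q deg α → ∀ m : J → ℤ,
      (∃ n : ℕ, 0 < n ∧ gam q deg α m ^ n = 1) → gam q deg α m ^ N = 1 := by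
  obtain ⟨N, hN, h⟩ := Pool.Agent.W216.MF.uni (n₀ ^ Fintype.card J)
  refine ⟨N, hN, fun D q deg α hα m hm => h _ hm ?_⟩
  have := hα.finite_fld
  have h1 : IsIntegral ℚ (gamL q deg α m) := IsIntegral.of_finite ℚ _
  refine ⟨minpoly ℚ (gamL q deg α m), minpoly.ne_zero h1, ?_, ?_⟩
  · exact (minpoly.natDegree_le _).trans (hα.finrank_adjoin_le Finset.univ)
  · have h2 : algebraMap (fld α) ℂ (aeval (gamL q deg α m) (minpoly ℚ (gamL q deg α m))) = 0 := by
      rw [minpoly.aeval, map_zero]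
    rw [← h2, ← coe_gamL, Polynomial.aeval_algebraMap_apply]

end IsWeilSystem

end Pool.Agent.Y136
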