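import Pool.Agent.Y136.MG.FDefs
import Pool.Agent.H914R2.CPart

/-!
# Products along words, and the operators on their cohomology
-/

open CategoryTheory AlgebraicGeometry TensorProduct

universe u v

namespace Pool.Agent.Y136

open Pool.Agent.H914 Pool.Agent.W534 VarClass Obj WeilCohomology

variable {k : Type u} [Field k] {𝒱 : VarClass k} {ops : CycleOps 𝒱}

variable {W : WeilCohomology.{u, v} ops}

section WordOp

variable {I : Type} {X : I → 𝒱.Obj}

lemma wordOp_mul (A B : ∀ i, Module.End W.K (W.H (X i))) (w : FreeMagma I) :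
    wordOp W X (fun i => A i * B i) w = wordOp W X A w * wordOp W X B w := by
  induction w with
  | ih1 i => rfl
  | ih2 v w hv hw =>
    show extOp W (wordOp W X (fun i => A i * B i) v) (wordOp W X (fun i => A i * B i) w) = _
    rw [hv, hw]
    exact (extOp_mul _ _ _ _).symm

lemma wordOp_one (w : FreeMagma I) :
    wordOp W X (fun i => (1 : Module.End W.K (W.H (X i)))) w = 1 := by
  induction w with
  | ih1 i => rfl
  | ih2 v w hv hw =>
    show extOp W _ _ = 1
    rw [hv, hw, extOp_one]

lemma wordOp_pow (A : ∀ i, Module.End W.K (W.H (X i))) (w : FreeMagma I) (n : ℕ) :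
    wordOp W X (fun i => A i ^ n) w = wordOp W X A w ^ n := by
  induction n with
  | zero => simp only [pow_zero]; exact wordOp_one w
  | succ n ih =>
    simp only [pow_succ]
    rw [wordOp_mul (fun i => A i ^ n) A, ih]

/-- The representation on the cohomology of a product. -/
noncomputable def wordRep {G : Type*} [Group G] (τ : ∀ i, Representation W.K G (W.H (X i)))
    (w : FreeMagma I) : Representation W.K G (W.H (wordObj X w)) where
  toFun g := wordOp W X (fun i => τ i g) w
  map_one' := by simp only [map_one]; exact wordOp_one w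
  map_mul' a b := by simp only [map_mul]; exact wordOp_mul _ _ w

end WordOp

/-! ### Degrees -/

/-- The operator preserves the degrees. -/
def DegZero (W : WeilCohomology.{u, v} ops) (Z : 𝒱.Obj) (A : Module.End W.K (W.H Z)) : Prop :=
  ∀ n, ∀ x ∈ W.gr Z n, A x ∈ W.gr Z n

lemma DegZero.proj {Z : 𝒱.Obj} {A : Module.End W.K (W.H Z)} (hA : DegZero W Z A) (n : ℕ)
    (x : W.H Z) : A (proj (W.isInternal Z) n x) = proj (W.isInternal Z) n (A x) := by
  refine gr_induction (W.isInternal Z)
    (p := fun x => A (Pool.Agent.H914.proj (W.isInternal Z) n x) =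
      Pool.Agent.H914.proj (W.isInternal Z) n (A x)) ?_ ?_ x
  · intro i a ha
    by_cases hi : i = n
    · subst hi
      rw [proj_same _ ha, proj_same _ (hA i a ha)]
    · rw [proj_ne _ ha hi, proj_ne _ (hA i a ha) hi, map_zero]
  · intro a b ha hb
    simp only [map_add, ha, hb]

lemma degZero_map {Z : 𝒱.Obj} (f : Z ⟶ Z) : DegZero W Z (W.map f).toLinearMap :=
  fun _ _ hx => W.map_mem f hx

lemma gr_prod {Y Z : 𝒱.Obj} {i j : ℕ} {a : W.H Y} {b : W.H Z} (ha : a ∈ W.gr Y i)
    (hb : b ∈ W.gr Z j) : W.map (fst Y Z) a * W.map (snd Y Z) b ∈ W.gr (Y.prod Z) (i + j) :=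
  W.mul_mem (W.map_mem _ ha) (W.map_mem _ hb)

lemma degZero_of_kunneth {Y Z : 𝒱.Obj} {A : Module.End W.K (W.H (Y.prod Z))}
    (h : ∀ i j, ∀ a ∈ W.gr Y i, ∀ b ∈ W.gr Z j,
      A (W.map (fst Y Z) a * W.map (snd Y Z) b) ∈ W.gr (Y.prod Z) (i + j)) :
    DegZero W (Y.prod Z) A := by
  intro n x hx
  have key : ∀ y : W.H (Y.prod Z), A (proj (W.isInternal _) n y) ∈ W.gr (Y.prod Z) n := by
    intro y
    refine W.kunneth_induction (p := fun y => A (proj (W.isInternal _) n y) ∈
      W.gr (Y.prod Z) n) ?_ ?_ y
    · intro a b ha hb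
      rw [map_add, map_add]
      exact Submodule.add_mem _ ha hb
    · intro i j a ha b hb
      by_cases hn : i + j = n
      · subst hn
        rw [proj_same _ (gr_prod ha hb)]
        exact h i j a ha b hb
      · rw [proj_ne _ (gr_prod ha hb) hn, map_zero]
        exact Submodule.zero_mem _
  have := key x
  rwa [proj_same _ hx] at this

lemma DegZero.ext {Y Z : 𝒱.Obj} {A : Module.End W.K (W.H Y)} {B : Module.End W.K (W.H Z)}
    (hA : DegZero W Y A) (hB : DegZero W Z B) : DegZero W (Y.prod Z) (extOp W A B) := by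
  refine degZero_of_kunneth fun i j a ha b hb => ?_
  rw [extOp_tmul]
  exact gr_prod (hA i a ha) (hB j b hb)

lemma degZero_wordOp {I : Type} {X : I → 𝒱.Obj} {A : ∀ i, Module.End W.K (W.H (X i))}
    (hA : ∀ i, DegZero W (X i) (A i)) (w : FreeMagma I) :
    DegZero W (wordObj X w) (wordOp W X A w) := by
  induction w with
  | ih1 i => exact hA i
  | ih2 v w hv hw => exact hv.ext hw

/-! ### Contractions -/

section Contr

variable {X Z : 𝒱.Obj}

/-- The linear form `a ⊗ b ↦ tr (a * E b)` on the cohomology of `X × X`. -/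
noncomputable def trForm (E : Module.End W.K (W.H X)) : W.H (X.prod X) →ₗ[W.K] W.K :=
  (TensorProduct.lift (((LinearMap.mul W.K (W.H X)).compl₂ E).compr₂ (W.tr X))) ∘ₗ
    (kappa W X X).symm.toLinearMap

lemma trForm_tmul (E : Module.End W.K (W.H X)) (a b : W.H X) :
    trForm E (W.map (fst X X) a * W.map (snd X X) b) = W.tr X (a * E b) := by
  rw [trForm, LinearMap.comp_apply, LinearEquiv.coe_coe, ← kappa_tmul,
    LinearEquiv.symm_apply_apply, TensorProduct.lift.tmul]
  rfl

/-- The contraction `(a ⊗ b) ⊗ z ↦ tr (a * E b) z`. -/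
noncomputable def contr (E : Module.End W.K (W.H X)) :
    W.H ((X.prod X).prod Z) →ₗ[W.K] W.H Z :=
  (TensorProduct.lid W.K (W.H Z)).toLinearMap ∘ₗ
    (TensorProduct.map (trForm E) LinearMap.id) ∘ₗ (kappa W (X.prod X) Z).symm.toLinearMap

lemma contr_tmul (E : Module.End W.K (W.H X)) (c : W.H (X.prod X)) (z : W.H Z) :
    contr E (W.map (fst (X.prod X) Z) c * W.map (snd (X.prod X) Z) z) = trForm E c • z := by
  rw [contr, LinearMap.comp_apply, LinearMap.comp_apply, LinearEquiv.coe_coe,
    LinearEquiv.coe_coe, ← kappa_tmul, LinearEquiv.symm_apply_apply, TensorProduct.map_tmul,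
    TensorProduct.lid_tmul]
  rfl

lemma contr_tmul₃ (E : Module.End W.K (W.H X)) (a b : W.H X) (z : W.H Z) :
    contr E (W.map (fst (X.prod X) Z) (W.map (fst X X) a * W.map (snd X X) b) *
      W.map (snd (X.prod X) Z) z) = W.tr X (a * E b) • z := by
  rw [contr_tmul, trForm_tmul]

/-- Linear maps on the cohomology of `(X × X) × Z` are determined by their values on external
products. -/
lemma ext_kunneth₃ {V : Type*} [AddCommGroup V] [Module W.K V]
    {F F' : W.H ((X.prod X).prod Z) →ₗ[W.K] V}
    (h : ∀ a b z, F (W.map (fst (X.prod X) Z) (W.map (fst X X) a * W.map (snd X X) b) *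
      W.map (snd (X.prod X) Z) z) =
      F' (W.map (fst (X.prod X) Z) (W.map (fst X X) a * W.map (snd X X) b) *
      W.map (snd (X.prod X) Z) z)) : F = F' := by
  refine ext_kunneth_lin fun c z => ?_
  refine W.kunneth_induction (p := fun c =>
    F (W.map (fst (X.prod X) Z) c * W.map (snd (X.prod X) Z) z) =
      F' (W.map (fst (X.prod X) Z) c * W.map (snd (X.prod X) Z) z)) ?_ ?_ c
  · intro a b ha hb
    simp only [map_add, add_mul, ha, hb]
  · intro i j a _ b _
    exact h a b z

lemma contr_add (E E' : Module.End W.K (W.H X)) :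
    contr (Z := Z) (E + E') = contr E + contr E' := by
  refine ext_kunneth₃ fun a b z => ?_
  rw [LinearMap.add_apply, contr_tmul₃, contr_tmul₃, contr_tmul₃, LinearMap.add_apply,
    mul_add, map_add, add_smul]

lemma contr_smul (c : W.K) (E : Module.End W.K (W.H X)) :
    contr (Z := Z) (c • E) = c • contr E := by
  refine ext_kunneth₃ fun a b z => ?_
  rw [LinearMap.smul_apply, contr_tmul₃, contr_tmul₃, LinearMap.smul_apply, mul_smul_comm,
    map_smul, smul_eq_mul, mul_smul]

/-- The contractions, as a linear map. -/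
noncomputable def contrHom (W : WeilCohomology.{u, v} ops) (X Z : 𝒱.Obj) :
    W.H ((X.prod X).prod Z) →ₗ[W.K] (Module.End W.K (W.H X) →ₗ[W.K] W.H Z) :=
  LinearMap.flip
    { toFun := fun E => contr E
      map_add' := contr_add
      map_smul' := contr_smul }

lemma contrHom_apply (g : W.H ((X.prod X).prod Z)) (E : Module.End W.K (W.H X)) :
    contrHom W X Z g E = contr E g := rfl

/-- The dual of a basis with respect to the intersection form. -/
lemma exists_dual (b : Module.Basis (Fin (Module.finrank W.K (W.H X))) W.K (W.H X)) :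
    ∃ b' : Fin (Module.finrank W.K (W.H X)) → W.H X, ∀ i x, W.tr X (b' i * x) = b.coord i x := by
  let B : W.H X →ₗ[W.K] Module.Dual W.K (W.H X) :=
    (LinearMap.mul W.K (W.H X)).compr₂ (W.tr X)
  have hB : ∀ a x, B a x = W.tr X (a * x) := fun a x => rfl
  have hinj : Function.Injective B := by
    rw [← LinearMap.ker_eq_bot, LinearMap.ker_eq_bot']
    intro a ha
    refine W.nondeg a fun x => ?_
    rw [← hB, ha]; rfl
  have hsurj : Function.Surjective B :=
    (LinearMap.injective_iff_surjective_of_finrank_eq_finrank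
      (Subspace.dual_finrank_eq (K := W.K) (V := W.H X)).symm).mp hinj
  choose b' hb' using fun i => hsurj (b.coord i)
  exact ⟨b', fun i x => by rw [← hB, hb']⟩

lemma contrHom_surjective : Function.Surjective (contrHom W X Z) := by
  intro Ψ
  let b := Module.finBasis W.K (W.H X)
  obtain ⟨b', hb'⟩ := exists_dual b
  let e : Fin (Module.finrank W.K (W.H X)) → Fin (Module.finrank W.K (W.H X)) →
    Module.End W.K (W.H X) := fun i j => (b.coord j).smulRight (b i)
  refine ⟨∑ i, ∑ j, W.map (fst (X.prod X) Z) (W.map (fst X X) (b' i) * W.map (snd X X) (b j)) *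
    W.map (snd (X.prod X) Z) (Ψ (e i j)), ?_⟩
  refine LinearMap.ext fun E => ?_
  rw [contrHom_apply, map_sum]
  have h1 : E = ∑ i, ∑ j, b.coord i (E (b j)) • e i j := by
    refine b.ext fun l => ?_
    have h2 : ∀ i j, (b.coord i (E (b j)) • e i j) (b l) =
        if j = l then b.coord i (E (b l)) • b i else 0 := by
      intro i j
      rw [LinearMap.smul_apply]
      show b.coord i (E (b j)) • (b.coord j (b l) • b i) = _
      rw [Module.Basis.coord_apply, Module.Basis.coord_apply, b.repr_self, Finsupp.single_apply]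
      by_cases h : j = l
      · subst h; simp
      · rw [if_neg (Ne.symm h), if_neg h, zero_smul, smul_zero]
    rw [LinearMap.sum_apply]
    simp only [LinearMap.sum_apply, h2]
    rw [Finset.sum_congr rfl fun i _ => Finset.sum_ite_eq' _ l _]
    simp only [Finset.mem_univ, if_true, Module.Basis.coord_apply]
    exact (b.sum_repr (E (b l))).symm
  conv_rhs => rw [h1]
  rw [map_sum]
  refine Finset.sum_congr rfl fun i _ => ?_
  rw [map_sum, map_sum]
  refine Finset.sum_congr rfl fun j _ => ?_
  rw [contr_tmul₃, hb', map_smul]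

lemma contrHom_bijective : Function.Bijective (contrHom W X Z) := by
  have h1 : Module.finrank W.K (W.H ((X.prod X).prod Z)) =
      Module.finrank W.K (Module.End W.K (W.H X) →ₗ[W.K] W.H Z) := by
    rw [← (kappa W (X.prod X) Z).finrank_eq, Module.finrank_tensorProduct,
      ← (kappa W X X).finrank_eq, Module.finrank_tensorProduct, Module.finrank_linearMap,
      Module.finrank_linearMap]
  exact ⟨(LinearMap.injective_iff_surjective_of_finrank_eq_finrank h1).mpr contrHom_surjective,
    contrHom_surjective⟩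

/-- Contractions are equivariant. -/
lemma contr_equivariant {A A' : Module.End W.K (W.H X)} (hA : ∀ x y, W.tr X (A x * A y) =
    W.tr X (x * y)) (hA' : A * A' = 1) (B : Module.End W.K (W.H Z))
    (E : Module.End W.K (W.H X)) (g : W.H ((X.prod X).prod Z)) :
    contr E (extOp W (extOp W A A) B g) = B (contr (A' * E * A) g) := by
  have h1 : (contr E) ∘ₗ (extOp W (extOp W A A) B) = B ∘ₗ contr (Z := Z) (A' * E * A) := by
    refine ext_kunneth₃ fun a b z => ?_
    rw [LinearMap.comp_apply, extOp_tmul, extOp_tmul, contr_tmul₃, LinearMap.comp_apply,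
      contr_tmul₃, map_smul]
    congr 1
    rw [← hA a]
    congr 2
    have h2 : A (A' (E (A b))) = (A * A') (E (A b)) := rfl
    show E (A b) = A (A' (E (A b)))
    rw [h2, hA']
    rfl
  exact congrArg (fun F => F g) h1

/-- Contractions with operators of degree zero are homogeneous of degree `-2 dim X`. -/
lemma proj_contr {E : Module.End W.K (W.H X)} (hE : DegZero W X E) (n : ℕ)
    (g : W.H ((X.prod X).prod Z)) :
    proj (W.isInternal Z) n (contr E g) = contr E (proj (W.isInternal _) (2 * X.dim + n) g) := by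
  refine W.kunneth_induction (p := fun g => proj (W.isInternal Z) n (contr E g) =
    contr E (proj (W.isInternal _) (2 * X.dim + n) g)) ?_ ?_ g
  · intro a b ha hb
    simp only [map_add, ha, hb]
  · intro i j c hc z hz
    have h0 : i ≠ 2 * X.dim → trForm E c = 0 := by
      intro hi
      have key : ∀ c' : W.H (X.prod X), trForm E (proj (W.isInternal _) i c') = 0 := by
        intro c'
        refine W.kunneth_induction
          (p := fun c' => trForm E (proj (W.isInternal _) i c') = 0) ?_ ?_ c'
        · intro a b ha hb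
          rw [map_add, map_add, ha, hb, add_zero]
        · intro r s a ha b hb
          by_cases hrs : r + s = i
          · subst hrs
            rw [proj_same _ (gr_prod ha hb), trForm_tmul]
            exact W.tr_eq_zero (W.mul_mem ha (hE s b hb)) hi
          · rw [proj_ne _ (gr_prod ha hb) hrs, map_zero]
      have := key c
      rwa [proj_same _ hc] at this
    rw [contr_tmul]
    by_cases hi : i = 2 * X.dim
    · subst hi
      by_cases hj : j = n
      · subst hj
        rw [proj_same _ (gr_prod hc hz), contr_tmul, map_smul, proj_same _ hz]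
      · rw [proj_ne _ (gr_prod hc hz) (by omega), map_zero, map_smul, proj_ne _ hz hj,
          smul_zero]
    · rw [h0 hi, zero_smul, map_zero]
      by_cases hij : i + j = 2 * X.dim + n
      · rw [← hij, proj_same _ (gr_prod hc hz), contr_tmul, h0 hi, zero_smul]
      · rw [proj_ne _ (gr_prod hc hz) hij, map_zero]

/-- The morphism `(x, z) ↦ ((x, f x), z)`. -/
noncomputable def graphMor (f : X ⟶ X) (Z : 𝒱.Obj) : X.prod Z ⟶ (X.prod X).prod Z :=
  Obj.lift (Obj.lift (fst X Z) (fst X Z ≫ f)) (snd X Z)

lemma contr_map (f : X ⟶ X) (g : W.H ((X.prod X).prod Z)) :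
    contr (W.map f).toLinearMap g = W.push (snd X Z) (W.map (graphMor f Z) g) := by
  have h1 : contr (Z := Z) (W.map f).toLinearMap =
      W.push (snd X Z) ∘ₗ (W.map (graphMor f Z)).toLinearMap := by
    refine ext_kunneth₃ fun a b z => ?_
    rw [contr_tmul₃, LinearMap.comp_apply, AlgHom.toLinearMap_apply, AlgHom.toLinearMap_apply]
    have e1 : graphMor f Z ≫ fst (X.prod X) Z = Obj.lift (fst X Z) (fst X Z ≫ f) :=
      Obj.lift_fst _ _
    have e2 : graphMor f Z ≫ snd (X.prod X) Z = snd X Z := Obj.lift_snd _ _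
    have e3 : Obj.lift (fst X Z) (fst X Z ≫ f) ≫ fst X X = fst X Z := Obj.lift_fst _ _
    have e4 : Obj.lift (fst X Z) (fst X Z ≫ f) ≫ snd X X = fst X Z ≫ f := Obj.lift_snd _ _
    rw [map_mul (W.map (graphMor f Z)), ← W.map_comp, ← W.map_comp, e1, e2,
      map_mul (W.map (Obj.lift (fst X Z) (fst X Z ≫ f))), ← W.map_comp, ← W.map_comp,
      e3, e4, W.map_comp, ← map_mul (W.map (fst X Z)), W.push_snd]
  exact congrArg (fun F => F g) h1

lemma contr_map_mem (f : X ⟶ X) {n : ℕ} {g : W.H ((X.prod X).prod Z)}
    (hg : g ∈ spanCycles W ((X.prod X).prod Z) ((X.dim + n : ℕ) : ℤ)) :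
    contr (W.map f).toLinearMap g ∈ spanCycles W Z (n : ℤ) := by
  rw [spanCycles_eq] at hg ⊢
  induction hg using Submodule.span_induction with
  | mem x hx =>
    obtain ⟨z, hz, rfl⟩ := hx
    rw [contr_map, ← W.cl_pull, ← W.cl_push]
    refine Submodule.subset_span ⟨_, ops.push_mem (snd X Z) (ops.pull_mem (graphMor f Z) hz) ?_,
      rfl⟩
    show X.dim + n + Z.dim = n + (X.dim + Z.dim)
    omega
  | zero => rw [map_zero]; exact Submodule.zero_mem _
  | add x y _ _ hx hy => rw [map_add]; exact Submodule.add_mem _ hx hy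
  | smul a x _ hx => rw [map_smul]; exact Submodule.smul_mem _ _ hx

end Contr

end Pool.Agent.Y136
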